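import Pool.Agent.SymS.Def

/-!
# Algebra of symmetric data (helper50)

`br` is bilinear, antisymmetric and satisfies the Jacobi identity (`noncomm_ring`).  For
`a, b, c ∈ pp` put `R(a,b) c = br (br a b) c ∈ pp`.
* `curv_symm` (pair symmetry): `R(a,b) = -R(b,a)`; `B(R(a,b)c, d) = -B(c, R(a,b)d)` by `inv` with
  `z = br a b ∈ kk`; `R(a,b)c + R(b,c)a + R(c,a)b = 0` (Jacobi).  The usual argument for curvature
  tensors: with `(a,b,c,d) = B(R(a,b)c, d)` add the Jacobi identities for the four cyclic choices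
  (`(a,b,c,d) + (b,c,a,d) + (c,a,b,d) = 0`, the same for `(b,c,d,a)`, `(c,d,a,b)`, `(d,a,b,c)`)
  and cancel with the antisymmetries: `2 (a,b,c,d) = 2 (c,d,a,b)`.
* `L_self`: `br H (br ξ x) = -R(ξ, x) H`, so `B(br H (br ξ x), y) = -(ξ,x,H,y) = -(H,y,ξ,x)
  = -B(R(H,y) ξ, x) = B(br ξ (br H y), x) = B(br H (br ξ y), x)` (Jacobi and `br H ξ = 0`).
* `xi_mem_cc`: if `br ξ x = 0` then `br ξ x = 0`.  `cc_comm_xi`: `ξ ∈ gg`, `br ξ ξ = 0`.
  `cc_comm`: `H' ∈ gg`, `br ξ H' = -br H' ξ = 0`.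
* `kk_orth`: the operator `L x = br ξ (br ξ x)` of the finite-dimensional space `pp` is self-adjoint for
  `B` (`L_self` with `H = ξ`), `B` is positive definite on `pp`, and `ker L = {z ∈ pp : br ξ z = 0}`
  by `NoFlat`; so `pp = ker L ⊕ range L` orthogonally.  Let `k ∈ kk`, `y = br ξ k ∈ pp`,
  `y = z' + L y'`, `z' ∈ ker L`, `y' ∈ pp`.  Then `z' = br ξ (k - br ξ y')`, `br ξ z' = 0`, so by
  `NoFlat` for `x = k - br ξ y' ∈ gg`: `z' = br ξ x = 0`; hence `y ∈ range L` is orthogonal to every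
  `z ∈ pp` with `br ξ z = 0`.
* `exists_proj`: a linear map with `π = id` on `pp` and `π = 0` on `kk` (`kk ∩ pp = 0`, extend by a
  complement).
-/

namespace Pool.Agent.SymS

variable {A : Type*} [NormedRing A] [NormedAlgebra ℝ A] [FiniteDimensional ℝ A]

private theorem sa_anti {R : Type*} [Ring R] (x y : R) : br x y = -br y x := by
  unfold br
  rw [neg_sub]

private theorem sa_self {R : Type*} [Ring R] (x : R) : br x x = 0 := by
  unfold br
  rw [sub_self]

private theorem sa_jac {R : Type*} [Ring R] (a b c : R) :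
    br (br a b) c + br (br b c) a + br (br c a) b = 0 := by
  unfold br
  noncomm_ring

private theorem sa_sub {R : Type*} [Ring R] (x y z : R) : br x (y - z) = br x y - br x z := by
  unfold br
  noncomm_ring

private theorem sa_add {R : Type*} [Ring R] (x y z : R) : br x (y + z) = br x y + br x z := by
  unfold br
  noncomm_ring

private theorem sa_smul (x : A) (c : ℝ) (y : A) : br x (c • y) = c • br x y := by
  unfold br
  rw [smul_mul_assoc, mul_smul_comm, smul_sub]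

private theorem sa_zero {R : Type*} [Ring R] (x : R) : br x 0 = 0 := by
  unfold br
  rw [mul_zero, zero_mul, sub_zero]

private theorem sa_mem (M : Sym A) {x k : A} (hx : x ∈ M.pp) (hk : k ∈ M.kk) :
    br x k ∈ M.pp := by
  rw [sa_anti]
  exact M.pp.neg_mem (M.kk_pp k hk x hx)

theorem curv_symm (M : Sym A) {a b c d : A} (ha : a ∈ M.pp) (hb : b ∈ M.pp) (hc : c ∈ M.pp)
    (hd : d ∈ M.pp) : M.B (br (br a b) c) d = M.B (br (br c d) a) b := by
  have h1 : ∀ x y z w : A, M.B (br (br y x) z) w = -M.B (br (br x y) z) w := by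
    intro x y z w
    rw [sa_anti y x]
    have : br (-br x y) z = -br (br x y) z := by
      unfold br
      noncomm_ring
    rw [this, map_neg, LinearMap.neg_apply]
  have h2 : ∀ x ∈ M.pp, ∀ y ∈ M.pp, ∀ z ∈ M.pp, ∀ w ∈ M.pp,
      M.B (br (br x y) w) z = -M.B (br (br x y) z) w := by
    intro x hx y hy z hz w hw
    rw [M.inv _ (M.pp_pp x hx y hy) w hw z hz,
      M.symm w hw _ (M.kk_pp _ (M.pp_pp x hx y hy) z hz)]
  have h3 : ∀ x y z w : A, M.B (br (br x y) z) w + M.B (br (br y z) x) w +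
      M.B (br (br z x) y) w = 0 := by
    intro x y z w
    rw [← LinearMap.add_apply, ← LinearMap.add_apply, ← map_add, ← map_add, sa_jac, map_zero,
      LinearMap.zero_apply]
  have j1 := h3 a b c d
  have j2 := h3 b c d a
  have j3 := h3 c d a b
  have j4 := h3 d a b c
  have e1 := h2 b hb c hc a ha d hd
  have e2 := h2 c hc d hd a ha b hb
  have e3 := h2 d hd b hb a ha c hc
  have e4 := h2 d hd a ha b hb c hc
  have e5 := h2 a ha c hc b hb d hd
  have e6 := h2 a ha b hb c hc d hd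
  have e7 := h1 b d a c
  have e8 := h1 a c b d
  linarith

theorem L_self (M : Sym A) {ξ H x y : A} (hξ : ξ ∈ M.pp) (hH : H ∈ M.pp) (hc : br H ξ = 0)
    (hx : x ∈ M.pp) (hy : y ∈ M.pp) :
    M.B (br H (br ξ x)) y = M.B x (br H (br ξ y)) := by
  have e1 : br H (br ξ x) = -br (br ξ x) H := sa_anti _ _
  have e2 : br H (br ξ y) = -br (br ξ y) H := sa_anti _ _
  have e3 : br (br ξ y) H = br (br H y) ξ := by
    have h := sa_jac H y ξ
    have h0 : br ξ H = 0 := by rw [sa_anti, hc, neg_zero]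
    have h1 : br (br ξ H) y = 0 := by
      rw [h0, sa_anti, sa_zero, neg_zero]
    have h2 : br (br y ξ) H = -br (br ξ y) H := by
      rw [sa_anti y ξ]
      unfold br
      noncomm_ring
    rw [h1, h2, add_zero] at h
    exact (add_neg_eq_zero.1 h).symm
  rw [M.symm x hx _ (sa_mem M hH (M.pp_pp ξ hξ y hy)), e1, e2, e3, map_neg, map_neg,
    LinearMap.neg_apply, LinearMap.neg_apply, curv_symm M hξ hx hH hy]

theorem xi_mem_cc (M : Sym A) {ξ : A} (hξ : ξ ∈ M.pp) : ξ ∈ M.cc ξ :=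
  ⟨hξ, fun _ _ h => h⟩

theorem cc_comm_xi (M : Sym A) {ξ : A} (hξ : ξ ∈ M.pp) {H : A} (hH : H ∈ M.cc ξ) :
    br H ξ = 0 :=
  hH.2 ξ (Submodule.mem_sup_right hξ) (sa_self ξ)

theorem cc_comm (M : Sym A) {ξ : A} (hξ : ξ ∈ M.pp) {H H' : A} (hH : H ∈ M.cc ξ)
    (hH' : H' ∈ M.cc ξ) : br H H' = 0 := by
  refine hH.2 H' (Submodule.mem_sup_right hH'.1) ?_
  rw [sa_anti, cc_comm_xi M hξ hH', neg_zero]

theorem kk_orth (M : Sym A) {ξ : A} (hξ : ξ ∈ M.pp) (hNF : M.NoFlat ξ) {k z : A}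
    (hk : k ∈ M.kk) (hz : z ∈ M.pp) (hz0 : br ξ z = 0) : M.B (br ξ k) z = 0 := by
  let L : M.pp →ₗ[ℝ] M.pp :=
    { toFun := fun x => ⟨br ξ (br ξ x), sa_mem M hξ (M.pp_pp ξ hξ x x.2)⟩
      map_add' := fun x y => by
        apply Subtype.ext
        show br ξ (br ξ ((x : A) + (y : A))) = br ξ (br ξ x) + br ξ (br ξ y)
        rw [sa_add, sa_add]
      map_smul' := fun c x => by
        apply Subtype.ext
        show br ξ (br ξ (c • (x : A))) = c • br ξ (br ξ x)
        rw [sa_smul, sa_smul] }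
  have hLval : ∀ x : M.pp, ((L x : M.pp) : A) = br ξ (br ξ x) := fun _ => rfl
  have hself : ∀ x y : M.pp, M.B (L x) y = M.B x (L y) := fun x y =>
    L_self M hξ hξ (sa_self ξ) x.2 y.2
  have hdis : Disjoint (LinearMap.ker L) (LinearMap.range L) := by
    rw [Submodule.disjoint_def]
    rintro _ h0 ⟨v, rfl⟩
    by_contra hne
    have h1 : ((L v : M.pp) : A) ≠ 0 := fun h => hne (Subtype.ext h)
    have h2 := M.pos _ (L v).2 h1
    have h3 := hself v (L v)
    rw [LinearMap.mem_ker.1 h0, Submodule.coe_zero, map_zero] at h3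
    exact h2.ne' h3
  have htop : LinearMap.ker L ⊔ LinearMap.range L = ⊤ := by
    refine Submodule.eq_top_of_disjoint _ _ ?_ hdis
    rw [add_comm, LinearMap.finrank_range_add_finrank_ker]
  have hmem : (⟨br ξ k, sa_mem M hξ hk⟩ : M.pp) ∈ LinearMap.ker L ⊔ LinearMap.range L := by
    rw [htop]
    exact Submodule.mem_top
  obtain ⟨z', hz', w, ⟨y', rfl⟩, hsum⟩ := Submodule.mem_sup.1 hmem
  have hsum' : (z' : A) + br ξ (br ξ y') = br ξ k := congrArg Subtype.val hsum
  have hz'0 : br ξ (z' : A) = 0 := by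
    refine hNF z' (Submodule.mem_sup_right z'.2) ?_
    exact congrArg Subtype.val (LinearMap.mem_ker.1 hz')
  have h4 : (z' : A) = br ξ (k - br ξ y') := by
    rw [sa_sub, ← hsum', add_sub_cancel_right]
  have h5 : br ξ (k - br ξ y') = 0 := by
    refine hNF _ (Submodule.mem_sup_left (M.kk.sub_mem hk (M.pp_pp ξ hξ y' y'.2))) ?_
    rw [← h4, hz'0]
  rw [← hsum', h4, h5, zero_add]
  have h6 := hself y' ⟨z, hz⟩
  have h7 : ((L ⟨z, hz⟩ : M.pp) : A) = 0 := by
    rw [hLval]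
    show br ξ (br ξ z) = 0
    rw [hz0, sa_zero]
  rw [h7, map_zero] at h6
  exact h6

theorem exists_proj (M : Sym A) :
    ∃ π : A →ₗ[ℝ] A, (∀ x ∈ M.pp, π x = x) ∧ (∀ x ∈ M.kk, π x = 0) := by
  have hinj : LinearMap.ker (M.kk.mkQ ∘ₗ M.pp.subtype) = ⊥ := by
    rw [LinearMap.ker_eq_bot']
    intro x hx
    rw [LinearMap.comp_apply, Submodule.subtype_apply, Submodule.mkQ_apply,
      Submodule.Quotient.mk_eq_zero] at hx
    exact Subtype.ext (M.disj x hx x.2)
  obtain ⟨g, hg⟩ := LinearMap.exists_leftInverse_of_injective _ hinj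
  refine ⟨M.pp.subtype ∘ₗ g ∘ₗ M.kk.mkQ, ?_, ?_⟩
  · intro x hx
    have h := LinearMap.congr_fun hg ⟨x, hx⟩
    exact congrArg Subtype.val h
  · intro x hx
    rw [LinearMap.comp_apply, LinearMap.comp_apply, Submodule.mkQ_apply,
      (Submodule.Quotient.mk_eq_zero _).2 hx, map_zero, map_zero]

end Pool.Agent.SymS
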