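import Mathlib

/-!
# Hypersurfaces of symmetric spaces with normal of constant type: definitions (helper50)

A Riemannian symmetric space is given by its infinitesimal data inside an associative algebra `A`
(for instance matrices): a Lie algebra `kk ⊕ pp` of elements of `A` with
`[kk, kk] ⊆ kk`, `[kk, pp] ⊆ pp`, `[pp, pp] ⊆ kk` and a `kk`-invariant inner product on `pp`; locally
the space is `G / K`, where `G` and `K` are the groups generated by `exp (kk ⊕ pp)` and `exp kk`, the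
tangent space at the base point `o` is `pp`, geodesics through `g o` are `g exp (t x) o`, `x ∈ pp`,
and the curvature is `R(x, y) z = -[[x, y], z]`.
-/

namespace Pool.Agent.SymS

open scoped BigOperators ContDiff

/-- the commutator. -/
def br {A : Type*} [Ring A] (x y : A) : A := x * y - y * x

/-- Infinitesimal data of a Riemannian symmetric space in the algebra `A`. -/
structure Sym (A : Type*) [NormedRing A] [NormedAlgebra ℝ A] where
  kk : Submodule ℝ A
  pp : Submodule ℝ A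
  B : A →ₗ[ℝ] A →ₗ[ℝ] ℝ
  kk_kk : ∀ x ∈ kk, ∀ y ∈ kk, br x y ∈ kk
  kk_pp : ∀ x ∈ kk, ∀ y ∈ pp, br x y ∈ pp
  pp_pp : ∀ x ∈ pp, ∀ y ∈ pp, br x y ∈ kk
  disj : ∀ x, x ∈ kk → x ∈ pp → x = 0
  symm : ∀ x ∈ pp, ∀ y ∈ pp, B x y = B y x
  pos : ∀ x ∈ pp, x ≠ 0 → 0 < B x x
  inv : ∀ z ∈ kk, ∀ x ∈ pp, ∀ y ∈ pp, B (br z x) y = -B x (br z y)

section
variable {A : Type*} [NormedRing A] [NormedAlgebra ℝ A]

/-- the Lie algebra `kk ⊕ pp`. -/
def Sym.gg (M : Sym A) : Submodule ℝ A := M.kk ⊔ M.pp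

/-- The vectors `H ∈ pp` commuting with the centraliser of `ξ` in `kk ⊕ pp` (if `ξ` is a regular
element of a maximal flat this is the maximal flat; in general it is the linear span of the face of
`ξ`, if there is no Euclidean factor). -/
def Sym.cc (M : Sym A) (ξ : A) : Submodule ℝ A where
  carrier := {H | H ∈ M.pp ∧ ∀ x ∈ M.gg, br ξ x = 0 → br H x = 0}
  add_mem' := by
    rintro a b ⟨ha, ha'⟩ ⟨hb, hb'⟩
    refine ⟨M.pp.add_mem ha hb, fun x hx h => ?_⟩
    have h1 := ha' x hx h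
    have h2 := hb' x hx h
    have : br (a + b) x = br a x + br b x := by unfold br; noncomm_ring
    rw [this, h1, h2, add_zero]
  zero_mem' := ⟨M.pp.zero_mem, fun x _ _ => by simp [br]⟩
  smul_mem' := by
    rintro c a ⟨ha, ha'⟩
    refine ⟨M.pp.smul_mem c ha, fun x hx h => ?_⟩
    have h1 := ha' x hx h
    have : br (c • a) x = c • br a x := by
      unfold br; rw [smul_mul_assoc, mul_smul_comm, smul_sub]
    rw [this, h1, smul_zero]

/-- No Euclidean factor at `ξ`: `ad ξ ∘ ad ξ` and `ad ξ` have the same kernel (true for all `ξ ∈ pp` if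
`kk ⊕ pp` is semisimple). -/
def Sym.NoFlat (M : Sym A) (ξ : A) : Prop := ∀ x ∈ M.gg, br ξ (br ξ x) = 0 → br ξ x = 0

/-- `α` is a restricted root (restricted to `cc ξ`), of noncompact type if `ε = 1`
(`(ad H)² x = α(H)² x`), of compact type if `ε = -1` (`(ad H)² x = -α(H)² x`). -/
def Sym.IsRoot (M : Sym A) (ξ : A) (ε : ℝ) (α : M.cc ξ →ₗ[ℝ] ℝ) : Prop :=
  ∃ x ∈ M.gg, ∃ y ∈ M.gg, x ≠ 0 ∧ ∀ H : M.cc ξ,
    br (H : A) x = α H • y ∧ br (H : A) y = (ε * α H) • x

/-- `ξ` is generic: a nonzero integral combination of restricted roots (of the same type) neither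
vanishes at `ξ` nor vanishes on the orthogonal complement of `ξ` in `cc ξ`. -/
def Sym.Generic (M : Sym A) (ξ : A) : Prop :=
  ∀ ε : ℝ, (ε = 1 ∨ ε = -1) → ∀ w ∈ AddSubgroup.closure {α : M.cc ξ →ₗ[ℝ] ℝ | M.IsRoot ξ ε α},
    w ≠ 0 → (∀ H : M.cc ξ, (H : A) = ξ → w H ≠ 0) ∧ ∃ H : M.cc ξ, M.B H ξ = 0 ∧ w H ≠ 0

variable {E : Type*} [NormedAddCommGroup E] [NormedSpace ℝ E]

/-- `u ↦ f u · o`, `u ∈ U`, is an immersed hypersurface of the symmetric space and `f u` maps the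
fixed unit vector `ξ ∈ pp` to its normal at `f u · o` (the normal has constant type `ξ`); `wk + wp` is
the Maurer-Cartan form `f⁻¹ df`, so `f u` maps `wp u v ∈ pp` to the tangent vector in the direction
`v`. -/
structure Sym.IsHyp (M : Sym A) (ξ : A) (U : Set E) (f : E → A) (wk wp : E → E →ₗ[ℝ] A) : Prop where
  op : IsOpen U
  sm : ContDiffOn ℝ ∞ f U
  un : ∀ u ∈ U, IsUnit (f u)
  df : ∀ u ∈ U, ∀ v, fderiv ℝ f u v = f u * (wk u v + wp u v)
  hk : ∀ u ∈ U, ∀ v, wk u v ∈ M.kk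
  hp : ∀ u ∈ U, ∀ v, wp u v ∈ M.pp
  inj : ∀ u ∈ U, Function.Injective (wp u)
  orth : ∀ u ∈ U, ∀ v, M.B (wp u v) ξ = 0
  codim : ∀ u ∈ U, ∀ w ∈ M.pp, M.B w ξ = 0 → ∃ v, wp u v = w

/-- `S` is the shape operator: the covariant derivative of the normal field `f ξ` in the direction `v`
is `f [wk v, ξ]`. -/
def IsShape (ξ : A) (wk wp : E →ₗ[ℝ] A) (S : E →ₗ[ℝ] E) : Prop :=
  ∀ v, wp (S v) = -br (wk v) ξ

/-- (used in the proof only) `wp (Θ v)` is the `pp`-component of `exp(-H) (wk v + wp v) exp(H)`. -/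
def Sym.IsTheta (M : Sym A) (wk wp : E →ₗ[ℝ] A) (H : A) (Θ : E →ₗ[ℝ] E) : Prop :=
  ∀ v, ∃ k ∈ M.kk,
    NormedSpace.exp (-H) * (wk v + wp v) * NormedSpace.exp H = k + wp (Θ v)

end

end Pool.Agent.SymS
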