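import Pool.Agent.SymS.Alg

/-!
# Joint eigenvectors (helper50)

`g(v, w) = B(wp0 v, wp0 w)` is an inner product on `E`.  For `H ∈ cc ξ` (so `br H ξ = 0`) and `v ∈ E` the
vector `br H (br ξ (wp0 v))` is in `pp` and orthogonal to `ξ`: by `L_self`
`B(br H (br ξ x), ξ) = B(x, br H (br ξ ξ)) = 0`; so by `hsurj` it is `wp0 (L_H v)` for a linear map
`L_H : E → E`, linear in `H`.  `L_H` is self-adjoint for `g` (`L_self`), and the `L_H` commute, since
the maps `br H`, `br H'`, `br ξ` commute with each other (Jacobi and `cc_comm`, `cc_comm_xi`).  Choose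
a basis `H_1, .., H_m` of `cc ξ`; the finitely many commuting self-adjoint operators `L_{H_i}` have a
common eigenbasis of `E` (for example `LinearMap.IsSymmetric.directSum_isInternal_of_pairwise_commute`
with the inner product `g` via `InnerProductSpace.ofCore`, or induction on the dimension, or the
commuting-diagonalisable lemmas `Module.End.iSup_iInf_..`).  For general `H` use linearity;
`ρ r : cc ξ →ₗ ℝ` is `H ↦ ` the coefficient, e.g. `ρ r H = g(L_H e_r, e_r) / g(e_r, e_r)`.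
-/

namespace Pool.Agent.SymS

open Module Module.End

private theorem joint {V : Type*} [AddCommGroup V] [Module ℝ V] [FiniteDimensional ℝ V]
    (g : V →ₗ[ℝ] V →ₗ[ℝ] ℝ) (hs : ∀ x y, g x y = g y x) (hp : ∀ x, x ≠ 0 → 0 < g x x)
    {ι : Type*} (T : ι → V →ₗ[ℝ] V) (hT : ∀ i x y, g (T i x) y = g x (T i y))
    (hC : ∀ i j x, T i (T j x) = T j (T i x)) :
    ∃ (n : ℕ) (b : Module.Basis (Fin n) ℝ V), ∀ r, ∀ i, ∃ c : ℝ, T i (b r) = c • b r := by
  classical
  have hnn : ∀ x, 0 ≤ g x x := by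
    intro x
    by_cases hx : x = 0
    · rw [hx, map_zero]
    · exact (hp x hx).le
  let core : InnerProductSpace.Core ℝ V :=
    { inner := fun x y => g x y
      conj_inner_symm := fun x y => by
        show (starRingEnd ℝ) (g y x) = g x y
        rw [conj_trivial, hs]
      re_inner_nonneg := fun x => by
        show 0 ≤ RCLike.re (g x x)
        rw [RCLike.re_to_real]
        exact hnn x
      add_left := fun x y z => by
        show g (x + y) z = g x z + g y z
        rw [map_add, LinearMap.add_apply]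
      smul_left := fun x y r => by
        show g (r • x) y = (starRingEnd ℝ) r * g x y
        rw [map_smul, LinearMap.smul_apply, conj_trivial, smul_eq_mul]
      definite := fun x h => by
        by_contra hx
        exact (hp x hx).ne' h }
  letI i1 : NormedAddCommGroup V := core.toNormedAddCommGroup
  letI i2 : InnerProductSpace ℝ V := InnerProductSpace.ofCore core.toCore
  have hin : ∀ x y : V, inner ℝ x y = g x y := fun _ _ => rfl
  have hsym : ∀ i, (T i).IsSymmetric := by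
    intro i x y
    rw [hin, hin]
    exact hT i x y
  have hcom : Pairwise (Function.onFun Commute T) := by
    intro i j _
    show T i * T j = T j * T i
    ext x
    exact hC i j x
  have hint := LinearMap.IsSymmetric.directSum_isInternal_of_pairwise_commute
    (T := (T : ι → Module.End ℝ V)) hsym hcom
  let v : ∀ α : ι → ℝ, Module.Basis (Fin (finrank ℝ (⨅ j, eigenspace (T j) (α j) : Submodule ℝ V)))
      ℝ (⨅ j, eigenspace (T j) (α j) : Submodule ℝ V) := fun α => Module.finBasis ℝ _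
  let b := hint.collectedBasis v
  haveI : Finite (Σ α : ι → ℝ, Fin (finrank ℝ (⨅ j, eigenspace (T j) (α j) : Submodule ℝ V))) :=
    Module.Finite.finite_basis b
  obtain ⟨n, ⟨e⟩⟩ := Finite.exists_equiv_fin
    (Σ α : ι → ℝ, Fin (finrank ℝ (⨅ j, eigenspace (T j) (α j) : Submodule ℝ V)))
  refine ⟨n, b.reindex e, ?_⟩
  intro r i
  refine ⟨(e.symm r).1 i, ?_⟩
  rw [Module.Basis.reindex_apply]
  have hmem := hint.collectedBasis_mem v (e.symm r)
  exact mem_eigenspace_iff.1 ((Submodule.mem_iInf _).1 hmem i)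

private theorem jacobi {R : Type*} [Ring R] (a b c : R) :
    br a (br b c) = br (br a b) c + br b (br a c) := by
  unfold br
  noncomm_ring

/-- `x ↦ br a x`. -/
private def lft {A : Type*} [NormedRing A] [NormedAlgebra ℝ A] (a : A) : A →ₗ[ℝ] A where
  toFun x := br a x
  map_add' x y := by unfold br; noncomm_ring
  map_smul' c x := by
    unfold br
    rw [smul_mul_assoc, mul_smul_comm, RingHom.id_apply, smul_sub]

/-- `x ↦ br x a`. -/
private def rgt {A : Type*} [NormedRing A] [NormedAlgebra ℝ A] (a : A) : A →ₗ[ℝ] A where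
  toFun x := br x a
  map_add' x y := by unfold br; noncomm_ring
  map_smul' c x := by
    unfold br
    rw [smul_mul_assoc, mul_smul_comm, RingHom.id_apply, smul_sub]

variable {A : Type*} [NormedRing A] [NormedAlgebra ℝ A] [FiniteDimensional ℝ A]
  {E : Type*} [NormedAddCommGroup E] [NormedSpace ℝ E] [FiniteDimensional ℝ E]

private theorem br_swap {R : Type*} [Ring R] (x y : R) : br x y = -br y x := by
  unfold br
  rw [neg_sub]

private theorem br_zero_left {R : Type*} [Ring R] (y : R) : br 0 y = 0 := by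
  unfold br
  rw [zero_mul, mul_zero, sub_zero]

private theorem br_self {R : Type*} [Ring R] (x : R) : br x x = 0 := by
  unfold br
  rw [sub_self]

theorem exists_basis (M : Sym A) {ξ : A} (hξ : ξ ∈ M.pp) (wp0 : E →ₗ[ℝ] A)
    (hp : ∀ v, wp0 v ∈ M.pp) (hinj : Function.Injective wp0) (horth : ∀ v, M.B (wp0 v) ξ = 0)
    (hsurj : ∀ w ∈ M.pp, M.B w ξ = 0 → ∃ v, wp0 v = w) :
    ∃ (R : Type) (_ : Fintype R) (_ : DecidableEq R) (bas : Module.Basis R ℝ E)
      (ρ : R → (M.cc ξ →ₗ[ℝ] ℝ)),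
      ∀ r, ∀ H : M.cc ξ, br (H : A) (br ξ (wp0 (bas r))) = ρ r H • wp0 (bas r) := by
  obtain ⟨g0, hg0⟩ := LinearMap.exists_leftInverse_of_injective wp0 (LinearMap.ker_eq_bot.2 hinj)
  have hg0' : ∀ v, g0 (wp0 v) = v := fun v => LinearMap.congr_fun hg0 v
  let T : M.cc ξ → E →ₗ[ℝ] E := fun H => g0 ∘ₗ lft (H : A) ∘ₗ lft ξ ∘ₗ wp0
  have hmem : ∀ H ∈ M.cc ξ, ∀ x ∈ M.pp, br H (br ξ x) ∈ M.pp := by
    intro H hH x hx
    rw [br_swap]
    exact M.pp.neg_mem (M.kk_pp _ (M.pp_pp ξ hξ x hx) H hH.1)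
  have hTv : ∀ (H : M.cc ξ) (v : E), wp0 (T H v) = br (H : A) (br ξ (wp0 v)) := by
    intro H v
    have h1 : M.B (br (H : A) (br ξ (wp0 v))) ξ = 0 := by
      rw [L_self M hξ H.2.1 (cc_comm_xi M hξ H.2) (hp v) hξ, br_self]
      have : br (H : A) 0 = 0 := by
        rw [br_swap, br_zero_left, neg_zero]
      rw [this, map_zero]
    obtain ⟨v', hv'⟩ := hsurj _ (hmem H H.2 _ (hp v)) h1
    show wp0 (g0 (br (H : A) (br ξ (wp0 v)))) = _
    rw [← hv', hg0']
  let g : E →ₗ[ℝ] E →ₗ[ℝ] ℝ := M.B.compl₁₂ wp0 wp0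
  have hg : ∀ v w, g v w = M.B (wp0 v) (wp0 w) := fun _ _ => rfl
  have hwne : ∀ v, v ≠ 0 → wp0 v ≠ 0 := by
    intro v hv h
    exact hv (hinj (by rw [h, map_zero]))
  obtain ⟨n, b, hb⟩ := joint g (fun x y => M.symm _ (hp x) _ (hp y))
    (fun x hx => M.pos _ (hp x) (hwne x hx)) T
    (fun H x y => by
      rw [hg, hg, hTv, hTv]
      exact L_self M hξ H.2.1 (cc_comm_xi M hξ H.2) (hp x) (hp y))
    (fun H H' x => by
      apply hinj
      rw [hTv, hTv, hTv, hTv]
      have c1 : ∀ a b z : A, br a b = 0 → br a (br b z) = br b (br a z) := by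
        intro a b z h
        rw [jacobi, h, br_zero_left, zero_add]
      have hc := cc_comm M hξ H.2 H'.2
      have hx1 : br ξ (H : A) = 0 := by rw [br_swap, cc_comm_xi M hξ H.2, neg_zero]
      have hx2 : br ξ (H' : A) = 0 := by rw [br_swap, cc_comm_xi M hξ H'.2, neg_zero]
      rw [c1 ξ (H' : A) _ hx2, c1 (H : A) (H' : A) _ hc, c1 ξ (H : A) _ hx1])
  refine ⟨Fin n, inferInstance, inferInstance, b, fun r =>
    (M.B (wp0 (b r)) (wp0 (b r)))⁻¹ •
      ((M.B.flip (wp0 (b r))) ∘ₗ rgt (br ξ (wp0 (b r))) ∘ₗ (M.cc ξ).subtype), ?_⟩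
  intro r H
  obtain ⟨c, hc⟩ := hb r H
  have h2 : br (H : A) (br ξ (wp0 (b r))) = c • wp0 (b r) := by
    rw [← hTv, hc, map_smul]
  have hne : M.B (wp0 (b r)) (wp0 (b r)) ≠ 0 :=
    (M.pos _ (hp _) (hwne _ (b.ne_zero r))).ne'
  have h3 : ((M.B (wp0 (b r)) (wp0 (b r)))⁻¹ •
      ((M.B.flip (wp0 (b r))) ∘ₗ rgt (br ξ (wp0 (b r))) ∘ₗ (M.cc ξ).subtype)) H = c := by
    show (M.B (wp0 (b r)) (wp0 (b r)))⁻¹ • M.B (br (H : A) (br ξ (wp0 (b r)))) (wp0 (b r)) = c
    rw [h2, map_smul, LinearMap.smul_apply, smul_eq_mul, smul_eq_mul]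
    field_simp
  rw [h3, h2]

end Pool.Agent.SymS
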