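import Pool.Agent.SymS.Alg
import Pool.Agent.CPC.Trig

/-!
# The operator `Θ_H` in the basis of joint eigenvectors (helper50)

Conventions: `e_r = wp0 (bas r) ∈ pp`, `ρ_r = ρ r`, `ξc = ⟨ξ, _⟩ : cc ξ`, `z_r = CPC.om (-ρ_r ξc)`, so
`z_r² = ρ_r ξc` (`om_sq`), `z_r ≠ 0` if `ρ_r ξc ≠ 0`; `W_r(H) = ρ_r H / z_r`.
* `theta_unique`: two representations `k + wp0 (Θ v) = k' + wp0 (Θ' v)` give
  `wp0 (Θ v - Θ' v) ∈ kk ∩ pp = 0`, and `wp0` is injective.
* `shape_exists`: `-br (wk0 v) ξ ∈ pp` is orthogonal to `ξ`: `B(br k ξ, ξ) = -B(ξ, br k ξ)` so it is `0`;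
  use `hsurj`, injectivity for linearity.
* `shape_row`: `wp0 (S v) = br ξ (wk0 v)`.  If `ρ_c ξc = 0` then `br ξ (br ξ e_c) = 0`, so `br ξ e_c = 0`
  (`NoFlat`).  Eigenvectors of the self-adjoint `L_ξ` with different eigenvalues are orthogonal, so
  `B(e_c, e_r) = 0` if `ρ_r ξc = 0 ≠ ρ_c ξc`.  Write `wp0 (S v) = ∑_c s_c e_c`,
  `P = ∑_{ρ_c ξc = 0} s_c e_c`; `B(wp0 (S v), P) = 0` by `kk_orth`, so `B(P, P) = 0`, `P = 0`, all
  `s_c = 0` for these `c` (linear independence: `wp0` injective, `bas` a basis).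
* `theta_exists`.  For `r` with `ρ_r ξc ≠ 0` and `H ∈ cc`:
  `br H e_r = (ρ_r H / ρ_r ξc) br ξ e_r`, because `e_r = br ξ (br ξ e_r) / ρ_r ξc` and
  `br H (br ξ (br ξ e_r)) = br ξ (br H (br ξ e_r)) = ρ_r H br ξ e_r` (`br H ξ = 0`).
  Let `k = wk0 v ∈ kk`, `s_r` = the coordinates of `S v`, so `br ξ k = ∑ s_r e_r` (sum over
  `ρ_r ξc ≠ 0` by `shape_row`), and `k'' = k - ∑_{ρ_r ξc ≠ 0} (s_r / ρ_r ξc) br ξ e_r ∈ gg`; then
  `br ξ k'' = 0`, so `br H k'' = 0` and `exp(-H) k'' exp(H) = k''`.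
  Let `y_r = br ξ e_r ∈ kk`, `a = ρ_r H / ρ_r ξc`, `b = ρ_r H`: `br H e_r = a y_r`, `br H y_r = b e_r`.
  Then `exp(-tH) e_r exp(tH) = cosh(t W) e_r - (sinh(t W) / W) a y_r` and
  `exp(-tH) y_r exp(tH) = cosh(t W) y_r - (sinh(t W) / W) b e_r`, `W = W_r(H)`, `W² = a b`; all
  coefficients are real: if `ρ_r ξc > 0`, `cosh (ρ_r H / √(ρ_r ξc))` and
  `sinh(ρ_r H/√(ρ_r ξc)) * √(ρ_r ξc)` etc., if `ρ_r ξc < 0` cosines and sines of
  `ρ_r H / √(-ρ_r ξc)`.  Proof: both sides, as functions of `t`, solve the same linear ODE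
  `F' = -br H F` (the left side by `hasDerivAt_exp_smul_const`, `hasDerivAt_exp_smul_const'`), or
  check that `exp(tH) (right side) exp(-tH)` is constant.
  Coefficient of `e_r` in `exp(-H)(wk0 v + wp0 v) exp(H)` (with `v_r` the coordinates of `v`):
  `cosh(W) v_r - sinh(W) / W * b * s_r / ρ_r ξc = cosh(W) v_r - (sinh(W) / z_r) s_r`
  (`b / (W ρ_r ξc) = z_r / ρ_r ξc = 1 / z_r`; if `W = 0` both sides are `v_r` since then
  `ρ_r H = 0`).  If `ρ_r ξc = 0`: `br ξ e_r = 0`, so `br H e_r = 0` and the coefficient is `v_r`.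
  The remaining terms (`k''`, `y_r`) are in `kk` (note `k'' ∈ kk`).
-/

set_option linter.unusedSectionVars false
set_option linter.style.haveILetI false

namespace Pool.Agent.SymS

open scoped BigOperators

variable {A : Type*} [NormedRing A] [NormedAlgebra ℝ A] [FiniteDimensional ℝ A]
  {E : Type*} [NormedAddCommGroup E] [NormedSpace ℝ E] [FiniteDimensional ℝ E]

private theorem add_br' (x y z : A) : br (x + y) z = br x z + br y z := by
  unfold br; noncomm_ring

private theorem br_add' (x y z : A) : br x (y + z) = br x y + br x z := by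
  unfold br; noncomm_ring

private theorem br_sub' (x y z : A) : br x (y - z) = br x y - br x z := by
  unfold br; noncomm_ring

private theorem br_swap (x y : A) : br x y = -br y x := by
  unfold br; noncomm_ring

private theorem br_smul' (c : ℝ) (x y : A) : br x (c • y) = c • br x y := by
  unfold br; rw [smul_mul_assoc, mul_smul_comm, smul_sub]

private theorem br_sum' {R : Type*} (s : Finset R) (x : A) (f : R → A) :
    br x (∑ r ∈ s, f r) = ∑ r ∈ s, br x (f r) := by
  unfold br; rw [Finset.mul_sum, Finset.sum_mul, Finset.sum_sub_distrib]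

private theorem br_self (x : A) : br x x = 0 := by
  unfold br; rw [sub_self]

/-- the adjoint action of `exp` through the linear ODE. -/
private theorem ode_conj (H : A) (F : ℝ → A) (hF : ∀ t, HasDerivAt F (-(br H (F t))) t) :
    NormedSpace.exp (-H) * F 0 * NormedSpace.exp H = F 1 := by
  haveI : CompleteSpace A := FiniteDimensional.complete ℝ A
  letI : NormedAlgebra ℚ A := NormedAlgebra.restrictScalars ℚ ℝ A
  have hd : ∀ t : ℝ, HasDerivAt
      (fun t : ℝ => NormedSpace.exp (t • H) * F t * NormedSpace.exp (t • (-H))) 0 t := by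
    intro t
    have h1 := hasDerivAt_exp_smul_const (𝕂 := ℝ) H t
    have h2 := hasDerivAt_exp_smul_const' (𝕂 := ℝ) (-H) t
    have h3 := (h1.mul (hF t)).mul h2
    refine h3.congr_deriv ?_
    simp only [Pi.mul_apply]
    unfold br
    noncomm_ring
  have hc := is_const_of_deriv_eq_zero (fun t => (hd t).differentiableAt) (fun t => (hd t).deriv) 1 0
  simp only [one_smul, zero_smul, NormedSpace.exp_zero, one_mul, mul_one] at hc
  have e1 : NormedSpace.exp (-H) * NormedSpace.exp H = 1 := by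
    rw [← NormedSpace.exp_add_of_commute (Commute.neg_left (Commute.refl H)), neg_add_cancel,
      NormedSpace.exp_zero]
  rw [← hc]
  have : NormedSpace.exp (-H) * (NormedSpace.exp H * F 1 * NormedSpace.exp (-H)) *
      NormedSpace.exp H = (NormedSpace.exp (-H) * NormedSpace.exp H) * F 1 *
      (NormedSpace.exp (-H) * NormedSpace.exp H) := by
    noncomm_ring
  rw [this, e1, one_mul, mul_one]

private theorem conj_fix (H x : A) (h : br H x = 0) :
    NormedSpace.exp (-H) * x * NormedSpace.exp H = x := by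
  refine ode_conj H (fun _ => x) fun t => ?_
  rw [h, neg_zero]
  exact hasDerivAt_const t x

private theorem conj_pair (H e y : A) (β p : ℝ) (hp : p ≠ 0) (h1 : br H e = (β / p) • y)
    (h2 : br H y = β • e) :
    NormedSpace.exp (-H) * e * NormedSpace.exp H =
        CPC.cF (-p) (β / p) • e - CPC.sF (-p) (β / p) • y ∧
      NormedSpace.exp (-H) * y * NormedSpace.exp H =
        CPC.cF (-p) (β / p) • y - (p * CPC.sF (-p) (β / p)) • e := by
  have hC : ∀ t : ℝ, HasDerivAt (fun t : ℝ => CPC.cF (-p) (t * (β / p)))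
      (β * CPC.sF (-p) (t * (β / p))) t := by
    intro t
    have h := (CPC.hasDerivAt_cF (-p) (t * (β / p))).comp t ((hasDerivAt_id t).mul_const (β / p))
    refine h.congr_deriv ?_
    field_simp
  have hS : ∀ t : ℝ, HasDerivAt (fun t : ℝ => CPC.sF (-p) (t * (β / p)))
      ((β / p) * CPC.cF (-p) (t * (β / p))) t := by
    intro t
    have h := (CPC.hasDerivAt_sF (-p) (t * (β / p))).comp t ((hasDerivAt_id t).mul_const (β / p))
    refine h.congr_deriv ?_
    ring
  constructor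
  · have := ode_conj H (fun t => CPC.cF (-p) (t * (β / p)) • e - CPC.sF (-p) (t * (β / p)) • y)
      (fun t => ?_)
    · simpa [CPC.cF_zero, CPC.sF_zero] using this
    · have h := ((hC t).smul_const e).sub ((hS t).smul_const y)
      refine h.congr_deriv ?_
      rw [br_sub', br_smul', br_smul', h1, h2]
      module
  · have := ode_conj H (fun t => CPC.cF (-p) (t * (β / p)) • y -
      (p * CPC.sF (-p) (t * (β / p))) • e) (fun t => ?_)
    · simpa [CPC.cF_zero, CPC.sF_zero] using this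
    · have h := ((hC t).smul_const y).sub (((hS t).const_mul p).smul_const e)
      refine h.congr_deriv ?_
      rw [br_sub', br_smul', br_smul', h1, h2]
      have e2 : p * (β / p * CPC.cF (-p) (t * (β / p))) = β * CPC.cF (-p) (t * (β / p)) := by
        field_simp
      have e3 : (p * CPC.sF (-p) (t * (β / p))) • (β / p) • y =
          (β * CPC.sF (-p) (t * (β / p))) • y := by
        rw [smul_smul]
        congr 1
        field_simp
      rw [e2, e3]
      module

private theorem cosh_sinh_om {p : ℝ} (hp : p ≠ 0) (β : ℝ) :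
    Complex.cosh ((β : ℂ) / CPC.om (-p)) = (CPC.cF (-p) (β / p) : ℝ) ∧
      Complex.sinh ((β : ℂ) / CPC.om (-p)) / CPC.om (-p) = (CPC.sF (-p) (β / p) : ℝ) := by
  have hk : -p ≠ 0 := neg_ne_zero.2 hp
  have hz := CPC.om_ne_zero hk
  have hz2 : CPC.om (-p) ^ 2 = (p : ℂ) := by rw [CPC.om_sq]; push_cast; ring
  have h1 := CPC.u1_rot hk (β / p) 1 0
  have h2 := CPC.u2_rot hk (β / p) 1 0
  rw [CPC.u1, CPC.u1, if_neg hk, if_neg hk] at h1
  rw [CPC.u2, CPC.u2, if_neg hk, if_neg hk] at h2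
  have hp' : (p : ℂ) ≠ 0 := by exact_mod_cast hp
  have e : CPC.om (-p) * ((β / p : ℝ) : ℂ) = (β : ℂ) / CPC.om (-p) := by
    push_cast
    rw [← hz2]
    field_simp
  rw [e] at h1 h2
  push_cast at h1 h2
  simp only [mul_one, mul_zero, sub_zero, add_zero] at h1 h2
  constructor
  · rw [Complex.cosh, ← h1, ← h2]
    ring
  · rw [Complex.sinh, ← h1, ← h2]
    field_simp
    ring

theorem theta_unique (M : Sym A) {ξ : A} (wk0 wp0 : E →ₗ[ℝ] A)
    (hp : ∀ v, wp0 v ∈ M.pp) (hinj : Function.Injective wp0) {H : A} {Θ Θ' : E →ₗ[ℝ] E}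
    (h : M.IsTheta wk0 wp0 H Θ) (h' : M.IsTheta wk0 wp0 H Θ') : Θ = Θ' := by
  ext v
  obtain ⟨k, hk, e1⟩ := h v
  obtain ⟨k', hk', e2⟩ := h' v
  apply hinj
  rw [e1] at e2
  have e3 : wp0 (Θ v) - wp0 (Θ' v) = k' - k := by
    rw [sub_eq_sub_iff_add_eq_add, add_comm (wp0 (Θ v)) k, e2]
  have e4 := M.disj (wp0 (Θ v) - wp0 (Θ' v)) (by rw [e3]; exact M.kk.sub_mem hk' hk)
    (M.pp.sub_mem (hp _) (hp _))
  exact sub_eq_zero.1 e4

theorem shape_exists (M : Sym A) {ξ : A} (hξ : ξ ∈ M.pp) (wk0 wp0 : E →ₗ[ℝ] A)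
    (hk : ∀ v, wk0 v ∈ M.kk) (hinj : Function.Injective wp0)
    (hsurj : ∀ w ∈ M.pp, M.B w ξ = 0 → ∃ v, wp0 v = w) :
    ∃ S : E →ₗ[ℝ] E, IsShape ξ wk0 wp0 S := by
  have hmem : ∀ v, -br (wk0 v) ξ ∈ LinearMap.range wp0 := by
    intro v
    have h1 : br (wk0 v) ξ ∈ M.pp := M.kk_pp _ (hk v) _ hξ
    have h2 : M.B (br (wk0 v) ξ) ξ = 0 := by
      have h3 := M.inv _ (hk v) _ hξ _ hξ
      have h4 := M.symm _ h1 _ hξ
      linarith
    obtain ⟨w, hw⟩ := hsurj (-br (wk0 v) ξ) (M.pp.neg_mem h1) (by rw [map_neg, LinearMap.neg_apply, h2, neg_zero])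
    exact ⟨w, hw⟩
  let T : E →ₗ[ℝ] A :=
    { toFun := fun v => -br (wk0 v) ξ
      map_add' := fun v w => by rw [map_add, add_br', neg_add]
      map_smul' := fun c v => by
        rw [map_smul, br_swap, br_smul', neg_neg, br_swap (wk0 v) ξ, neg_neg, RingHom.id_apply] }
  let f : E ≃ₗ[ℝ] LinearMap.range wp0 := LinearEquiv.ofInjective wp0 hinj
  refine ⟨f.symm.toLinearMap ∘ₗ T.codRestrict _ hmem, fun v => ?_⟩
  have h1 : ((f (f.symm (T.codRestrict _ hmem v)) : LinearMap.range wp0) : A) = -br (wk0 v) ξ := by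
    rw [LinearEquiv.apply_symm_apply]
    rfl
  exact h1

theorem shape_row (M : Sym A) {ξ : A} (hξ : ξ ∈ M.pp) (hNF : M.NoFlat ξ)
    (wk0 wp0 : E →ₗ[ℝ] A) (hk : ∀ v, wk0 v ∈ M.kk) (hp : ∀ v, wp0 v ∈ M.pp)
    (hinj : Function.Injective wp0)
    {R : Type} [Fintype R] [DecidableEq R] (bas : Module.Basis R ℝ E)
    (ρ : R → (M.cc ξ →ₗ[ℝ] ℝ))
    (hρ : ∀ r, ∀ H : M.cc ξ, br (H : A) (br ξ (wp0 (bas r))) = ρ r H • wp0 (bas r))
    (S : E →ₗ[ℝ] E) (hS : IsShape ξ wk0 wp0 S) (r c : R)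
    (hr : ρ r ⟨ξ, xi_mem_cc M hξ⟩ = 0) : LinearMap.toMatrix bas bas S r c = 0 := by
  classical
  rw [LinearMap.toMatrix_apply]
  set v := bas c with hv
  set s := bas.repr (S v) with hs
  set ξc : M.cc ξ := ⟨ξ, xi_mem_cc M hξ⟩ with hξc
  have hppgg : ∀ x ∈ M.pp, x ∈ M.gg := fun x hx => Submodule.mem_sup_right hx
  have he0 : ∀ j, ρ j ξc = 0 → br ξ (wp0 (bas j)) = 0 := by
    intro j hj
    refine hNF _ (hppgg _ (hp _)) ?_
    have := hρ j ξc
    rw [hj, zero_smul] at this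
    exact this
  have hsum : wp0 (S v) = ∑ j, s j • wp0 (bas j) := by
    conv_lhs => rw [← bas.sum_repr (S v)]
    rw [map_sum]
    exact Finset.sum_congr rfl fun j _ => map_smul _ _ _
  set P : E := ∑ j, (if ρ j ξc = 0 then s j else 0) • bas j with hP
  set Q : E := ∑ j, (if ρ j ξc = 0 then 0 else s j) • bas j with hQ
  have hPQ : S v = P + Q := by
    rw [hP, hQ, ← Finset.sum_add_distrib]
    conv_lhs => rw [← bas.sum_repr (S v)]
    refine Finset.sum_congr rfl fun j _ => ?_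
    rw [← add_smul]
    congr 1
    split_ifs <;> simp [hs]
  have hPw : wp0 P = ∑ j, (if ρ j ξc = 0 then s j else 0) • wp0 (bas j) := by
    rw [hP, map_sum]
    exact Finset.sum_congr rfl fun j _ => map_smul _ _ _
  have hQw : wp0 Q = ∑ j, (if ρ j ξc = 0 then 0 else s j) • wp0 (bas j) := by
    rw [hQ, map_sum]
    exact Finset.sum_congr rfl fun j _ => map_smul _ _ _
  have hbP : br ξ (wp0 P) = 0 := by
    rw [hPw, br_sum']
    refine Finset.sum_eq_zero fun j _ => ?_
    rw [br_smul']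
    by_cases h : ρ j ξc = 0
    · rw [he0 j h, smul_zero]
    · rw [if_neg h, zero_smul]
  have h1 : M.B (wp0 (S v)) (wp0 P) = 0 := by
    have h2 : wp0 (S v) = br ξ (wk0 v) := by rw [hS v, ← br_swap]
    rw [h2]
    exact kk_orth M hξ hNF (hk v) (hp _) hbP
  have h2 : M.B (wp0 Q) (wp0 P) = 0 := by
    rw [hPw, map_sum]
    refine Finset.sum_eq_zero fun j _ => ?_
    rw [hQw, map_sum, LinearMap.sum_apply]
    refine Finset.sum_eq_zero fun i _ => ?_
    rw [map_smul, map_smul, LinearMap.smul_apply]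
    by_cases hi : ρ i ξc = 0
    · rw [if_pos hi, zero_smul, smul_zero]
    by_cases hj : ρ j ξc = 0
    · have h3 := L_self M hξ hξ (br_self ξ) (hp (bas i)) (hp (bas j))
      have h4 := hρ i ξc
      have h5 := hρ j ξc
      rw [hj, zero_smul] at h5
      have h4' : br ξ (br ξ (wp0 (bas i))) = ρ i ξc • wp0 (bas i) := h4
      have h5' : br ξ (br ξ (wp0 (bas j))) = 0 := h5
      rw [h4', h5', map_smul, LinearMap.smul_apply, map_zero, smul_eq_mul] at h3
      rcases mul_eq_zero.1 h3 with h6 | h6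
      · exact absurd h6 hi
      · rw [h6, smul_zero, smul_zero]
    · rw [if_neg hj, zero_smul]
  have h3 : M.B (wp0 P) (wp0 P) = 0 := by
    rw [hPQ, map_add, map_add, LinearMap.add_apply, h2, add_zero] at h1
    exact h1
  have h4 : wp0 P = 0 := by
    by_contra hne
    exact absurd h3 (M.pos _ (hp _) hne).ne'
  have h5 : P = 0 := hinj (by rw [h4, map_zero])
  have h6 := Fintype.linearIndependent_iff.1 bas.linearIndependent _ h5 r
  rw [if_pos hr] at h6
  exact h6

theorem theta_exists (M : Sym A) {ξ : A} (hξ : ξ ∈ M.pp) (hNF : M.NoFlat ξ)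
    (wk0 wp0 : E →ₗ[ℝ] A) (hk : ∀ v, wk0 v ∈ M.kk) (hp : ∀ v, wp0 v ∈ M.pp)
    (hinj : Function.Injective wp0)
    {R : Type} [Fintype R] [DecidableEq R] (bas : Module.Basis R ℝ E)
    (ρ : R → (M.cc ξ →ₗ[ℝ] ℝ))
    (hρ : ∀ r, ∀ H : M.cc ξ, br (H : A) (br ξ (wp0 (bas r))) = ρ r H • wp0 (bas r))
    (S : E →ₗ[ℝ] E) (hS : IsShape ξ wk0 wp0 S) (H : M.cc ξ) :
    ∃ Θ : E →ₗ[ℝ] E, M.IsTheta wk0 wp0 H Θ ∧ ∀ r c,
      ((LinearMap.toMatrix bas bas Θ r c : ℝ) : ℂ) =
        if ρ r ⟨ξ, xi_mem_cc M hξ⟩ = 0 then (if r = c then 1 else 0)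
        else
          Complex.cosh ((ρ r H : ℂ) / CPC.om (-(ρ r ⟨ξ, xi_mem_cc M hξ⟩))) *
              (if r = c then 1 else 0) -
            Complex.sinh ((ρ r H : ℂ) / CPC.om (-(ρ r ⟨ξ, xi_mem_cc M hξ⟩))) /
              CPC.om (-(ρ r ⟨ξ, xi_mem_cc M hξ⟩)) * (LinearMap.toMatrix bas bas S r c : ℝ) := by
  classical
  set ξc : M.cc ξ := ⟨ξ, xi_mem_cc M hξ⟩ with hξc
  set Cr : R → ℝ := fun r => CPC.cF (-(ρ r ξc)) (ρ r H / ρ r ξc) with hCr
  set Tr : R → ℝ := fun r => CPC.sF (-(ρ r ξc)) (ρ r H / ρ r ξc) with hTr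
  set N : Matrix R R ℝ := Matrix.of fun r c =>
    Cr r * (if r = c then 1 else 0) - Tr r * LinearMap.toMatrix bas bas S r c with hN
  have hppgg : ∀ x ∈ M.pp, x ∈ M.gg := fun x hx => Submodule.mem_sup_right hx
  have hkkgg : ∀ x ∈ M.kk, x ∈ M.gg := fun x hx => Submodule.mem_sup_left hx
  have hHpp : (H : A) ∈ M.pp := H.2.1
  have hHc : ∀ x ∈ M.gg, br ξ x = 0 → br (H : A) x = 0 := H.2.2
  have hHξ : br (H : A) ξ = 0 := hHc ξ (hppgg _ hξ) (br_self ξ)
  have he0 : ∀ j, ρ j ξc = 0 → br ξ (wp0 (bas j)) = 0 := by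
    intro j hj
    refine hNF _ (hppgg _ (hp _)) ?_
    have := hρ j ξc
    rw [hj, zero_smul] at this
    exact this
  -- the vectors `y r`
  have hy1 : ∀ r, br ξ (br ξ (wp0 (bas r))) = ρ r ξc • wp0 (bas r) := fun r => hρ r ξc
  have hykk : ∀ r, br ξ (wp0 (bas r)) ∈ M.kk := fun r => M.pp_pp _ hξ _ (hp _)
  have hHe : ∀ r, ρ r ξc ≠ 0 → br (H : A) (wp0 (bas r)) =
      (ρ r H / ρ r ξc) • br ξ (wp0 (bas r)) := by
    intro r hr
    have h1 : wp0 (bas r) = (ρ r ξc)⁻¹ • br ξ (br ξ (wp0 (bas r))) := by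
      rw [hy1, smul_smul, inv_mul_cancel₀ hr, one_smul]
    have h2 : br (H : A) (br ξ (br ξ (wp0 (bas r)))) = br ξ (br (H : A) (br ξ (wp0 (bas r)))) := by
      have h3 : ∀ x : A, br (H : A) (br ξ x) = br ξ (br (H : A) x) + br (br (H : A) ξ) x := by
        intro x
        unfold br
        noncomm_ring
      rw [h3, hHξ]
      unfold br
      noncomm_ring
    conv_lhs => rw [h1]
    rw [br_smul', h2, hρ r H, br_smul', smul_smul]
    congr 1
    field_simp
  -- adjoint action on `e r` and `y r`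
  have hconj : ∀ r, NormedSpace.exp (-(H : A)) * wp0 (bas r) * NormedSpace.exp (H : A) =
      Cr r • wp0 (bas r) - Tr r • br ξ (wp0 (bas r)) ∧
      NormedSpace.exp (-(H : A)) * br ξ (wp0 (bas r)) * NormedSpace.exp (H : A) =
        Cr r • br ξ (wp0 (bas r)) - (ρ r ξc * Tr r) • wp0 (bas r) := by
    intro r
    by_cases hr : ρ r ξc = 0
    · have h1 := he0 r hr
      have h2 : br (H : A) (wp0 (bas r)) = 0 := hHc _ (hppgg _ (hp _)) h1
      have h3 : Cr r = 1 := by
        simp [hCr, hr, CPC.cF_zero]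
      have h4 : Tr r = 0 := by
        simp [hTr, hr, CPC.sF_zero]
      rw [h1, h3, h4, conj_fix _ _ h2]
      constructor
      · simp
      · simp
    · exact conj_pair (H : A) _ _ (ρ r H) (ρ r ξc) hr (hHe r hr) (hρ r H)
  refine ⟨Matrix.toLin bas bas N, fun v => ?_, fun r c => ?_⟩
  · set s := bas.repr (S v) with hs
    set w := bas.repr v with hw
    have hSv : wp0 (S v) = ∑ j, s j • wp0 (bas j) := by
      conv_lhs => rw [← bas.sum_repr (S v)]
      rw [map_sum]
      exact Finset.sum_congr rfl fun j _ => map_smul _ _ _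
    have hv : wp0 v = ∑ j, w j • wp0 (bas j) := by
      conv_lhs => rw [← bas.sum_repr v]
      rw [map_sum]
      exact Finset.sum_congr rfl fun j _ => map_smul _ _ _
    have hsr : ∀ r, s r = ∑ c, LinearMap.toMatrix bas bas S r c * w c := by
      intro r
      have h := congrFun (LinearMap.toMatrix_mulVec_repr bas bas S v) r
      rw [hs, ← h]
      rfl
    have hs0 : ∀ r, ρ r ξc = 0 → s r = 0 := by
      intro r hr
      rw [hsr r]
      refine Finset.sum_eq_zero fun c _ => ?_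
      rw [shape_row M hξ hNF wk0 wp0 hk hp hinj bas ρ hρ S hS r c hr, zero_mul]
    set k'' : A := wk0 v - ∑ r, (s r / ρ r ξc) • br ξ (wp0 (bas r)) with hk''
    have hk''kk : k'' ∈ M.kk :=
      M.kk.sub_mem (hk v) (M.kk.sum_mem fun r _ => M.kk.smul_mem _ (hykk r))
    have hbk : br ξ k'' = 0 := by
      have h2 : br ξ (wk0 v) = wp0 (S v) := by rw [hS v, ← br_swap]
      rw [hk'', br_sub', br_sum', h2, hSv, sub_eq_zero]
      refine Finset.sum_congr rfl fun r _ => ?_
      rw [br_smul', hy1, smul_smul]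
      by_cases hr : ρ r ξc = 0
      · rw [hs0 r hr, hr]
        simp
      · rw [div_mul_cancel₀ _ hr]
    have hfix := conj_fix (H : A) k'' (hHc _ (hkkgg _ hk''kk) hbk)
    have hΘ : wp0 (Matrix.toLin bas bas N v) =
        ∑ r, (Cr r * w r - Tr r * s r) • wp0 (bas r) := by
      have h1 : ∀ r, bas.repr (Matrix.toLin bas bas N v) r = Cr r * w r - Tr r * s r := by
        intro r
        rw [Matrix.repr_toLin]
        show ∑ c, N r c * w c = _
        rw [hsr r, Finset.mul_sum]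
        have h2 : Cr r * w r = ∑ c, Cr r * (if r = c then 1 else 0) * w c := by
          rw [Finset.sum_eq_single r]
          · rw [if_pos rfl, mul_one]
          · intro c _ hc
            rw [if_neg (Ne.symm hc), mul_zero, zero_mul]
          · intro h
            exact absurd (Finset.mem_univ _) h
        rw [h2, ← Finset.sum_sub_distrib]
        refine Finset.sum_congr rfl fun c _ => ?_
        rw [hN, Matrix.of_apply]
        ring
      conv_lhs => rw [← bas.sum_repr (Matrix.toLin bas bas N v)]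
      rw [map_sum]
      refine Finset.sum_congr rfl fun r _ => ?_
      rw [map_smul, h1 r]
    refine ⟨k'' + ∑ r, ((s r / ρ r ξc) * Cr r - w r * Tr r) • br ξ (wp0 (bas r)),
      M.kk.add_mem hk''kk (M.kk.sum_mem fun r _ => M.kk.smul_mem _ (hykk r)), ?_⟩
    have hwk : wk0 v = k'' + ∑ r, (s r / ρ r ξc) • br ξ (wp0 (bas r)) := by
      rw [hk'', sub_add_cancel]
    rw [hwk, hv, hΘ]
    rw [mul_add, add_mul, mul_add, add_mul, hfix, Finset.mul_sum, Finset.sum_mul, Finset.mul_sum,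
      Finset.sum_mul, add_assoc, add_assoc]
    congr 1
    rw [← Finset.sum_add_distrib, ← Finset.sum_add_distrib]
    refine Finset.sum_congr rfl fun r _ => ?_
    rw [mul_smul_comm, smul_mul_assoc, (hconj r).2, mul_smul_comm, smul_mul_assoc, (hconj r).1]
    have e1 : (s r / ρ r ξc) * (ρ r ξc * Tr r) = Tr r * s r := by
      by_cases hr : ρ r ξc = 0
      · rw [hs0 r hr]
        simp
      · field_simp
    rw [smul_sub, smul_smul, smul_smul, e1, smul_sub, smul_smul, smul_smul]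
    module
  · rw [LinearMap.toMatrix_toLin, hN, Matrix.of_apply]
    by_cases hr : ρ r ξc = 0
    · rw [if_pos hr]
      have h3 : Cr r = 1 := by
        simp [hCr, hr, CPC.cF_zero]
      have h4 : Tr r = 0 := by
        simp [hTr, hr, CPC.sF_zero]
      rw [h3, h4]
      split_ifs <;> simp
    · rw [if_neg hr, (cosh_sinh_om hr (ρ r H)).1, (cosh_sinh_om hr (ρ r H)).2]
      split_ifs <;> simp [hCr, hTr]

end Pool.Agent.SymS
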