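import Pool.Agent.SymS.Diag
import Pool.Agent.SymS.Theta
import Pool.Agent.CPC.RowExp

/-!
# `det Θ_H` is an exponential sum with frequencies in the root lattice (helper50)

Take `R, bas, ρ` from `exists_basis`, `S` from `shape_exists`, `ξc = ⟨ξ, _⟩`, `z_r = CPC.om (-ρ_r ξc)`,
`W_r H = ρ_r H / z_r` (complex, real-linear in `H`).  By `theta_unique`, `theta_exists` the matrix of
`Θ` (mapped to `ℂ`; `LinearMap.det_toMatrix`, `RingHom.map_det`) has the rows `δ_r` if `ρ_r ξc = 0` and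
`exp(W_r) (δ_r / 2 - S_r / (2 z_r)) + exp(-W_r) (δ_r / 2 + S_r / (2 z_r))` otherwise.  Apply
`CPC.row_exp` with `K = R`, `blk r = none` if `ρ_r ξc = 0`, else `some r`, `u r = exp (W_r H)`,
`v r = exp (-W_r H)`; `d r = 0` or `1`.  The term of `β` is `h β * exp (∑_r (β r - (d r - β r)) W_r H)`.
Take for `J` the index set (coerced `Fintype.piFinset ..`) and `w β = ∑_r (2 β r - d r) W_r`.
Roots: for `ρ_r ξc ≠ 0`, `ε = 1` if `ρ_r ξc > 0` and `ε = -1` if `ρ_r ξc < 0`,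
`om = √|ρ_r ξc|`, `α_r(H) = ε ρ_r H / om`, `x = e_r = wp0 (bas r)`, `y = br ξ e_r / om`:
`br H y = ρ_r H / om e_r = ε α_r(H) x`, and `br H x = (ρ_r H / ρ_r ξc) br ξ e_r = α_r(H) y`
(`br H e_r = (ρ_r H / ρ_r ξc) br ξ e_r` is shown in `Theta`, header, using `e_r = br ξ (br ξ e_r) / ρ_r ξc`
and `br H (br ξ a) = br ξ (br H a)`); so `IsRoot ξ ε α_r`.  And `W_r = α_r` if `ε = 1` (`z_r = om`),
`W_r = ρ_r H / (I om) = -I ρ_r H / om = I α_r(H)` if `ε = -1` (`z_r = I om`).  So `w β` is an integral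
combination of roots of noncompact type plus `I` times one of roots of compact type.
-/

namespace Pool.Agent.SymS

open scoped BigOperators

variable {A : Type*} [NormedRing A] [NormedAlgebra ℝ A] [FiniteDimensional ℝ A]
  {E : Type*} [NormedAddCommGroup E] [NormedSpace ℝ E] [FiniteDimensional ℝ E]

/-- the commutator with an element commuting with `ξ` commutes with `br ξ`. -/
theorem br_br_comm {A : Type*} [NormedRing A] {H ξ : A} (h : br H ξ = 0) (a : A) : br H (br ξ a) = br ξ (br H a) := by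
  have e : br H (br ξ a) - br ξ (br H a) = br (br H ξ) a := by
    unfold br
    noncomm_ring
  rw [h] at e
  have e2 : br (0 : A) a = 0 := by simp [br]
  rw [e2, sub_eq_zero] at e
  exact e

theorem br_smul_right {A : Type*} [NormedRing A] [NormedAlgebra ℝ A] (c : ℝ) (x y : A) : br x (c • y) = c • br x y := by
  unfold br
  rw [mul_smul_comm, smul_mul_assoc, smul_sub]

/-- the action of `cc ξ` on a joint eigenvector. -/
theorem br_eigen (M : Sym A) {ξ : A} (hξ : ξ ∈ M.pp) {e : A} {ρ : M.cc ξ →ₗ[ℝ] ℝ}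
    (hρ : ∀ H : M.cc ξ, br (H : A) (br ξ e) = ρ H • e)
    (h0 : ρ ⟨ξ, xi_mem_cc M hξ⟩ ≠ 0) (H : M.cc ξ) :
    br (H : A) e = (ρ H / ρ ⟨ξ, xi_mem_cc M hξ⟩) • br ξ e := by
  have h1 : br ξ (br ξ e) = ρ ⟨ξ, xi_mem_cc M hξ⟩ • e := hρ ⟨ξ, xi_mem_cc M hξ⟩
  have h2 : e = (ρ ⟨ξ, xi_mem_cc M hξ⟩)⁻¹ • br ξ (br ξ e) := by
    rw [h1, smul_smul, inv_mul_cancel₀ h0, one_smul]
  conv_lhs => rw [h2]
  rw [br_smul_right, br_br_comm (cc_comm_xi M hξ H.2), hρ, br_smul_right, smul_smul,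
    div_eq_inv_mul]

/-- a joint eigenvector with nonzero eigenvalue gives a restricted root. -/
theorem isRoot_of_eigen (M : Sym A) {ξ : A} (hξ : ξ ∈ M.pp) {e : A} (he : e ∈ M.pp) (he0 : e ≠ 0)
    {ρ : M.cc ξ →ₗ[ℝ] ℝ} (hρ : ∀ H : M.cc ξ, br (H : A) (br ξ e) = ρ H • e) {ε om : ℝ}
    (hε : ε ^ 2 = 1) (hom : om ≠ 0) (h : ε * om ^ 2 = ρ ⟨ξ, xi_mem_cc M hξ⟩) :
    M.IsRoot ξ ε ((ε / om) • ρ) := by
  have hε0 : ε ≠ 0 := by
    rintro rfl
    norm_num at hε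
  have h0 : ρ ⟨ξ, xi_mem_cc M hξ⟩ ≠ 0 := by
    rw [← h]
    exact mul_ne_zero hε0 (pow_ne_zero 2 hom)
  refine ⟨e, ?_, om⁻¹ • br ξ e, ?_, he0, fun H => ⟨?_, ?_⟩⟩
  · exact Submodule.mem_sup_right he
  · exact M.gg.smul_mem _ (Submodule.mem_sup_left (M.pp_pp ξ hξ e he))
  · rw [br_eigen M hξ hρ h0, smul_smul]
    congr 1
    rw [← h]
    simp only [LinearMap.smul_apply, smul_eq_mul]
    field_simp
    linear_combination (-ρ H) * hε
  · rw [br_smul_right, hρ, smul_smul]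
    congr 1
    simp only [LinearMap.smul_apply, smul_eq_mul]
    field_simp
    linear_combination (-ρ H) * hε

/-- the noncompact part of the frequency of a joint eigenvector. -/
noncomputable def fr1 {C : Type*} [AddCommGroup C] [Module ℝ C] (q : ℝ) (ρ : C →ₗ[ℝ] ℝ) :
    C →ₗ[ℝ] ℝ :=
  if 0 < q then (1 / Real.sqrt q) • ρ else 0

/-- the compact part of the frequency of a joint eigenvector. -/
noncomputable def fr2 {C : Type*} [AddCommGroup C] [Module ℝ C] (q : ℝ) (ρ : C →ₗ[ℝ] ℝ) :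
    C →ₗ[ℝ] ℝ :=
  if q < 0 then (-1 / Real.sqrt (-q)) • ρ else 0

theorem fr_eq {C : Type*} [AddCommGroup C] [Module ℝ C] (q : ℝ) (ρ : C →ₗ[ℝ] ℝ) (H : C)
    (hq : q ≠ 0) :
    (ρ H : ℂ) / CPC.om (-q) = (fr1 q ρ H : ℂ) + Complex.I * (fr2 q ρ H : ℂ) := by
  rcases lt_or_gt_of_ne hq with h | h
  · have h1 : ¬ 0 < q := not_lt.mpr h.le
    have h2 : ¬ (-q) < 0 := by linarith
    have hs : Real.sqrt (-q) ≠ 0 := (Real.sqrt_pos.mpr (by linarith)).ne'
    have hs' : ((Real.sqrt (-q) : ℝ) : ℂ) ≠ 0 := by exact_mod_cast hs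
    have hI := Complex.I_ne_zero
    rw [fr1, fr2, if_neg h1, if_pos h, CPC.om, if_neg h2]
    simp only [LinearMap.zero_apply, LinearMap.smul_apply, smul_eq_mul, Complex.ofReal_zero,
      zero_add, Complex.ofReal_mul, Complex.ofReal_div, Complex.ofReal_neg, Complex.ofReal_one]
    field_simp
    linear_combination (ρ H : ℂ) * Complex.I_sq
  · have h1 : ¬ q < 0 := not_lt.mpr h.le
    have h2 : (-q) < 0 := by linarith
    have hs : Real.sqrt q ≠ 0 := (Real.sqrt_pos.mpr h).ne'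
    have hs' : ((Real.sqrt q : ℝ) : ℂ) ≠ 0 := by exact_mod_cast hs
    rw [fr1, fr2, if_pos h, if_neg h1, CPC.om, if_pos h2, neg_neg]
    simp only [LinearMap.zero_apply, LinearMap.smul_apply, smul_eq_mul, Complex.ofReal_zero,
      mul_zero, add_zero, Complex.ofReal_mul, Complex.ofReal_div, Complex.ofReal_one]
    field_simp

theorem fr1_mem (M : Sym A) {ξ : A} (hξ : ξ ∈ M.pp) {e : A} (he : e ∈ M.pp) (he0 : e ≠ 0)
    {ρ : M.cc ξ →ₗ[ℝ] ℝ} (hρ : ∀ H : M.cc ξ, br (H : A) (br ξ e) = ρ H • e) :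
    fr1 (ρ ⟨ξ, xi_mem_cc M hξ⟩) ρ ∈ AddSubgroup.closure {α : M.cc ξ →ₗ[ℝ] ℝ | M.IsRoot ξ 1 α} := by
  unfold fr1
  split_ifs with h
  · apply AddSubgroup.subset_closure
    refine isRoot_of_eigen M hξ he he0 hρ (by norm_num) (Real.sqrt_pos.mpr h).ne' ?_
    rw [one_mul, Real.sq_sqrt h.le]
  · exact AddSubgroup.zero_mem _

theorem fr2_mem (M : Sym A) {ξ : A} (hξ : ξ ∈ M.pp) {e : A} (he : e ∈ M.pp) (he0 : e ≠ 0)
    {ρ : M.cc ξ →ₗ[ℝ] ℝ} (hρ : ∀ H : M.cc ξ, br (H : A) (br ξ e) = ρ H • e) :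
    fr2 (ρ ⟨ξ, xi_mem_cc M hξ⟩) ρ ∈
      AddSubgroup.closure {α : M.cc ξ →ₗ[ℝ] ℝ | M.IsRoot ξ (-1) α} := by
  unfold fr2
  split_ifs with h
  · apply AddSubgroup.subset_closure
    have h' : 0 < -(ρ ⟨ξ, xi_mem_cc M hξ⟩) := by linarith
    refine isRoot_of_eigen M hξ he he0 hρ (by norm_num) (Real.sqrt_pos.mpr h').ne' ?_
    rw [Real.sq_sqrt h'.le]
    ring
  · exact AddSubgroup.zero_mem _

theorem expand (M : Sym A) {ξ : A} (hξ : ξ ∈ M.pp) (hNF : M.NoFlat ξ)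
    (wk0 wp0 : E →ₗ[ℝ] A) (hk : ∀ v, wk0 v ∈ M.kk) (hp : ∀ v, wp0 v ∈ M.pp)
    (hinj : Function.Injective wp0) (horth : ∀ v, M.B (wp0 v) ξ = 0)
    (hsurj : ∀ w ∈ M.pp, M.B w ξ = 0 → ∃ v, wp0 v = w) :
    ∃ (J : Type) (_ : Fintype J) (hc : J → ℂ) (w : J → (M.cc ξ →ₗ[ℝ] ℂ)),
      (∀ j, ∃ w1 ∈ AddSubgroup.closure {α : M.cc ξ →ₗ[ℝ] ℝ | M.IsRoot ξ 1 α},
        ∃ w2 ∈ AddSubgroup.closure {α : M.cc ξ →ₗ[ℝ] ℝ | M.IsRoot ξ (-1) α},
          ∀ H, w j H = (w1 H : ℂ) + Complex.I * (w2 H : ℂ)) ∧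
      ∀ (H : M.cc ξ) (Θ : E →ₗ[ℝ] E), M.IsTheta wk0 wp0 H Θ →
        ((LinearMap.det Θ : ℝ) : ℂ) = ∑ j, hc j * Complex.exp (w j H) := by
  classical
  obtain ⟨R, iF, iD, bas, ρ, hρ⟩ := exists_basis M hξ wp0 hp hinj horth hsurj
  obtain ⟨S, hS⟩ := shape_exists M hξ wk0 wp0 hk hinj hsurj
  set q : R → ℝ := fun r => ρ r ⟨ξ, xi_mem_cc M hξ⟩ with hq
  set blk : R → Option R := fun r => if q r = 0 then none else some r with hblk
  set pm : Matrix R R ℂ := Matrix.of fun r c =>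
    if q r = 0 then (if r = c then 1 else 0)
    else (if r = c then 1 else 0) / 2 -
      ((LinearMap.toMatrix bas bas S r c : ℝ) : ℂ) / (2 * CPC.om (-(q r))) with hpm
  set qm : Matrix R R ℂ := Matrix.of fun r c =>
    (if r = c then 1 else 0) / 2 +
      ((LinearMap.toMatrix bas bas S r c : ℝ) : ℂ) / (2 * CPC.om (-(q r))) with hqm
  set dd : R → ℕ := fun κ => (Finset.univ.filter (fun r => blk r = some κ)).card with hdd
  obtain ⟨h, hh⟩ := CPC.row_exp blk pm qm dd (fun κ => rfl)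
  set n : (R → ℕ) → R → ℤ := fun β r => (β r : ℤ) - ((dd r - β r : ℕ) : ℤ) with hn
  set w1 : (R → ℕ) → (M.cc ξ →ₗ[ℝ] ℝ) := fun β => ∑ r, n β r • fr1 (q r) (ρ r) with hw1
  set w2 : (R → ℕ) → (M.cc ξ →ₗ[ℝ] ℝ) := fun β => ∑ r, n β r • fr2 (q r) (ρ r) with hw2
  set w : (R → ℕ) → (M.cc ξ →ₗ[ℝ] ℂ) := fun β =>
    Complex.ofRealCLM.toLinearMap ∘ₗ w1 β + Complex.I • (Complex.ofRealCLM.toLinearMap ∘ₗ w2 β)
    with hw
  have hwH : ∀ β H, w β H = (w1 β H : ℂ) + Complex.I * (w2 β H : ℂ) := by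
    intro β H
    simp [hw]
  have he0 : ∀ r, wp0 (bas r) ≠ 0 := fun r h0 =>
    bas.ne_zero r (hinj (by rw [h0, map_zero]))
  refine ⟨(Fintype.piFinset (fun κ : R => Finset.range (dd κ + 1)) : Finset (R → ℕ)),
    Finset.fintypeCoeSort _, fun β => h β.1, fun β => w β.1, ?_, ?_⟩
  · rintro ⟨β, _⟩
    refine ⟨w1 β, ?_, w2 β, ?_, fun H => hwH β H⟩
    · exact AddSubgroup.sum_mem _ fun r _ =>
        AddSubgroup.zsmul_mem _ (fr1_mem M hξ (hp _) (he0 r) (hρ r)) _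
    · exact AddSubgroup.sum_mem _ fun r _ =>
        AddSubgroup.zsmul_mem _ (fr2_mem M hξ (hp _) (he0 r) (hρ r)) _
  · intro H Θ hΘ
    obtain ⟨Θ', hΘ', hmat⟩ := theta_exists M hξ hNF wk0 wp0 hk hp hinj bas ρ hρ S hS H
    have hΘe : Θ = Θ' := theta_unique M (ξ := ξ) wk0 wp0 hp hinj hΘ hΘ'
    subst hΘe
    -- the frequencies
    set W : R → ℂ := fun r => (fr1 (q r) (ρ r) H : ℂ) + Complex.I * (fr2 (q r) (ρ r) H : ℂ) with hW
    have hdet : ((LinearMap.det Θ : ℝ) : ℂ) =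
        (Matrix.of fun r c => (blk r).elim (pm r c)
          (fun κ => Complex.exp (W κ) * pm r c + Complex.exp (-W κ) * qm r c)).det := by
      rw [← LinearMap.det_toMatrix bas Θ]
      have e1 : (((LinearMap.toMatrix bas bas Θ).det : ℝ) : ℂ) =
          (Complex.ofRealHom.mapMatrix (LinearMap.toMatrix bas bas Θ)).det :=
        RingHom.map_det Complex.ofRealHom _
      rw [e1]
      congr 1
      ext r c
      rw [RingHom.mapMatrix_apply, Matrix.map_apply, Matrix.of_apply]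
      have e2 := hmat r c
      have e3 : Complex.ofRealHom (LinearMap.toMatrix bas bas Θ r c) =
          ((LinearMap.toMatrix bas bas Θ r c : ℝ) : ℂ) := rfl
      rw [e3, e2]
      by_cases h0 : q r = 0
      · have hb : blk r = none := by simp only [hblk]; rw [if_pos h0]
        rw [hb, Option.elim_none, if_pos (show ρ r ⟨ξ, xi_mem_cc M hξ⟩ = 0 from h0)]
        simp only [hpm, Matrix.of_apply]
        rw [if_pos h0]
      · have hb : blk r = some r := by simp only [hblk]; rw [if_neg h0]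
        rw [hb, Option.elim_some, if_neg (show ¬ ρ r ⟨ξ, xi_mem_cc M hξ⟩ = 0 from h0)]
        have e4 : (ρ r H : ℂ) / CPC.om (-(ρ r ⟨ξ, xi_mem_cc M hξ⟩)) = W r := fr_eq _ _ _ h0
        rw [e4]
        have hz : CPC.om (-(ρ r ⟨ξ, xi_mem_cc M hξ⟩)) ≠ 0 :=
          CPC.om_ne_zero (neg_ne_zero.mpr h0)
        simp only [hpm, hqm, Matrix.of_apply]
        rw [if_neg h0, Complex.cosh, Complex.sinh]
        have e5 : CPC.om (-(q r)) = CPC.om (-(ρ r ⟨ξ, xi_mem_cc M hξ⟩)) := rfl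
        rw [e5]
        field_simp
        ring
    rw [hdet, hh (fun κ => Complex.exp (W κ)) (fun κ => Complex.exp (-W κ))]
    rw [← Finset.sum_coe_sort]
    refine Finset.sum_congr rfl ?_
    rintro ⟨β, hβ⟩ _
    show h β * _ = h β * Complex.exp (w β H)
    congr 1
    have e6 : w β H = ∑ r, (n β r : ℂ) * W r := by
      rw [hwH]
      simp only [hw1, hw2, hW, LinearMap.sum_apply, LinearMap.smul_apply, zsmul_eq_mul,
        Complex.ofReal_sum, Complex.ofReal_mul, Complex.ofReal_intCast]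
      rw [Finset.mul_sum, ← Finset.sum_add_distrib]
      refine Finset.sum_congr rfl fun r _ => ?_
      ring
    rw [e6, Complex.exp_sum]
    refine Finset.prod_congr rfl fun r _ => ?_
    rw [← Complex.exp_nat_mul, ← Complex.exp_nat_mul, ← Complex.exp_add]
    congr 1
    simp only [hn]
    push_cast
    ring

end Pool.Agent.SymS
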