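import Pool.Agent.SymS.MC

/-!
# The vector field of a flat direction (helper50)

Let `H ∈ cc ξ`, `B(H, ξ) = 0`.  For `u ∈ U` there is a unique `v(u)` with `wp u (v u) = H` (`codim`,
`inj`).
* `br ξ (wk u (v u)) = 0`: for every `b ∈ E`, by `mc_self`,
  `B(br (wk (v u)) ξ, wp b) = B(br (wk b) ξ, wp (v u)) = B(br (wk b) ξ, H) = -B(br ξ (wk b), H) = 0`
  by `kk_orth` (`br ξ H = 0`, `cc_comm_xi`).  The vector `y = br (wk (v u)) ξ` is in `pp` and
  orthogonal to `ξ` (`B(br k ξ, ξ) = 0` by `inv`, `symm`), so `y = wp b` for some `b` and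
  `B(y, y) = 0`, `y = 0`.
* smoothness of `v` near `u₀`: the map `u ↦ wp u ∈ (E →L A)` is smooth on `U` (`smooth_wp` on a basis
  of `E`); take a left inverse `L₀` of `wp u₀`; near `u₀` the endomorphism `L₀ ∘ wp u` of `E` is
  invertible, and `v u = (L₀ ∘ wp u)⁻¹ (L₀ H)` is smooth (as in `Pool/Agent/CPC/FlowField.lean`,
  which has exactly this argument).  `u ↦ wk u (v u)` is then smooth too.
-/

namespace Pool.Agent.SymS

open scoped ContDiff

variable {A : Type*} [NormedRing A] [NormedAlgebra ℝ A] [FiniteDimensional ℝ A]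
  {E : Type*} [NormedAddCommGroup E] [NormedSpace ℝ E] [FiniteDimensional ℝ E]

omit [NormedAlgebra ℝ A] [FiniteDimensional ℝ A] in
private theorem flA_br_neg (x y : A) : br x y = -br y x := by
  unfold br
  abel

private theorem flA_wk_comm (M : Sym A) {ξ : A} (hξ : ξ ∈ M.pp) (hNF : M.NoFlat ξ) {U : Set E}
    {f : E → A} {wk wp : E → E →ₗ[ℝ] A} (h : M.IsHyp ξ U f wk wp) {u : E} (hu : u ∈ U)
    {H : A} (hH : H ∈ M.cc ξ) {v : E} (hv : wp u v = H) : br ξ (wk u v) = 0 := by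
  have hk := h.hk u hu v
  have hy : br (wk u v) ξ ∈ M.pp := M.kk_pp _ hk _ hξ
  have hyξ : M.B (br (wk u v) ξ) ξ = 0 := by
    have h1 := M.inv _ hk _ hξ _ hξ
    have h2 := M.symm _ hξ _ hy
    linarith
  obtain ⟨b, hb⟩ := h.codim u hu _ hy hyξ
  have hHξ : br ξ H = 0 := by
    rw [flA_br_neg, cc_comm_xi M hξ hH, neg_zero]
  have h3 : M.B (br (wk u v) ξ) (br (wk u v) ξ) = 0 := by
    have h4 := mc_self M hξ h hu v b
    rw [hb, hv] at h4
    rw [h4, flA_br_neg, map_neg, LinearMap.neg_apply,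
      kk_orth M hξ hNF (h.hk u hu b) hH.1 hHξ, neg_zero]
  by_contra hne
  have hne' : br (wk u v) ξ ≠ 0 := by
    intro h5
    apply hne
    rw [flA_br_neg, h5, neg_zero]
  exact absurd h3 (M.pos _ hy hne').ne'

theorem flow_field (M : Sym A) {ξ : A} (hξ : ξ ∈ M.pp) (hNF : M.NoFlat ξ) {U : Set E} {f : E → A}
    {wk wp : E → E →ₗ[ℝ] A} (h : M.IsHyp ξ U f wk wp) {u₀ : E} (hu : u₀ ∈ U)
    {H : A} (hH : H ∈ M.cc ξ) (hHξ : M.B H ξ = 0) :
    ∃ v : E → E, ContDiffAt ℝ ∞ v u₀ ∧ ContDiffAt ℝ ∞ (fun u => wk u (v u)) u₀ ∧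
      ∀ᶠ u in nhds u₀, u ∈ U ∧ wp u (v u) = H ∧ br ξ (wk u (v u)) = 0 := by
  have hcomp : CompleteSpace E := FiniteDimensional.complete ℝ E
  have hnhds : U ∈ nhds u₀ := h.op.mem_nhds hu
  obtain ⟨W, hW⟩ : ∃ W : E → (E →L[ℝ] A), ∀ u v, W u v = wp u v :=
    ⟨fun u => LinearMap.toContinuousLinearMap (wp u), fun _ _ => rfl⟩
  obtain ⟨K, hK⟩ : ∃ K : E → (E →L[ℝ] A), ∀ u v, K u v = wk u v :=
    ⟨fun u => LinearMap.toContinuousLinearMap (wk u), fun _ _ => rfl⟩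
  have hWs : ContDiffAt ℝ ∞ W u₀ := by
    have h1 : ContDiffOn ℝ ∞ W U := by
      rw [contDiffOn_clm_apply]
      intro y
      have := smooth_wp M h y
      simpa only [hW] using this
    exact h1.contDiffAt hnhds
  have hKs : ContDiffAt ℝ ∞ K u₀ := by
    have h1 : ContDiffOn ℝ ∞ K U := by
      rw [contDiffOn_clm_apply]
      intro y
      have := smooth_wk M h y
      simpa only [hK] using this
    exact h1.contDiffAt hnhds
  obtain ⟨L, hL⟩ := LinearMap.exists_leftInverse_of_injective (wp u₀)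
    (LinearMap.ker_eq_bot.2 (h.inj u₀ hu))
  obtain ⟨L₀, hL₀⟩ : ∃ L₀ : A →L[ℝ] E, ∀ w, L₀ w = L w :=
    ⟨LinearMap.toContinuousLinearMap L, fun _ => rfl⟩
  obtain ⟨N, hN⟩ : ∃ N : E → (E →L[ℝ] E), N = fun u => L₀.comp (W u) := ⟨_, rfl⟩
  have hNs : ContDiffAt ℝ ∞ N u₀ := by
    rw [hN]
    exact contDiffAt_const.clm_comp hWs
  have hN0 : N u₀ = ((ContinuousLinearEquiv.refl ℝ E : E ≃L[ℝ] E) : E →L[ℝ] E) := by
    rw [hN]
    ext x
    show L₀ (W u₀ x) = x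
    rw [hL₀, hW]
    exact LinearMap.congr_fun hL x
  obtain ⟨v, hv⟩ : ∃ v : E → E, v = fun u => ContinuousLinearMap.inverse (N u) (L₀ H) := ⟨_, rfl⟩
  have hvs : ContDiffAt ℝ ∞ v u₀ := by
    rw [hv]
    have h1 : ContDiffAt ℝ ∞ (fun u => ContinuousLinearMap.inverse (N u)) u₀ := by
      have h2 : ContDiffAt ℝ ∞ (ContinuousLinearMap.inverse (R := ℝ) (M := E) (M₂ := E)) (N u₀) := by
        rw [hN0]
        exact contDiffAt_map_inverse _
      exact h2.comp u₀ hNs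
    exact h1.clm_apply contDiffAt_const
  refine ⟨v, hvs, ?_, ?_⟩
  · have h1 : ContDiffAt ℝ ∞ (fun u => K u (v u)) u₀ := hKs.clm_apply hvs
    simpa only [hK] using h1
  · have hev : ∀ᶠ u in nhds u₀, N u ∈ Set.range ((↑) : (E ≃L[ℝ] E) → E →L[ℝ] E) := by
      have h1 : Set.range ((↑) : (E ≃L[ℝ] E) → E →L[ℝ] E) ∈ nhds (N u₀) := by
        rw [hN0]
        exact ContinuousLinearEquiv.nhds _
      exact hNs.continuousAt h1
    filter_upwards [hev, hnhds] with u hu1 hu2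
    obtain ⟨v', hv'⟩ := h.codim u hu2 H hH.1 hHξ
    have hvu : v u = v' := by
      obtain ⟨e, he⟩ := hu1
      have h1 : L₀ H = N u v' := by
        rw [hN, ← hv', ← hW]
        rfl
      rw [hv]
      show ContinuousLinearMap.inverse (N u) (L₀ H) = v'
      rw [h1, ← he, ContinuousLinearMap.inverse_equiv]
      simp
    rw [hvu]
    exact ⟨hu2, hv', flA_wk_comm M hξ hNF h hu2 hH hv'⟩

end Pool.Agent.SymS
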