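import Pool.Agent.SymS.FlowA

/-!
# Moving along a flat direction (helper50)

Let `v` be the field of `flow_field`, `κ(u) = wk u (v u) ∈ kk`, `br ξ κ = 0`, valid and smooth on an open
neighbourhood `O ⊆ U` of `u₀`.  Solve `γ' = v(γ)`, `Ψ' = (fderiv ℝ v γ) ∘ Ψ`, `γ(0) = u₀`, `Ψ(0) = 1`
(one autonomous ODE in `E × (E →L[ℝ] E)`, as in `Pool/Agent/CPC/Flow.lean`), `γ(s) ∈ O` for `|s| < ε`.
Put `k(s) = κ(γ(s))`, `g(s) = exp(-sH) (f u₀)⁻¹ f(γ s)`, `gi(s) = (f (γ s))⁻¹ f u₀ exp(sH)`.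
(1) `g * gi = gi * g = 1`, `g(0) = 1`, `g' = -H g + g (H + k)` (since `(f∘γ)' = f (k + H)`).
(2) For every `H' ∈ cc ξ`: `y = H' g - g H'` satisfies `y' = -H y + y (H + k)` (because `H'` commutes
 with `H` and with `k`: `k ∈ gg`, `br ξ k = 0` gives `br H' k = 0`), `y(0) = 0`, so `y = 0` (uniqueness
 for linear ODE: `y = exp(-sH) y₀ ..`, or Gronwall `eq_zero_of_..`).  So `g` commutes with `cc ξ`; in
 particular `g' = g k`, and `gi' = -k gi`.
(3) For `x ∈ A` let `x(s) = gi x g`; `x' = -k x(s) + x(s) k = -br k x(s)`.  If `x ∈ pp` then the linear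
 ODE with `k(s) ∈ kk` preserves the subspace `pp`: let `q : A → A` be linear with `ker q = pp`
 (quotient map); `q ∘ x(s)` satisfies ... more simply: solve the ODE `y' = -br k y` inside the
 subspace `pp` (Picard / or note that `y ↦ -br k(s) y` maps `pp` to itself, so the solution in
 `pp` with the same initial value exists on the same interval for linear equations, and
 uniqueness gives equality); or use Gronwall for the distance to `pp`:
 `N(s) = ‖P x(s)‖` with `P` a projection with kernel `pp`: `(P x)' = -P (br k x) = -P (br k (P x))`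
 since `br k` maps `ker P = pp` to itself, a linear ODE for `P x` with initial value `0`, so
 `P x = 0`.  The same for `kk`.  And `B(gi x g, ξ)' = -B(br k x(s), ξ) = B(x(s), br k ξ) = 0`.
(4) For fixed `b ∈ E` put `θ(s) = f(γ) (om_γ (Ψ b)) f(γ)⁻¹` with `om = wk + wp`, i.e.
 `θ(s) = fderiv f γ (Ψ b) * (f γ)⁻¹`.  Then `θ' = f(γ) (D_{Ψ b} κ) f(γ)⁻¹`:
 `d/ds [fderiv f γ (Ψ b)] = D²f(v, Ψ b) + df(Dv (Ψ b))`, and differentiating
 `df_u (v u) = f(u) (κ(u) + H)` in the direction `Ψ b`: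
 `D²f(Ψ b, v) + df(Dv (Ψ b)) = df(Ψ b) (κ + H) + f D_{Ψ b} κ`; `D²f` symmetric; and
 `((f γ)⁻¹)' = -f⁻¹ (f (κ + H)) f⁻¹ = -(κ + H) f⁻¹`.  So
 `θ' = [df(Ψ b)(κ + H) + f D_{Ψb} κ] f⁻¹ - df(Ψ b) (κ + H) f⁻¹ = f (D_{Ψ b} κ) f⁻¹`.
 `Z(s) = (f u₀)⁻¹ θ(s) f u₀ = exp(sH) g (om_γ (Ψ b)) gi exp(-sH)`, so
 `Z' = exp(sH) g (D_{Ψ b} κ) gi exp(-sH)`.
 `mm = {m ∈ kk : br ξ m = 0}` is a (closed) subspace; `D_{Ψ b} κ ∈ mm` (derivative of a curve in
 `mm`); by (2), (3) (applied to the inverse conjugation `x ↦ g x gi`, same argument, or because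
 `x ↦ gi x g` is a bijection of the finite-dimensional space `kk`) `g m gi ∈ kk` commutes with `ξ`
 (`ξ ∈ cc` commutes with `g`), so `g m gi ∈ mm`, and `exp(sH) m exp(-sH) = m` for `m ∈ mm`
 (`br H m = 0`).  So `Z'(s) ∈ mm` for all `s` and `Z(s) - Z(0) ∈ mm` (a subspace of a
 finite-dimensional space is closed; mean value / a linear map vanishing on `mm`).  `Z(0) = om_{u₀} b`.
Take `Ψ = Ψ(s)`.
-/

namespace Pool.Agent.SymS

open scoped ContDiff

section aux

private theorem zero_of_linear {V : Type*} [NormedAddCommGroup V] [NormedSpace ℝ V]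
    {y y' : ℝ → V} {δ K : ℝ} (hy : ∀ s, |s| < δ → HasDerivAt y (y' s) s)
    (hb : ∀ s, |s| < δ → ‖y' s‖ ≤ K * ‖y s‖) (h0 : y 0 = 0) : ∀ s, |s| < δ → y s = 0 := by
  have main : ∀ (z z' : ℝ → V), (∀ s, |s| < δ → HasDerivAt z (z' s) s) →
      (∀ s, |s| < δ → ‖z' s‖ ≤ K * ‖z s‖) → z 0 = 0 → ∀ s, 0 ≤ s → s < δ → z s = 0 := by
    intro z z' hz hzb hz0 s hs hsd
    refine eq_zero_of_abs_deriv_le_mul_abs_self_of_eq_zero_right (f := z) (f' := z') (K := K)
      (a := 0) (b := s) ?_ ?_ hz0 ?_ s ⟨hs, le_rfl⟩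
    · intro x hx
      exact (hz x (by rw [abs_of_nonneg hx.1]; exact hx.2.trans_lt hsd)).continuousAt.continuousWithinAt
    · intro x hx
      exact (hz x (by rw [abs_of_nonneg hx.1]; exact hx.2.trans hsd)).hasDerivWithinAt
    · intro x hx
      exact hzb x (by rw [abs_of_nonneg hx.1]; exact hx.2.trans hsd)
  intro s hs
  rcases le_total 0 s with h | h
  · exact main y y' hy hb h0 s h (by rwa [abs_of_nonneg h] at hs)
  · have h1 := main (fun t => y (-t)) (fun t => -y' (-t)) ?_ ?_ (by simpa using h0) (-s)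
      (by linarith) (by rwa [abs_of_nonpos h] at hs)
    · simpa using h1
    · intro t ht
      have h2 := (hy (-t) (by rwa [abs_neg])).scomp t (hasDerivAt_neg t)
      simpa [Function.comp_def] using h2
    · intro t ht
      have h2 := hb (-t) (by rwa [abs_neg])
      simpa using h2

variable {A : Type*} [NormedRing A] [NormedAlgebra ℝ A] [FiniteDimensional ℝ A]

private theorem exists_P (W : Submodule ℝ A) :
    ∃ P : A →L[ℝ] A, (∀ x, x - P x ∈ W) ∧ ∀ x, P x = 0 ↔ x ∈ W := by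
  obtain ⟨W', hW⟩ := W.exists_isCompl
  refine ⟨LinearMap.toContinuousLinearMap (W'.projection W hW.symm), ?_, ?_⟩
  · intro x
    have h1 : W'.projection W hW.symm (x - W'.projection W hW.symm x) = 0 := by
      rw [map_sub, Submodule.projection_apply, Submodule.projection_apply, sub_eq_zero]
      congr 1
      exact (Submodule.projectionOnto_apply_left hW.symm _).symm
    have h2 := (Submodule.projection_apply_eq_zero_iff hW.symm).1 h1
    simpa using h2
  · intro x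
    have h2 := (Submodule.projection_apply_eq_zero_iff hW.symm (x := x))
    simpa using h2

private theorem norm_br_le (x y : A) : ‖br x y‖ ≤ 2 * ‖x‖ * ‖y‖ := by
  unfold br
  calc ‖x * y - y * x‖ ≤ ‖x * y‖ + ‖y * x‖ := norm_sub_le _ _
    _ ≤ ‖x‖ * ‖y‖ + ‖y‖ * ‖x‖ := add_le_add (norm_mul_le _ _) (norm_mul_le _ _)
    _ = 2 * ‖x‖ * ‖y‖ := by ring

private theorem mem_of_ode (W : Submodule ℝ A) {x k : ℝ → A} {δ K : ℝ}
    (hx : ∀ s, |s| < δ → HasDerivAt x (-(br (k s) (x s))) s)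
    (hW : ∀ s, |s| < δ → ∀ w ∈ W, br (k s) w ∈ W) (hK : ∀ s, |s| < δ → ‖k s‖ ≤ K)
    (h0 : x 0 ∈ W) : ∀ s, |s| < δ → x s ∈ W := by
  obtain ⟨P, hP, hP0⟩ := exists_P W
  intro s hs
  have h1 := zero_of_linear (y := fun s => P (x s)) (y' := fun s => P (-(br (k s) (x s))))
    (δ := δ) (K := ‖P‖ * (2 * K)) ?_ ?_ ((hP0 _).2 h0) s hs
  · exact (hP0 _).1 h1
  · intro t ht
    exact P.hasFDerivAt.comp_hasDerivAt t (hx t ht)
  · intro t ht
    have h2 : P (br (k t) (x t)) = P (br (k t) (P (x t))) := by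
      rw [← sub_eq_zero, ← map_sub]
      refine (hP0 _).2 ?_
      have h3 : br (k t) (x t) - br (k t) (P (x t)) = br (k t) (x t - P (x t)) := by
        unfold br; noncomm_ring
      rw [h3]
      exact hW t ht _ (hP _)
    rw [map_neg, norm_neg, h2]
    calc ‖P (br (k t) (P (x t)))‖ ≤ ‖P‖ * ‖br (k t) (P (x t))‖ := P.le_opNorm _
      _ ≤ ‖P‖ * (2 * K * ‖P (x t)‖) := by
        refine mul_le_mul_of_nonneg_left ?_ (norm_nonneg _)
        refine (norm_br_le _ _).trans ?_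
        gcongr
        exact hK t ht
      _ = ‖P‖ * (2 * K) * ‖P (x t)‖ := by ring

private theorem const_of_ode {V : Type*} [NormedAddCommGroup V] [NormedSpace ℝ V] {y : ℝ → V}
    {δ : ℝ} (hy : ∀ s, |s| < δ → HasDerivAt y 0 s) : ∀ s, |s| < δ → y s = y 0 := by
  intro s hs
  have h1 := zero_of_linear (y := fun s => y s - y 0) (y' := fun _ => 0) (δ := δ) (K := 0)
    (fun t ht => (hy t ht).sub_const _) (fun t _ => by simp) (by simp) s hs
  exact sub_eq_zero.1 h1

private theorem comm_of_ode {H H' : A} {g k : ℝ → A} {δ K : ℝ}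
    (hg : ∀ s, |s| < δ → HasDerivAt g (-(H * g s) + g s * (H + k s)) s) (h0 : g 0 = 1)
    (hK : ∀ s, |s| < δ → ‖k s‖ ≤ K) (hH : H' * H = H * H')
    (hk : ∀ s, |s| < δ → H' * k s = k s * H') : ∀ s, |s| < δ → H' * g s = g s * H' := by
  intro s hs
  have h1 := zero_of_linear (y := fun s => H' * g s - g s * H')
    (y' := fun s => -(H * (H' * g s - g s * H')) + (H' * g s - g s * H') * (H + k s))
    (δ := δ) (K := ‖H‖ + (‖H‖ + K)) ?_ ?_ (by simp [h0]) s hs
  · exact sub_eq_zero.1 h1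
  · intro t ht
    have h2 := ((hg t ht).const_mul H').sub ((hg t ht).mul_const H')
    refine h2.congr_deriv ?_
    have h3 := hk t ht
    have e1 : H' * (-(H * g t) + g t * (H + k t)) =
        -((H' * H) * g t) + H' * g t * (H + k t) := by noncomm_ring
    have e2 : (-(H * g t) + g t * (H + k t)) * H' =
        -(H * (g t * H')) + g t * (H * H') + g t * (k t * H') := by noncomm_ring
    rw [e1, e2, hH, ← hH, ← h3]
    have e3 : g t * (H' * H) = g t * H' * H := by noncomm_ring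
    rw [e3, hH]
    noncomm_ring
  · intro t ht
    refine (norm_add_le _ _).trans ?_
    rw [norm_neg, add_mul]
    refine add_le_add (norm_mul_le _ _) ?_
    refine (norm_mul_le _ _).trans ?_
    rw [mul_comm]
    refine mul_le_mul_of_nonneg_right ?_ (norm_nonneg _)
    exact (norm_add_le _ _).trans (add_le_add le_rfl (hK t ht))

private theorem key {E G : Type*} [NormedAddCommGroup E] [NormedSpace ℝ E] [NormedAddCommGroup G]
    [NormedSpace ℝ G] {A R : E → G} {v : E → E} {γ : ℝ → E} {Ψ : ℝ → E →L[ℝ] E} {s : ℝ}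
    (hA : ContDiffAt ℝ 2 A (γ s)) (hv : DifferentiableAt ℝ v (γ s))
    (hR : ∀ᶠ u in nhds (γ s), fderiv ℝ A u (v u) = R u)
    (hγ : HasDerivAt γ (v (γ s)) s)
    (hΨ : HasDerivAt Ψ ((fderiv ℝ v (γ s)).comp (Ψ s)) s) (w : E) :
    HasDerivAt (fun s => fderiv ℝ A (γ s) (Ψ s w)) (fderiv ℝ R (γ s) (Ψ s w)) s := by
  have hA1 : DifferentiableAt ℝ (fderiv ℝ A) (γ s) :=
    (hA.fderiv_right (m := 1) (by norm_num)).differentiableAt (by norm_num)
  have hsymm : IsSymmSndFDerivAt ℝ A (γ s) := hA.isSymmSndFDerivAt (by simp)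
  have h1 : HasDerivAt (fun s => fderiv ℝ A (γ s))
      (fderiv ℝ (fderiv ℝ A) (γ s) (v (γ s))) s :=
    hA1.hasFDerivAt.comp_hasDerivAt s hγ
  have h2 : HasDerivAt (fun s => Ψ s w) (fderiv ℝ v (γ s) (Ψ s w)) s := by
    have := hΨ.clm_apply (hasDerivAt_const s w)
    simpa using this
  have h3 := h1.clm_apply h2
  have h4 : fderiv ℝ R (γ s) (Ψ s w) = fderiv ℝ (fderiv ℝ A) (γ s) (Ψ s w) (v (γ s)) +
      fderiv ℝ A (γ s) (fderiv ℝ v (γ s) (Ψ s w)) := by
    have h5 : fderiv ℝ R (γ s) = fderiv ℝ (fun u => fderiv ℝ A u (v u)) (γ s) :=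
      (Filter.EventuallyEq.fderiv_eq hR).symm
    rw [h5]
    have h6 := (hA1.hasFDerivAt.clm_apply hv.hasFDerivAt).fderiv
    rw [h6]
    simp [add_comm]
  rw [h4, hsymm.eq (Ψ s w) (v (γ s))]
  exact h3

private theorem field_contDiffAt {E : Type*} [NormedAddCommGroup E] [NormedSpace ℝ E]
    {v : E → E} {u₀ : E} (hv : ContDiffAt ℝ 2 v u₀) (Ψ₀ : E →L[ℝ] E) :
    ContDiffAt ℝ 1 (fun q : E × (E →L[ℝ] E) => (v q.1, (fderiv ℝ v q.1).comp q.2)) (u₀, Ψ₀) := by
  have h1 : ContDiffAt ℝ 1 (fun q : E × (E →L[ℝ] E) => v q.1) (u₀, Ψ₀) :=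
    ContDiffAt.comp (u₀, Ψ₀) (g := v) (f := Prod.fst) (hv.of_le (by norm_num)) contDiffAt_fst
  have h2 : ContDiffAt ℝ 1 (fun q : E × (E →L[ℝ] E) => fderiv ℝ v q.1) (u₀, Ψ₀) :=
    ContDiffAt.comp (u₀, Ψ₀) (g := fderiv ℝ v) (f := Prod.fst)
      (hv.fderiv_right (m := 1) (by norm_num)) contDiffAt_fst
  exact h1.prodMk (h2.clm_comp contDiffAt_snd)

private theorem expInv [CompleteSpace A] (X : A) :
    NormedSpace.exp X * NormedSpace.exp (-X) = 1 ∧ NormedSpace.exp (-X) * NormedSpace.exp X = 1 := by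
  let _ : NormedAlgebra ℚ A := NormedAlgebra.restrictScalars ℚ ℝ A
  constructor
  · rw [← NormedSpace.exp_add_of_commute (Commute.refl X).neg_right, add_neg_cancel,
      NormedSpace.exp_zero]
  · rw [← NormedSpace.exp_add_of_commute (Commute.refl X).neg_left, neg_add_cancel,
      NormedSpace.exp_zero]

end aux


variable {A : Type*} [NormedRing A] [NormedAlgebra ℝ A] [FiniteDimensional ℝ A]
  {E : Type*} [NormedAddCommGroup E] [NormedSpace ℝ E] [FiniteDimensional ℝ E]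

theorem flow (M : Sym A) {ξ : A} (hξ : ξ ∈ M.pp) (hNF : M.NoFlat ξ) {U : Set E} {f : E → A}
    {wk wp : E → E →ₗ[ℝ] A} (h : M.IsHyp ξ U f wk wp) {u₀ : E} (hu : u₀ ∈ U)
    {H : A} (hH : H ∈ M.cc ξ) (hHξ : M.B H ξ = 0) :
    ∀ᶠ s : ℝ in nhds 0, ∃ u' ∈ U, ∃ g gi : A, ∃ Ψ : E →ₗ[ℝ] E,
      g * gi = 1 ∧ gi * g = 1 ∧ (∀ H' ∈ M.cc ξ, H' * g = g * H') ∧
      (∀ x ∈ M.pp, gi * x * g ∈ M.pp) ∧ (∀ x ∈ M.kk, gi * x * g ∈ M.kk) ∧
      (∀ x ∈ M.pp, M.B (gi * x * g) ξ = M.B x ξ) ∧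
      ∀ b : E, ∃ m ∈ M.kk, br ξ m = 0 ∧
        NormedSpace.exp (s • H) * g * (wk u' (Ψ b) + wp u' (Ψ b)) * gi *
          NormedSpace.exp (-(s • H)) = wk u₀ b + wp u₀ b + m := by
  have : CompleteSpace E := FiniteDimensional.complete ℝ E
  have : CompleteSpace A := FiniteDimensional.complete ℝ A
  obtain ⟨v, hv, hκ, hev⟩ := flow_field M hξ hNF h hu hH hHξ
  obtain ⟨κ, hκdef⟩ : ∃ κ : E → A, κ = fun u => wk u (v u) := ⟨_, rfl⟩
  rw [← hκdef] at hκ
  have hκu : ∀ u, κ u = wk u (v u) := fun u => by rw [hκdef]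
  have hv2 : ContDiffAt ℝ 2 v u₀ := hv.of_le (WithTop.coe_le_coe.2 le_top)
  have hv2' : ∀ᶠ u in nhds u₀, ContDiffAt ℝ 2 v u := hv2.eventually (by simp)
  have hκ2 : ContDiffAt ℝ 2 κ u₀ := hκ.of_le (WithTop.coe_le_coe.2 le_top)
  have hκ2' : ∀ᶠ u in nhds u₀, ContDiffAt ℝ 2 κ u := hκ2.eventually (by simp)
  have hbd : ∀ᶠ u in nhds u₀, ‖κ u‖ < ‖κ u₀‖ + 1 :=
    hκ.continuousAt.norm.eventually (gt_mem_nhds (by linarith))
  have hO := eventually_eventually_nhds.2 (hev.and (hv2'.and (hκ2'.and hbd)))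
  obtain ⟨α, hα0, ε, hε, hα⟩ :=
    (field_contDiffAt hv2
      (ContinuousLinearMap.id ℝ E)).exists_forall_mem_closedBall_exists_eq_forall_mem_Ioo_hasDerivAt₀ 0
  obtain ⟨γ, hγdef⟩ : ∃ γ : ℝ → E, γ = fun s => (α s).1 := ⟨_, rfl⟩
  obtain ⟨Ψ, hΨdef⟩ : ∃ Ψ : ℝ → E →L[ℝ] E, Ψ = fun s => (α s).2 := ⟨_, rfl⟩
  have hγ : ∀ s ∈ Set.Ioo (0 - ε) (0 + ε), HasDerivAt γ (v (γ s)) s := by
    intro s hs
    rw [hγdef]
    exact (ContinuousLinearMap.fst ℝ E (E →L[ℝ] E)).hasFDerivAt.comp_hasDerivAt s (hα s hs)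
  have hΨ : ∀ s ∈ Set.Ioo (0 - ε) (0 + ε), HasDerivAt Ψ ((fderiv ℝ v (γ s)).comp (Ψ s)) s := by
    intro s hs
    rw [hγdef, hΨdef]
    exact (ContinuousLinearMap.snd ℝ E (E →L[ℝ] E)).hasFDerivAt.comp_hasDerivAt s (hα s hs)
  have hγ0 : γ 0 = u₀ := by rw [hγdef]; simp [hα0]
  have hΨ0 : Ψ 0 = ContinuousLinearMap.id ℝ E := by rw [hΨdef]; simp [hα0]
  have h0mem : (0 : ℝ) ∈ Set.Ioo (0 - ε) (0 + ε) := ⟨by linarith, by linarith⟩
  have hcont : Filter.Tendsto γ (nhds 0) (nhds u₀) := by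
    have h1 : Filter.Tendsto γ (nhds 0) (nhds (γ 0)) := (hγ 0 h0mem).continuousAt
    rwa [hγ0] at h1
  have hev2 := (hcont.eventually hO).and (Ioo_mem_nhds h0mem.1 h0mem.2)
  obtain ⟨δ, hδ, hball⟩ := Metric.eventually_nhds_iff_ball.1 hev2
  have hgood : ∀ s : ℝ, |s| < δ → (∀ᶠ u in nhds (γ s), (u ∈ U ∧ wp u (v u) = H ∧
      br ξ (wk u (v u)) = 0) ∧ ContDiffAt ℝ 2 v u ∧ ContDiffAt ℝ 2 κ u ∧
      ‖κ u‖ < ‖κ u₀‖ + 1) ∧ s ∈ Set.Ioo (0 - ε) (0 + ε) := by
    intro s hs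
    exact hball s (by rwa [Metric.mem_ball, Real.dist_eq, sub_zero])
  have hself : ∀ s : ℝ, |s| < δ → (γ s ∈ U ∧ wp (γ s) (v (γ s)) = H ∧
      br ξ (wk (γ s) (v (γ s))) = 0) ∧ ContDiffAt ℝ 2 v (γ s) ∧ ContDiffAt ℝ 2 κ (γ s) ∧
      ‖κ (γ s)‖ < ‖κ u₀‖ + 1 := fun s hs => (hgood s hs).1.self_of_nhds
  have hf2 : ∀ s : ℝ, |s| < δ → ContDiffAt ℝ 2 f (γ s) := fun s hs =>
    (h.sm.contDiffAt (h.op.mem_nhds (hself s hs).1.1)).of_le (WithTop.coe_le_coe.2 le_top)
  have hkk : ∀ s : ℝ, |s| < δ → κ (γ s) ∈ M.kk := by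
    intro s hs
    rw [hκu]
    exact h.hk _ (hself s hs).1.1 _
  have hkξ : ∀ s : ℝ, |s| < δ → br ξ (κ (γ s)) = 0 := by
    intro s hs
    rw [hκu]
    exact (hself s hs).1.2.2
  have hkb : ∀ s : ℝ, |s| < δ → ‖κ (γ s)‖ ≤ ‖κ u₀‖ + 1 := fun s hs => (hself s hs).2.2.2.le
  have hfI : ∀ s : ℝ, |s| < δ → f (γ s) * Ring.inverse (f (γ s)) = 1 ∧
      Ring.inverse (f (γ s)) * f (γ s) = 1 := fun s hs =>
    ⟨Ring.mul_inverse_cancel _ (h.un _ (hself s hs).1.1),
      Ring.inverse_mul_cancel _ (h.un _ (hself s hs).1.1)⟩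
  have hδ0 : |(0 : ℝ)| < δ := by simpa using hδ
  -- derivative of `f ∘ γ` and of its inverse
  have hF : ∀ s : ℝ, |s| < δ → HasDerivAt (fun s => f (γ s)) (f (γ s) * (κ (γ s) + H)) s := by
    intro s hs
    have h1 : HasDerivAt (fun s => f (γ s)) (fderiv ℝ f (γ s) (v (γ s))) s :=
      ((hf2 s hs).differentiableAt (by norm_num)).hasFDerivAt.comp_hasDerivAt s
        (hγ s (hgood s hs).2)
    rw [h.df _ (hself s hs).1.1, (hself s hs).1.2.1, ← hκu] at h1
    exact h1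
  have hFi : ∀ s : ℝ, |s| < δ → HasDerivAt (fun s => Ring.inverse (f (γ s)))
      (-((κ (γ s) + H) * Ring.inverse (f (γ s)))) s := by
    intro s hs
    obtain ⟨w, hw⟩ := h.un (γ s) (hself s hs).1.1
    have h1 := hasFDerivAt_ringInverse (𝕜 := ℝ) w
    rw [hw] at h1
    have h2 := h1.comp_hasDerivAt s (hF s hs)
    refine h2.congr_deriv ?_
    have h3 : Ring.inverse (f (γ s)) = (↑w⁻¹ : A) := by rw [← hw, Ring.inverse_unit]
    rw [h3, ← hw]
    simp only [neg_apply, ContinuousLinearMap.mulLeftRight_apply]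
    rw [← mul_assoc, Units.inv_mul, one_mul]
  -- the exponentials
  have he1 : ∀ s : ℝ, HasDerivAt (fun s : ℝ => NormedSpace.exp (s • H))
      (NormedSpace.exp (s • H) * H) s := fun s => hasDerivAt_exp_smul_const H s
  have he2 : ∀ s : ℝ, HasDerivAt (fun s : ℝ => NormedSpace.exp (-(s • H)))
      (-(H * NormedSpace.exp (-(s • H)))) s := by
    intro s
    have h1 := hasDerivAt_exp_smul_const' (𝕂 := ℝ) (-H) s
    simpa only [smul_neg, neg_mul] using h1
  obtain ⟨F0, hF0⟩ : ∃ F0 : A, F0 = f u₀ := ⟨_, rfl⟩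
  obtain ⟨F0i, hF0i⟩ : ∃ F0i : A, F0i = Ring.inverse (f u₀) := ⟨_, rfl⟩
  have hF00 : F0 * F0i = 1 ∧ F0i * F0 = 1 := by
    have h1 := hfI 0 hδ0
    rw [hγ0] at h1
    rw [hF0, hF0i]
    exact h1
  obtain ⟨g, hg⟩ : ∃ g : ℝ → A, g = fun s => NormedSpace.exp (-(s • H)) * F0i * f (γ s) :=
    ⟨_, rfl⟩
  obtain ⟨gi, hgi⟩ : ∃ gi : ℝ → A, gi = fun s =>
    Ring.inverse (f (γ s)) * F0 * NormedSpace.exp (s • H) := ⟨_, rfl⟩
  have hg0 : g 0 = 1 := by
    rw [hg]
    simp only [zero_smul, neg_zero, NormedSpace.exp_zero, one_mul, hγ0, ← hF0]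
    exact hF00.2
  have hgi0 : gi 0 = 1 := by
    rw [hgi]
    simp only [zero_smul, NormedSpace.exp_zero, mul_one, hγ0, ← hF0i]
    exact hF00.2
  have hggi : ∀ s : ℝ, |s| < δ → g s * gi s = 1 := by
    intro s hs
    rw [hg, hgi]
    calc NormedSpace.exp (-(s • H)) * F0i * f (γ s) *
          (Ring.inverse (f (γ s)) * F0 * NormedSpace.exp (s • H))
        = NormedSpace.exp (-(s • H)) * F0i * (f (γ s) * Ring.inverse (f (γ s))) * F0 *
          NormedSpace.exp (s • H) := by noncomm_ring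
      _ = NormedSpace.exp (-(s • H)) * (F0i * F0) * NormedSpace.exp (s • H) := by
        rw [(hfI s hs).1]; noncomm_ring
      _ = 1 := by rw [hF00.2, mul_one, (expInv (s • H)).2]
  have hgig : ∀ s : ℝ, |s| < δ → gi s * g s = 1 := by
    intro s hs
    rw [hg, hgi]
    calc Ring.inverse (f (γ s)) * F0 * NormedSpace.exp (s • H) *
          (NormedSpace.exp (-(s • H)) * F0i * f (γ s))
        = Ring.inverse (f (γ s)) * F0 * (NormedSpace.exp (s • H) * NormedSpace.exp (-(s • H))) *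
          F0i * f (γ s) := by noncomm_ring
      _ = Ring.inverse (f (γ s)) * (F0 * F0i) * f (γ s) := by
        rw [(expInv (s • H)).1]; noncomm_ring
      _ = 1 := by rw [hF00.1, mul_one, (hfI s hs).2]
  have hgd : ∀ s : ℝ, |s| < δ → HasDerivAt g (-(H * g s) + g s * (H + κ (γ s))) s := by
    intro s hs
    have h1 := ((he2 s).mul_const F0i).mul (hF s hs)
    rw [hg]
    refine h1.congr_deriv ?_
    noncomm_ring
  have hgid : ∀ s : ℝ, |s| < δ → HasDerivAt gi (-(κ (γ s) * gi s) - H * gi s + gi s * H) s := by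
    intro s hs
    have h1 := ((hFi s hs).mul_const F0).mul (he1 s)
    rw [hgi]
    refine h1.congr_deriv ?_
    noncomm_ring
  have hcm : ∀ H' ∈ M.cc ξ, H' * H = H * H' := by
    intro H' hH'
    have h1 := cc_comm M hξ hH' hH
    exact sub_eq_zero.1 h1
  have hck : ∀ H' ∈ M.cc ξ, ∀ s : ℝ, |s| < δ → H' * κ (γ s) = κ (γ s) * H' := by
    intro H' hH' s hs
    have h1 := hH'.2 (κ (γ s)) (Submodule.mem_sup_left (hkk s hs)) (hkξ s hs)
    exact sub_eq_zero.1 h1
  have hcg : ∀ H' ∈ M.cc ξ, ∀ s : ℝ, |s| < δ → H' * g s = g s * H' := by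
    intro H' hH'
    exact comm_of_ode (k := fun s => κ (γ s)) hgd hg0 hkb (hcm H' hH') (hck H' hH')
  have hcgi : ∀ H' ∈ M.cc ξ, ∀ s : ℝ, |s| < δ → H' * gi s = gi s * H' := by
    intro H' hH' s hs
    calc H' * gi s = gi s * g s * (H' * gi s) := by rw [hgig s hs, one_mul]
      _ = gi s * (g s * H') * gi s := by noncomm_ring
      _ = gi s * (H' * g s) * gi s := by rw [hcg H' hH' s hs]
      _ = gi s * H' * (g s * gi s) := by noncomm_ring
      _ = gi s * H' := by rw [hggi s hs, mul_one]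
  have hgd' : ∀ s : ℝ, |s| < δ → HasDerivAt g (g s * κ (γ s)) s := by
    intro s hs
    refine (hgd s hs).congr_deriv ?_
    rw [hcg H hH s hs]
    noncomm_ring
  have hgid' : ∀ s : ℝ, |s| < δ → HasDerivAt gi (-(κ (γ s) * gi s)) s := by
    intro s hs
    refine (hgid s hs).congr_deriv ?_
    rw [hcgi H hH s hs]
    noncomm_ring
  have hxd : ∀ x : A, ∀ s : ℝ, |s| < δ → HasDerivAt (fun s => gi s * x * g s)
      (-(br (κ (γ s)) (gi s * x * g s))) s := by
    intro x s hs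
    refine (((hgid' s hs).mul_const x).mul (hgd' s hs)).congr_deriv ?_
    unfold br
    noncomm_ring
  have hkpp : ∀ x ∈ M.pp, ∀ s : ℝ, |s| < δ → gi s * x * g s ∈ M.pp := by
    intro x hx
    refine mem_of_ode M.pp (k := fun s => κ (γ s)) (hxd x) ?_ hkb ?_
    · intro s hs w hw
      exact M.kk_pp _ (hkk s hs) w hw
    · simp only [hg0, hgi0, one_mul, mul_one]
      exact hx
  have hkkk : ∀ x ∈ M.kk, ∀ s : ℝ, |s| < δ → gi s * x * g s ∈ M.kk := by
    intro x hx
    refine mem_of_ode M.kk (k := fun s => κ (γ s)) (hxd x) ?_ hkb ?_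
    · intro s hs w hw
      exact M.kk_kk _ (hkk s hs) w hw
    · simp only [hg0, hgi0, one_mul, mul_one]
      exact hx
  have hB : ∀ x ∈ M.pp, ∀ s : ℝ, |s| < δ → M.B (gi s * x * g s) ξ = M.B x ξ := by
    intro x hx s hs
    let P : A →L[ℝ] ℝ := LinearMap.toContinuousLinearMap (M.B.flip ξ)
    have h1 := const_of_ode (y := fun s => P (gi s * x * g s)) (δ := δ) ?_ s hs
    · have h2 : P (gi s * x * g s) = P x := by
        simpa only [hg0, hgi0, one_mul, mul_one] using h1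
      exact h2
    · intro t ht
      refine (P.hasFDerivAt.comp_hasDerivAt t (hxd x t ht)).congr_deriv ?_
      have h3 : M.B (br (κ (γ t)) (gi t * x * g t)) ξ = 0 := by
        rw [M.inv _ (hkk t ht) _ (hkpp x hx t ht) _ hξ]
        have h4 : br (κ (γ t)) ξ = 0 := by
          have h5 := hkξ t ht
          have h6 : br (κ (γ t)) ξ = -br ξ (κ (γ t)) := by unfold br; noncomm_ring
          rw [h6, h5, neg_zero]
        rw [h4, map_zero, neg_zero]
      have h7 : P (-(br (κ (γ t)) (gi t * x * g t))) =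
          -(M.B (br (κ (γ t)) (gi t * x * g t)) ξ) := by
        rw [map_neg]
        rfl
      rw [h7, h3, neg_zero]
  -- the subspace `mm`
  let mm : Submodule ℝ A := M.kk ⊓ LinearMap.ker (LinearMap.mulLeft ℝ ξ - LinearMap.mulRight ℝ ξ)
  have hmm : ∀ m, m ∈ mm ↔ m ∈ M.kk ∧ br ξ m = 0 := by
    intro m
    simp only [mm, Submodule.mem_inf, LinearMap.mem_ker, LinearMap.sub_apply,
      LinearMap.mulLeft_apply, LinearMap.mulRight_apply, br]
  have hconj : ∀ s : ℝ, |s| < δ → ∀ m ∈ mm, NormedSpace.exp (s • H) * g s * m * gi s *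
      NormedSpace.exp (-(s • H)) ∈ mm := by
    intro s hs m hm
    obtain ⟨hm1, hm2⟩ := (hmm m).1 hm
    -- surjectivity of the conjugation on `kk`
    have h1 : g s * m * gi s ∈ M.kk := by
      let T : M.kk →ₗ[ℝ] M.kk :=
        { toFun := fun x => ⟨gi s * x * g s, hkkk x x.2 s hs⟩
          map_add' := fun x y => by
            apply Subtype.ext
            simp only [Submodule.coe_add]
            noncomm_ring
          map_smul' := fun c x => by
            apply Subtype.ext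
            simp }
      have hT : Function.Injective T := by
        intro x y hxy
        have h2 : gi s * (x : A) * g s = gi s * (y : A) * g s := congrArg Subtype.val hxy
        apply Subtype.ext
        calc (x : A) = g s * gi s * (x : A) * (g s * gi s) := by
              rw [hggi s hs, one_mul, mul_one]
          _ = g s * (gi s * (x : A) * g s) * gi s := by noncomm_ring
          _ = g s * (gi s * (y : A) * g s) * gi s := by rw [h2]
          _ = g s * gi s * (y : A) * (g s * gi s) := by noncomm_ring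
          _ = y := by rw [hggi s hs, one_mul, mul_one]
      obtain ⟨x, hx⟩ := LinearMap.surjective_of_injective hT ⟨m, hm1⟩
      have h2 : gi s * (x : A) * g s = m := congrArg Subtype.val hx
      have h3 : g s * m * gi s = x := by
        rw [← h2]
        calc g s * (gi s * (x : A) * g s) * gi s = (g s * gi s) * x * (g s * gi s) := by
              noncomm_ring
          _ = x := by rw [hggi s hs, one_mul, mul_one]
      rw [h3]
      exact x.2
    have hξc := xi_mem_cc M hξ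
    have h2 : br ξ (g s * m * gi s) = 0 := by
      have e1 := hcg ξ hξc s hs
      have e2 := hcgi ξ hξc s hs
      have e3 : ξ * m = m * ξ := sub_eq_zero.1 hm2
      unfold br
      rw [sub_eq_zero]
      calc ξ * (g s * m * gi s) = (ξ * g s) * m * gi s := by noncomm_ring
        _ = g s * (ξ * m) * gi s := by rw [e1]; noncomm_ring
        _ = g s * m * (ξ * gi s) := by rw [e3]; noncomm_ring
        _ = g s * m * gi s * ξ := by rw [e2]; noncomm_ring
    have h3 : br H (g s * m * gi s) = 0 := hH.2 _ (Submodule.mem_sup_left h1) h2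
    have h3' : Commute (g s * m * gi s) H := (sub_eq_zero.1 h3).symm
    have h4 : Commute (g s * m * gi s) (s • H) := h3'.smul_right s
    have h5 : Commute (g s * m * gi s) (NormedSpace.exp (s • H)) := by
      let _ : NormedAlgebra ℚ A := NormedAlgebra.restrictScalars ℚ ℝ A
      exact h4.exp_right
    have h6 : NormedSpace.exp (s • H) * g s * m * gi s * NormedSpace.exp (-(s • H)) =
        g s * m * gi s := by
      calc NormedSpace.exp (s • H) * g s * m * gi s * NormedSpace.exp (-(s • H))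
          = NormedSpace.exp (s • H) * (g s * m * gi s) * NormedSpace.exp (-(s • H)) := by
            noncomm_ring
        _ = (g s * m * gi s) * NormedSpace.exp (s • H) * NormedSpace.exp (-(s • H)) := by
            rw [h5.eq]
        _ = (g s * m * gi s) * (NormedSpace.exp (s • H) * NormedSpace.exp (-(s • H))) := by
            rw [mul_assoc]
        _ = g s * m * gi s := by rw [(expInv (s • H)).1, mul_one]
    rw [h6]
    exact (hmm _).2 ⟨h1, h2⟩
  obtain ⟨P, hP, hP0⟩ := exists_P mm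
  have hDκ : ∀ s : ℝ, |s| < δ → ∀ c : E, fderiv ℝ κ (γ s) c ∈ mm := by
    intro s hs c
    have hd : DifferentiableAt ℝ κ (γ s) := (hself s hs).2.2.1.differentiableAt (by norm_num)
    have h1 : (fun u => P (κ u)) =ᶠ[nhds (γ s)] fun _ => 0 := by
      filter_upwards [(hgood s hs).1] with u hu
      refine (hP0 _).2 ((hmm _).2 ⟨?_, ?_⟩)
      · rw [hκu]; exact h.hk _ hu.1.1 _
      · rw [hκu]; exact hu.1.2.2
    have h2 : HasFDerivAt (fun u => P (κ u)) (P.comp (fderiv ℝ κ (γ s))) (γ s) :=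
      P.hasFDerivAt.comp (γ s) hd.hasFDerivAt
    have h3 := h2.fderiv
    rw [h1.fderiv_eq] at h3
    have h4 : P (fderiv ℝ κ (γ s) c) = 0 := by
      have h5 := congrArg (fun L : E →L[ℝ] A => L c) h3
      simpa using h5.symm
    exact (hP0 _).1 h4
  -- `Z(s)`
  have hZd : ∀ b : E, ∀ s : ℝ, |s| < δ → HasDerivAt (fun s => F0i *
      (fderiv ℝ f (γ s) (Ψ s b) * Ring.inverse (f (γ s))) * F0)
      (F0i * (f (γ s) * fderiv ℝ κ (γ s) (Ψ s b) * Ring.inverse (f (γ s))) * F0) s := by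
    intro b s hs
    have hfd : DifferentiableAt ℝ f (γ s) := (hf2 s hs).differentiableAt (by norm_num)
    have hκd : DifferentiableAt ℝ κ (γ s) := (hself s hs).2.2.1.differentiableAt (by norm_num)
    have h1 := key (A := f) (R := fun u => f u * (κ u + H)) (v := v) (γ := γ) (Ψ := Ψ) (s := s)
      (hf2 s hs) ((hself s hs).2.1.differentiableAt (by norm_num))
      (by
        filter_upwards [(hgood s hs).1] with u hu
        rw [h.df _ hu.1.1, hu.1.2.1, hκu]) (hγ s (hgood s hs).2) (hΨ s (hgood s hs).2) b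
    have h2 : fderiv ℝ (fun u => f u * (κ u + H)) (γ s) (Ψ s b) =
        fderiv ℝ f (γ s) (Ψ s b) * (κ (γ s) + H) + f (γ s) * fderiv ℝ κ (γ s) (Ψ s b) := by
      have h4 : HasFDerivAt (fun u => f u * (κ u + H)) _ (γ s) :=
        hfd.hasFDerivAt.mul' (hκd.hasFDerivAt.add_const H)
      rw [h4.fderiv]
      simp [add_comm]
    rw [h2] at h1
    refine (((h1.mul (hFi s hs)).const_mul F0i).mul_const F0).congr_deriv ?_
    noncomm_ring
  have hZ : ∀ b : E, ∀ s : ℝ, |s| < δ → F0i *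
      (fderiv ℝ f (γ s) (Ψ s b) * Ring.inverse (f (γ s))) * F0 =
      NormedSpace.exp (s • H) * g s * (wk (γ s) (Ψ s b) + wp (γ s) (Ψ s b)) * gi s *
        NormedSpace.exp (-(s • H)) := by
    intro b s hs
    have h1 : NormedSpace.exp (s • H) * g s = F0i * f (γ s) := by
      rw [hg]
      calc NormedSpace.exp (s • H) * (NormedSpace.exp (-(s • H)) * F0i * f (γ s))
          = (NormedSpace.exp (s • H) * NormedSpace.exp (-(s • H))) * F0i * f (γ s) := by
            noncomm_ring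
        _ = F0i * f (γ s) := by rw [(expInv (s • H)).1, one_mul]
    have h2 : gi s * NormedSpace.exp (-(s • H)) = Ring.inverse (f (γ s)) * F0 := by
      rw [hgi]
      calc Ring.inverse (f (γ s)) * F0 * NormedSpace.exp (s • H) * NormedSpace.exp (-(s • H))
          = Ring.inverse (f (γ s)) * F0 *
            (NormedSpace.exp (s • H) * NormedSpace.exp (-(s • H))) := by noncomm_ring
        _ = Ring.inverse (f (γ s)) * F0 := by rw [(expInv (s • H)).1, mul_one]
    rw [h.df _ (hself s hs).1.1]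
    calc F0i * (f (γ s) * (wk (γ s) (Ψ s b) + wp (γ s) (Ψ s b)) * Ring.inverse (f (γ s))) * F0
        = (F0i * f (γ s)) * (wk (γ s) (Ψ s b) + wp (γ s) (Ψ s b)) *
          (Ring.inverse (f (γ s)) * F0) := by noncomm_ring
      _ = _ := by rw [← h1, ← h2]; noncomm_ring
  have hZm : ∀ b : E, ∀ s : ℝ, |s| < δ → F0i *
      (fderiv ℝ f (γ s) (Ψ s b) * Ring.inverse (f (γ s))) * F0 - (wk u₀ b + wp u₀ b) ∈ mm := by
    intro b s hs
    have h1 := const_of_ode (y := fun s => P (F0i *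
      (fderiv ℝ f (γ s) (Ψ s b) * Ring.inverse (f (γ s))) * F0)) (δ := δ) ?_ s hs
    · refine (hP0 _).1 ?_
      rw [map_sub, sub_eq_zero]
      refine h1.trans ?_
      congr 1
      show F0i * (fderiv ℝ f (γ 0) (Ψ 0 b) * Ring.inverse (f (γ 0))) * F0 = _
      rw [hγ0, hΨ0, h.df _ hu, ← hF0, ContinuousLinearMap.id_apply]
      have h2 : Ring.inverse F0 = F0i := by rw [hF0, hF0i]
      rw [h2]
      calc F0i * (F0 * (wk u₀ b + wp u₀ b) * F0i) * F0
          = (F0i * F0) * (wk u₀ b + wp u₀ b) * (F0i * F0) := by noncomm_ring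
        _ = wk u₀ b + wp u₀ b := by rw [hF00.2, one_mul, mul_one]
    · intro t ht
      refine (P.hasFDerivAt.comp_hasDerivAt t (hZd b t ht)).congr_deriv ?_
      refine (hP0 _).2 ?_
      have h3 := hconj t ht _ (hDκ t ht (Ψ t b))
      have h4 : NormedSpace.exp (t • H) * g t * fderiv ℝ κ (γ t) (Ψ t b) * gi t *
          NormedSpace.exp (-(t • H)) =
          F0i * (f (γ t) * fderiv ℝ κ (γ t) (Ψ t b) * Ring.inverse (f (γ t))) * F0 := by
        rw [hg, hgi]
        calc NormedSpace.exp (t • H) * (NormedSpace.exp (-(t • H)) * F0i * f (γ t)) *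
              fderiv ℝ κ (γ t) (Ψ t b) *
              (Ring.inverse (f (γ t)) * F0 * NormedSpace.exp (t • H)) *
              NormedSpace.exp (-(t • H))
            = (NormedSpace.exp (t • H) * NormedSpace.exp (-(t • H))) * F0i * f (γ t) *
              fderiv ℝ κ (γ t) (Ψ t b) * Ring.inverse (f (γ t)) * F0 *
              (NormedSpace.exp (t • H) * NormedSpace.exp (-(t • H))) := by noncomm_ring
          _ = _ := by rw [(expInv (t • H)).1]; noncomm_ring
      rw [← h4]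
      exact h3
  filter_upwards [Metric.ball_mem_nhds (0 : ℝ) hδ] with s hs
  rw [Metric.mem_ball, Real.dist_eq, sub_zero] at hs
  refine ⟨γ s, (hself s hs).1.1, g s, gi s, (Ψ s : E →ₗ[ℝ] E), hggi s hs, hgig s hs,
    fun H' hH' => hcg H' hH' s hs, fun x hx => hkpp x hx s hs, fun x hx => hkkk x hx s hs,
    fun x hx => hB x hx s hs, ?_⟩
  intro b
  have h1 := (hmm _).1 (hZm b s hs)
  refine ⟨_, h1.1, h1.2, ?_⟩
  have h2 := hZ b s hs
  rw [add_sub_cancel, h2]
  rfl

end Pool.Agent.SymS
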