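import Pool.Agent.SymS.FlowB

/-!
# Cocycle property of `det Θ_H` (helper50)

Take `s` for which `flow` gives `u', g, gi, Ψ`.  Write `om' = wk u' + wp u'`, `om = wk u₀ + wp u₀`,
`X = sH + H'` (in `cc ξ`; `H, H'` commute, `cc_comm`, so `exp X = exp(sH) exp(H')`,
`NormedSpace.exp_add_of_commute`; `exp(-Y) exp(Y) = 1`).  By `flow`,
`om'(Ψ b) = gi exp(-sH) (om b + m) exp(sH) g`.  Since `H'` commutes with `g` and `gi` (from `H' g = g H'`
and `g gi = gi g = 1`), `exp(±H')` commute with `g`, `gi`, and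
`exp(-H') om'(Ψ b) exp(H') = gi exp(-X) (om b + m) exp(X) g`.  `m` commutes with `X` (`m ∈ kk ⊆ gg`,
`br ξ m = 0`, so `br H m = br H' m = 0` by the definition of `cc`), so `exp(-X) m exp(X) = m`, and by
`IsTheta` for `Θ1`: `exp(-X) om b exp(X) = k1 + wp u₀ (Θ1 b)`.  Hence
`exp(-H') om'(Ψ b) exp(H') = gi (k1 + m) g + gi wp₀(Θ1 b) g`, the first summand in `kk`, the second in
`pp`; by `IsTheta` for `Θ3` and `kk ∩ pp = 0`: `wp'(Θ3 (Ψ b)) = gi wp₀(Θ1 b) g`.  The same with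
`H' = 0` (`exp 0 = 1`): `wp'(Ψ b) = gi wp₀(Θ2 b) g` (`IsTheta` for `Θ2` at `sH`).
Let `J : E → E` be the linear map with `wp'(J b) = gi wp₀(b) g` (in `pp`, orthogonal to `ξ` by `flow`
and `orth`, so of this form by `codim`; linear because `wp'` is injective).  `J` is injective
(`gi y g = 0` implies `y = 0`), so `det J ≠ 0`.  `Θ3 ∘ Ψ = J ∘ Θ1`, `Ψ = J ∘ Θ2` (injectivity of
`wp'`), so `det Θ3 * det J * det Θ2 = det J * det Θ1`.
-/

namespace Pool.Agent.SymS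

variable {A : Type*} [NormedRing A] [NormedAlgebra ℝ A] [FiniteDimensional ℝ A]
  {E : Type*} [NormedAddCommGroup E] [NormedSpace ℝ E] [FiniteDimensional ℝ E]

private theorem flC_exp_add {B : Type*} [NormedRing B] [NormedAlgebra ℝ B] [CompleteSpace B]
    {x y : B} (h : Commute x y) :
    NormedSpace.exp (x + y) = NormedSpace.exp x * NormedSpace.exp y := by
  let : NormedAlgebra ℚ B := NormedAlgebra.restrictScalars ℚ ℝ B
  exact NormedSpace.exp_add_of_commute h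

private theorem flC_exp_neg {B : Type*} [NormedRing B] [NormedAlgebra ℝ B] [CompleteSpace B]
    (x : B) : NormedSpace.exp (-x) * NormedSpace.exp x = 1 := by
  rw [← flC_exp_add (Commute.refl x).neg_left, neg_add_cancel, NormedSpace.exp_zero]

private theorem flC_exp_neg' {B : Type*} [NormedRing B] [NormedAlgebra ℝ B] [CompleteSpace B]
    (x : B) : NormedSpace.exp x * NormedSpace.exp (-x) = 1 := by
  rw [← flC_exp_add (Commute.refl x).neg_right, add_neg_cancel, NormedSpace.exp_zero]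

private theorem flC_comm_of_br {B : Type*} [Ring B] {x y : B} (h : br x y = 0) : Commute x y := by
  unfold br at h
  exact sub_eq_zero.mp h

omit [FiniteDimensional ℝ E] in
private theorem flC_key (M : Sym A) {ξ : A} (hξ : ξ ∈ M.pp)
    {wk0 wp0 wk1 wp1 : E →ₗ[ℝ] A} (hp0 : ∀ v, wp0 v ∈ M.pp) (hp1 : ∀ v, wp1 v ∈ M.pp)
    {Y g gi : A} (hY : Y ∈ M.cc ξ) {Ψ : E →ₗ[ℝ] E} (h1 : g * gi = 1) (h2 : gi * g = 1)
    (hc : ∀ H' ∈ M.cc ξ, H' * g = g * H')
    (hgp : ∀ x ∈ M.pp, gi * x * g ∈ M.pp) (hgk : ∀ x ∈ M.kk, gi * x * g ∈ M.kk)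
    (hflow : ∀ b : E, ∃ m ∈ M.kk, br ξ m = 0 ∧
        NormedSpace.exp Y * g * (wk1 (Ψ b) + wp1 (Ψ b)) * gi * NormedSpace.exp (-Y) =
          wk0 b + wp0 b + m)
    {H' : A} (hH' : H' ∈ M.cc ξ) {Θ1 Θ3 : E →ₗ[ℝ] E}
    (hΘ1 : M.IsTheta wk0 wp0 (Y + H') Θ1) (hΘ3 : M.IsTheta wk1 wp1 H' Θ3) (b : E) :
    wp1 (Θ3 (Ψ b)) = gi * wp0 (Θ1 b) * g := by
  have hcomp : CompleteSpace A := FiniteDimensional.complete ℝ A
  obtain ⟨m, hm, hm0, hfl⟩ := hflow b
  obtain ⟨k1, hk1, e1⟩ := hΘ1 b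
  obtain ⟨k3, hk3, e3⟩ := hΘ3 (Ψ b)
  have hXcc : Y + H' ∈ M.cc ξ := (M.cc ξ).add_mem hY hH'
  have hYH : Commute Y H' := flC_comm_of_br (cc_comm M hξ hY hH')
  have hmX : Commute (Y + H') m :=
    flC_comm_of_br (hXcc.2 m (Submodule.mem_sup_left hm) hm0)
  have hHg : Commute H' g := hc H' hH'
  have hHgi : Commute H' gi := by
    show H' * gi = gi * H'
    calc H' * gi = (gi * g) * (H' * gi) := by rw [h2, one_mul]
      _ = gi * (g * H') * gi := by noncomm_ring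
      _ = gi * (H' * g) * gi := by rw [hc H' hH']
      _ = gi * H' * (g * gi) := by noncomm_ring
      _ = gi * H' := by rw [h1, mul_one]
  have cg : NormedSpace.exp H' * g = g * NormedSpace.exp H' := (hHg.exp_left).eq
  have cgi : NormedSpace.exp (-H') * gi = gi * NormedSpace.exp (-H') := (hHgi.neg_left.exp_left).eq
  have eX : NormedSpace.exp (Y + H') = NormedSpace.exp Y * NormedSpace.exp H' := flC_exp_add hYH
  have eX' : NormedSpace.exp (-(Y + H')) = NormedSpace.exp (-H') * NormedSpace.exp (-Y) := by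
    rw [neg_add_rev]
    exact flC_exp_add hYH.symm.neg_left.neg_right
  have eYY := flC_exp_neg Y
  have eXX := flC_exp_neg (Y + H')
  have em : NormedSpace.exp (-(Y + H')) * m * NormedSpace.exp (Y + H') = m := by
    have h4 : NormedSpace.exp (-(Y + H')) * m = m * NormedSpace.exp (-(Y + H')) :=
      (hmX.neg_left.exp_left).eq
    rw [h4, mul_assoc, eXX, mul_one]
  -- the form at the new point
  have e4 : wk1 (Ψ b) + wp1 (Ψ b) =
      gi * NormedSpace.exp (-Y) * (wk0 b + wp0 b + m) * NormedSpace.exp Y * g := by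
    rw [← hfl]
    calc wk1 (Ψ b) + wp1 (Ψ b)
        = (gi * 1 * g) * (wk1 (Ψ b) + wp1 (Ψ b)) * (gi * 1 * g) := by
          rw [mul_one, h2, one_mul, mul_one]
      _ = (gi * (NormedSpace.exp (-Y) * NormedSpace.exp Y) * g) * (wk1 (Ψ b) + wp1 (Ψ b)) *
          (gi * (NormedSpace.exp (-Y) * NormedSpace.exp Y) * g) := by rw [eYY]
      _ = gi * NormedSpace.exp (-Y) * (NormedSpace.exp Y * g * (wk1 (Ψ b) + wp1 (Ψ b)) * gi *
          NormedSpace.exp (-Y)) * NormedSpace.exp Y * g := by simp only [mul_assoc]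
  have e5 : NormedSpace.exp (-H') * (wk1 (Ψ b) + wp1 (Ψ b)) * NormedSpace.exp H' =
      gi * (k1 + m) * g + gi * wp0 (Θ1 b) * g := by
    rw [e4]
    calc NormedSpace.exp (-H') *
          (gi * NormedSpace.exp (-Y) * (wk0 b + wp0 b + m) * NormedSpace.exp Y * g) *
          NormedSpace.exp H'
        = (NormedSpace.exp (-H') * gi) * NormedSpace.exp (-Y) * (wk0 b + wp0 b + m) *
          NormedSpace.exp Y * (g * NormedSpace.exp H') := by simp only [mul_assoc]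
      _ = (gi * NormedSpace.exp (-H')) * NormedSpace.exp (-Y) * (wk0 b + wp0 b + m) *
          NormedSpace.exp Y * (NormedSpace.exp H' * g) := by rw [cg, cgi]
      _ = gi * ((NormedSpace.exp (-H') * NormedSpace.exp (-Y)) * (wk0 b + wp0 b + m) *
          (NormedSpace.exp Y * NormedSpace.exp H')) * g := by simp only [mul_assoc]
      _ = gi * (NormedSpace.exp (-(Y + H')) * (wk0 b + wp0 b + m) *
          NormedSpace.exp (Y + H')) * g := by rw [eX, eX']
      _ = gi * (NormedSpace.exp (-(Y + H')) * (wk0 b + wp0 b) * NormedSpace.exp (Y + H') +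
          NormedSpace.exp (-(Y + H')) * m * NormedSpace.exp (Y + H')) * g := by
          rw [mul_add (NormedSpace.exp (-(Y + H'))), add_mul]
      _ = gi * (k1 + wp0 (Θ1 b) + m) * g := by rw [e1, em]
      _ = gi * (k1 + m) * g + gi * wp0 (Θ1 b) * g := by noncomm_ring
  rw [e5] at e3
  have hd : gi * wp0 (Θ1 b) * g - wp1 (Θ3 (Ψ b)) = k3 - gi * (k1 + m) * g := by
    rw [sub_eq_sub_iff_add_eq_add, add_comm _ (gi * (k1 + m) * g), e3]
  have hdp : gi * wp0 (Θ1 b) * g - wp1 (Θ3 (Ψ b)) ∈ M.pp :=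
    M.pp.sub_mem (hgp _ (hp0 _)) (hp1 _)
  have hdk : gi * wp0 (Θ1 b) * g - wp1 (Θ3 (Ψ b)) ∈ M.kk := by
    rw [hd]
    exact M.kk.sub_mem hk3 (hgk _ (M.kk.add_mem hk1 hm))
  exact (sub_eq_zero.mp (M.disj _ hdk hdp)).symm

theorem cocycle (M : Sym A) {ξ : A} (hξ : ξ ∈ M.pp) (hNF : M.NoFlat ξ) {U : Set E} {f : E → A}
    {wk wp : E → E →ₗ[ℝ] A} (h : M.IsHyp ξ U f wk wp) {u₀ : E} (hu : u₀ ∈ U)
    {H : A} (hH : H ∈ M.cc ξ) (hHξ : M.B H ξ = 0) :
    ∀ᶠ s : ℝ in nhds 0, ∃ u' ∈ U, ∀ H' ∈ M.cc ξ, ∀ Θ1 Θ2 Θ3 : E →ₗ[ℝ] E,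
      M.IsTheta (wk u₀) (wp u₀) (s • H + H') Θ1 → M.IsTheta (wk u₀) (wp u₀) (s • H) Θ2 →
      M.IsTheta (wk u') (wp u') H' Θ3 →
      LinearMap.det Θ1 = LinearMap.det Θ2 * LinearMap.det Θ3 := by
  filter_upwards [flow M hξ hNF h hu hH hHξ] with s hs
  obtain ⟨u', hu', g, gi, Ψ, h1, h2, hc, hgp, hgk, hgB, hflow⟩ := hs
  refine ⟨u', hu', fun H' hH' Θ1 Θ2 Θ3 hΘ1 hΘ2 hΘ3 => ?_⟩
  have hY : s • H ∈ M.cc ξ := (M.cc ξ).smul_mem s hH
  have k1 : ∀ b, wp u' (Θ3 (Ψ b)) = gi * wp u₀ (Θ1 b) * g := fun b =>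
    flC_key M hξ (h.hp u₀ hu) (h.hp u' hu') hY h1 h2 hc hgp hgk hflow hH' hΘ1 hΘ3 b
  have k2 : ∀ b, wp u' (Ψ b) = gi * wp u₀ (Θ2 b) * g := by
    intro b
    have hid : M.IsTheta (wk u') (wp u') 0 LinearMap.id := by
      intro v
      refine ⟨wk u' v, h.hk u' hu' v, ?_⟩
      rw [neg_zero, NormedSpace.exp_zero, one_mul, mul_one]
      rfl
    have hΘ2' : M.IsTheta (wk u₀) (wp u₀) (s • H + 0) Θ2 := by
      rw [add_zero]
      exact hΘ2
    have := flC_key M hξ (h.hp u₀ hu) (h.hp u' hu') hY h1 h2 hc hgp hgk hflow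
      (M.cc ξ).zero_mem hΘ2' hid b
    exact this
  -- the map `J`
  set F : E →ₗ[ℝ] A := (LinearMap.mulLeft ℝ gi ∘ₗ LinearMap.mulRight ℝ g) ∘ₗ wp u₀ with hF
  have hFb : ∀ b, F b = gi * wp u₀ b * g := by
    intro b
    simp [hF, mul_assoc]
  have hran : ∀ b, F b ∈ LinearMap.range (wp u') := by
    intro b
    rw [hFb]
    have hpb := h.hp u₀ hu b
    obtain ⟨v, hv⟩ := h.codim u' hu' (gi * wp u₀ b * g) (hgp _ hpb)
      (by rw [hgB _ hpb]; exact h.orth u₀ hu b)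
    exact ⟨v, hv⟩
  set e : E ≃ₗ[ℝ] LinearMap.range (wp u') := LinearEquiv.ofInjective (wp u') (h.inj u' hu') with he
  set J : E →ₗ[ℝ] E := e.symm.toLinearMap ∘ₗ F.codRestrict _ hran with hJ
  have hJb : ∀ b, wp u' (J b) = gi * wp u₀ b * g := by
    intro b
    have h3 : e (J b) = F.codRestrict _ hran b := by
      simp [hJ]
    have h4 : ((e (J b) : LinearMap.range (wp u')) : A) = wp u' (J b) := rfl
    rw [← h4, h3, ← hFb]
    rfl
  have hinj := h.inj u' hu'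
  have hA : Θ3 ∘ₗ Ψ = J ∘ₗ Θ1 := by
    ext b
    apply hinj
    rw [LinearMap.comp_apply, LinearMap.comp_apply, k1, hJb]
  have hB : Ψ = J ∘ₗ Θ2 := by
    ext b
    apply hinj
    rw [LinearMap.comp_apply, k2, hJb]
  have hJinj : LinearMap.ker J = ⊥ := by
    rw [LinearMap.ker_eq_bot']
    intro b hb
    have h3 := hJb b
    rw [hb, map_zero] at h3
    have h4 : wp u₀ b = g * (gi * wp u₀ b * g) * gi := by
      calc wp u₀ b = (g * gi) * wp u₀ b * (g * gi) := by rw [h1, one_mul, mul_one]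
        _ = g * (gi * wp u₀ b * g) * gi := by simp only [mul_assoc]
    rw [← h3, mul_zero, zero_mul] at h4
    exact h.inj u₀ hu (by rw [h4, map_zero])
  have hdet : LinearMap.det J ≠ 0 := by
    have h5 : IsUnit J := (LinearMap.isUnit_iff_ker_eq_bot J).mpr hJinj
    exact (LinearMap.isUnit_det J h5).ne_zero
  have hdA := congrArg LinearMap.det hA
  rw [LinearMap.det_comp, LinearMap.det_comp] at hdA
  have hdB := congrArg LinearMap.det hB
  rw [LinearMap.det_comp] at hdB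
  rw [hdB] at hdA
  have h6 : LinearMap.det J * (LinearMap.det Θ1 - LinearMap.det Θ2 * LinearMap.det Θ3) = 0 := by
    linear_combination -hdA
  rcases mul_eq_zero.mp h6 with h7 | h7
  · exact absurd h7 hdet
  · exact sub_eq_zero.mp h7

end Pool.Agent.SymS
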