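import Pool.Agent.CPC.ExpInd

/-!
# Independence argument for generic `ξ` (helper50)

Let `V0 = {H : ℓ H = 0}` (a real vector space).  For each pair `i, j` with `w i ≠ w j` the real-linear
map `w i - w j` is not zero on `V0` (`hdist`), so by `CPC.exists_generic` (applied to `V0`) there is
`H ∈ V0` with `w i H ≠ w j H` whenever `w i ≠ w j`.  `hid H` and `CPC.exp_ind` (constant polynomials,
`T` = the set of values `w j H`) give for every `j₀`:
`∑_{j : w j = w j₀} hc j * (w j₀ ξ + h0) = 0` (the indices with `w j H = w j₀ H` are those with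
`w j = w j₀`).  So `σ * (w j₀ ξ + h0) = 0` with `σ = σ(j₀) = ∑_{j : w j = w j₀} hc j`.  If
`σ(j₀) ≠ 0` then `w j₀ ξ = -h0`; by `hdist` two different functionals have different values at `ξ`, so
there is at most one functional `w*` with `σ ≠ 0`, and there is one because `∑ hc j = 1`; its `σ` is
`1`.  Grouping the sum by the functionals: `∑ hc j exp (t w j ξ) = exp (t w* ξ) = exp (-t h0)`.
-/

namespace Pool.Agent.SymS

open scoped BigOperators

theorem gen_exp {V : Type*} [AddCommGroup V] [Module ℝ V] (ℓ : V →ₗ[ℝ] ℝ) (ξ : V)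
    {J : Type*} [Fintype J] (hc : J → ℂ) (w : J → (V →ₗ[ℝ] ℂ)) (h0 : ℝ) (hsum : ∑ j, hc j = 1)
    (hdist : ∀ i j, w i ≠ w j → w i ξ ≠ w j ξ ∧ ∃ H, ℓ H = 0 ∧ w i H ≠ w j H)
    (hid : ∀ H, ℓ H = 0 → ∀ᶠ s : ℝ in nhds 0,
      ∑ j, hc j * (w j ξ + h0) * Complex.exp (s * w j H) = 0) (t : ℝ) :
    ∑ j, hc j * Complex.exp (t * w j ξ) = Complex.exp (-(t * h0)) := by
  classical
  -- a generic vector of the hyperplane
  obtain ⟨v, hv⟩ := CPC.exists_generic (V := LinearMap.ker ℓ)
    ((Finset.univ : Finset (J × J)).filter fun p => w p.1 ≠ w p.2)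
    (fun p => (w p.1 - w p.2).comp (LinearMap.ker ℓ).subtype) (by
      intro p hp h
      obtain ⟨H, hH, hne⟩ := (hdist p.1 p.2 (Finset.mem_filter.1 hp).2).2
      have := LinearMap.congr_fun h ⟨H, LinearMap.mem_ker.2 hH⟩
      simp at this
      exact hne (sub_eq_zero.1 this))
  set H : V := (v : V) with hHd
  have hH : ℓ H = 0 := LinearMap.mem_ker.1 v.2
  have hgen : ∀ i j, w i H = w j H → w i = w j := by
    intro i j hij
    by_contra hne
    have := hv (i, j) (Finset.mem_filter.2 ⟨Finset.mem_univ _, hne⟩)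
    apply this
    simp
    exact sub_eq_zero.2 hij
  -- the independence
  have hind : ∀ j₀, (∑ j with w j = w j₀, hc j) * (w j₀ ξ + h0) = 0 := by
    intro j₀
    have hT := CPC.exp_ind (Finset.univ.image fun j => w j H)
      (fun μ => Polynomial.C (∑ j with w j H = μ, hc j * (w j ξ + h0))) (by
        filter_upwards [hid H hH] with s hs
        rw [← hs, ← Finset.sum_fiberwise_of_maps_to (s := Finset.univ)
          (t := Finset.univ.image fun j => w j H) (g := fun j => w j H)
          (fun j _ => Finset.mem_image_of_mem _ (Finset.mem_univ j))]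
        refine Finset.sum_congr rfl fun μ _ => ?_
        rw [Polynomial.eval_C, Finset.mul_sum]
        refine Finset.sum_congr rfl fun j hj => ?_
        rw [(Finset.mem_filter.1 hj).2, mul_comm μ (s : ℂ)]
        ring) (w j₀ H) (Finset.mem_image_of_mem _ (Finset.mem_univ j₀))
    have h1 := (Polynomial.C_eq_zero).1 hT
    rw [← h1, Finset.sum_mul]
    have h2 : (Finset.univ.filter fun j => w j = w j₀) =
        Finset.univ.filter fun j => w j H = w j₀ H := by
      ext j
      simp only [Finset.mem_filter, Finset.mem_univ, true_and]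
      exact ⟨fun h => by rw [h], fun h => hgen j j₀ h⟩
    rw [h2]
    refine Finset.sum_congr rfl fun j hj => ?_
    rw [hgen j j₀ (Finset.mem_filter.1 hj).2]
  -- the sum of the coefficients of one functional
  set W : Finset (V →ₗ[ℝ] ℂ) := Finset.univ.image w with hW
  have hmap : ∀ j ∈ (Finset.univ : Finset J), w j ∈ W := fun j _ =>
    Finset.mem_image_of_mem _ (Finset.mem_univ j)
  have h1 : ∑ u ∈ W, (∑ j with w j = u, hc j) = 1 := by
    rw [Finset.sum_fiberwise_of_maps_to hmap, hsum]
  have hval : ∀ u ∈ W, (∑ j with w j = u, hc j) ≠ 0 → u ξ = -(h0 : ℂ) := by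
    intro u hu hne
    obtain ⟨j₀, _, rfl⟩ := Finset.mem_image.1 hu
    have := (mul_eq_zero.1 (hind j₀)).resolve_left hne
    exact eq_neg_of_add_eq_zero_left this
  obtain ⟨u₀, hu₀, hne⟩ : ∃ u ∈ W, (∑ j with w j = u, hc j) ≠ 0 := by
    by_contra hcon
    push Not at hcon
    rw [Finset.sum_eq_zero hcon] at h1
    exact zero_ne_one h1
  have hzero : ∀ u ∈ W, u ≠ u₀ → (∑ j with w j = u, hc j) = 0 := by
    intro u hu hne'
    by_contra hcon
    obtain ⟨i, _, rfl⟩ := Finset.mem_image.1 hu
    obtain ⟨j, _, rfl⟩ := Finset.mem_image.1 hu₀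
    exact (hdist i j hne').1 ((hval _ hu hcon).trans (hval _ hu₀ hne).symm)
  have hone : (∑ j with w j = u₀, hc j) = 1 := by
    rw [← h1]
    exact (Finset.sum_eq_single_of_mem u₀ hu₀ hzero).symm
  calc ∑ j, hc j * Complex.exp (t * w j ξ)
      = ∑ u ∈ W, ∑ j with w j = u, hc j * Complex.exp (t * w j ξ) :=
        (Finset.sum_fiberwise_of_maps_to hmap _).symm
    _ = ∑ u ∈ W, (∑ j with w j = u, hc j) * Complex.exp (t * u ξ) := by
        refine Finset.sum_congr rfl fun u _ => ?_
        rw [Finset.sum_mul]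
        refine Finset.sum_congr rfl fun j hj => ?_
        rw [(Finset.mem_filter.1 hj).2]
    _ = (∑ j with w j = u₀, hc j) * Complex.exp (t * u₀ ξ) :=
        Finset.sum_eq_single_of_mem u₀ hu₀ fun u hu hne' => by rw [hzero u hu hne', zero_mul]
    _ = Complex.exp (-(t * h0)) := by
        rw [hone, one_mul, hval u₀ hu₀ hne]
        congr 1
        ring

end Pool.Agent.SymS
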