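import Pool.Agent.SymS.Alg

/-!
# Maurer-Cartan equation, self-adjointness of the shape operator (helper50)

Let `om u v = (f u)⁻¹ (fderiv f u v) = wk u v + wp u v` (`(f u)⁻¹ = Ring.inverse (f u)`, smooth in `u` on
`U`: `contDiffAt_ringInverse`), so `fderiv f u v = f u * om u v` on `U`.  Differentiate in the
direction `b` (with `v` fixed): `D²f(b, v) = (f om(b)) om(v) + f D_b om (v)`.  `D²f` is symmetric, so
`D_b om (v) - D_v om (b) = om(v) om(b) - om(b) om(v) = -br (om b) (om v)`.
Apply the projection `π` of `exists_proj` (linear, continuous): `wp u v = π (om u v)`, so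
`D_b wp (v) - D_v wp (b) = -br (wk b) (wp v) - br (wp b) (wk v)` (`kk_pp`; the brackets `[kk,kk]`,
`[pp,pp]` are in `kk`).  Since `B(wp u v, ξ) = 0` on `U` for every fixed `v`, the derivative gives
`B(D_b wp (v), ξ) = 0`, so `B(br (wk b) (wp v) + br (wp b) (wk v), ξ) = 0`; by `inv`
`B(br (wk b) (wp v), ξ) = -B(wp v, br (wk b) ξ)` and
`B(br (wp b) (wk v), ξ) = -B(br (wk v) (wp b), ξ) = B(wp b, br (wk v) ξ)`; use `symm`.
`smooth_wp`, `smooth_wk`: `wp u v = π (Ring.inverse (f u) * fderiv f u v)`, `wk = om - wp`.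
-/

namespace Pool.Agent.SymS

open scoped ContDiff

variable {A : Type*} [NormedRing A] [NormedAlgebra ℝ A] [FiniteDimensional ℝ A]
  {E : Type*} [NormedAddCommGroup E] [NormedSpace ℝ E] [FiniteDimensional ℝ E]

private theorem om_eq (M : Sym A) {ξ : A} {U : Set E} {f : E → A} {wk wp : E → E →ₗ[ℝ] A}
    (h : M.IsHyp ξ U f wk wp) (v : E) {u : E} (hu : u ∈ U) :
    Ring.inverse (f u) * fderiv ℝ f u v = wk u v + wp u v := by
  rw [h.df u hu v, ← mul_assoc, Ring.inverse_mul_cancel _ (h.un u hu), one_mul]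

private theorem om_smooth (M : Sym A) {ξ : A} {U : Set E} {f : E → A} {wk wp : E → E →ₗ[ℝ] A}
    (h : M.IsHyp ξ U f wk wp) (v : E) :
    ContDiffOn ℝ ∞ (fun u => Ring.inverse (f u) * fderiv ℝ f u v) U := by
  have : CompleteSpace A := FiniteDimensional.complete ℝ A
  have h1 : ContDiffOn ℝ ∞ (fderiv ℝ f) U := h.sm.fderiv_of_isOpen h.op (by norm_cast)
  have h2 : ContDiffOn ℝ ∞ (fun u => fderiv ℝ f u v) U := h1.clm_apply contDiffOn_const
  have h3 : ContDiffOn ℝ ∞ (fun u => Ring.inverse (f u)) U := by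
    intro u hu
    obtain ⟨x, hx⟩ := h.un u hu
    have h4 : ContDiffAt ℝ ∞ (Ring.inverse : A → A) (f u) := by
      rw [← hx]
      exact contDiffAt_ringInverse ℝ x
    exact h4.comp_contDiffWithinAt u (h.sm u hu)
  exact h3.mul h2

private theorem w_smooth (M : Sym A) {ξ : A} {U : Set E} {f : E → A} {wk wp : E → E →ₗ[ℝ] A}
    (h : M.IsHyp ξ U f wk wp) (v : E) :
    ContDiffOn ℝ ∞ (fun u => wk u v + wp u v) U :=
  (om_smooth M h v).congr fun u hu => (om_eq M h v hu).symm

theorem smooth_wp (M : Sym A) {ξ : A} {U : Set E} {f : E → A} {wk wp : E → E →ₗ[ℝ] A}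
    (h : M.IsHyp ξ U f wk wp) (v : E) : ContDiffOn ℝ ∞ (fun u => wp u v) U := by
  obtain ⟨π, hp, hk⟩ := exists_proj M
  have h1 : ContDiffOn ℝ ∞ (fun u => LinearMap.toContinuousLinearMap π (wk u v + wp u v)) U :=
    (LinearMap.toContinuousLinearMap π).contDiff.comp_contDiffOn (w_smooth M h v)
  refine h1.congr fun u hu => ?_
  show wp u v = π (wk u v + wp u v)
  rw [map_add, hk _ (h.hk u hu v), hp _ (h.hp u hu v), zero_add]

theorem smooth_wk (M : Sym A) {ξ : A} {U : Set E} {f : E → A} {wk wp : E → E →ₗ[ℝ] A}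
    (h : M.IsHyp ξ U f wk wp) (v : E) : ContDiffOn ℝ ∞ (fun u => wk u v) U := by
  refine ((w_smooth M h v).sub (smooth_wp M h v)).congr fun u hu => ?_
  show wk u v = wk u v + wp u v - wp u v
  rw [add_sub_cancel_right]

theorem mc_self (M : Sym A) {ξ : A} (hξ : ξ ∈ M.pp) {U : Set E} {f : E → A}
    {wk wp : E → E →ₗ[ℝ] A} (h : M.IsHyp ξ U f wk wp) {u : E} (hu : u ∈ U) (b v : E) :
    M.B (br (wk u b) ξ) (wp u v) = M.B (br (wk u v) ξ) (wp u b) := by
  obtain ⟨π, hp, hk⟩ := exists_proj M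
  have hnhds : U ∈ nhds u := h.op.mem_nhds hu
  -- the functional
  obtain ⟨ℓ, hℓ⟩ : ∃ ℓ : A →L[ℝ] ℝ, ∀ x, ℓ x = M.B (π x) ξ :=
    ⟨LinearMap.toContinuousLinearMap ((M.B.flip ξ).comp π), fun x => rfl⟩
  have hsm : ∀ a : E, DifferentiableAt ℝ (fun u => wk u a + wp u a) u := fun a =>
    ((w_smooth M h a).contDiffAt hnhds).differentiableAt (by simp)
  have hdf : DifferentiableAt ℝ f u := (h.sm.contDiffAt hnhds).differentiableAt (by simp)
  have hddf : DifferentiableAt ℝ (fderiv ℝ f) u := by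
    have h1 : ContDiffOn ℝ ∞ (fderiv ℝ f) U := h.sm.fderiv_of_isOpen h.op (by norm_cast)
    exact (h1.contDiffAt hnhds).differentiableAt (by simp)
  -- second derivatives
  have key : ∀ a c : E, fderiv ℝ (fderiv ℝ f) u c a =
      f u * (wk u c + wp u c) * (wk u a + wp u a) +
        f u * fderiv ℝ (fun u => wk u a + wp u a) u c := by
    intro a c
    have e1 : fderiv ℝ (fun x => fderiv ℝ f x a) u c = fderiv ℝ (fderiv ℝ f) u c a := by
      have h2 := (hddf.hasFDerivAt.clm_apply (hasFDerivAt_const a u)).fderiv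
      rw [h2]
      simp
    have e2 : (fun x => fderiv ℝ f x a) =ᶠ[nhds u] fun x => f x * (wk x a + wp x a) := by
      filter_upwards [hnhds] with x hx
      exact h.df x hx a
    rw [← e1, e2.fderiv_eq]
    have h3 := (hdf.hasFDerivAt.mul' (hsm a).hasFDerivAt).fderiv
    have h4 : (fun x => f x * (wk x a + wp x a)) = f * fun x => wk x a + wp x a := rfl
    rw [h4, h3]
    simp only [add_apply, smul_apply, smul_eq_mul,
      MulOpposite.smul_eq_mul_unop, MulOpposite.unop_op]
    rw [h.df u hu c]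
    exact add_comm _ _
  have hsymm : fderiv ℝ (fderiv ℝ f) u b v = fderiv ℝ (fderiv ℝ f) u v b := by
    have h1 : IsSymmSndFDerivAt ℝ f u :=
      (h.sm.contDiffAt hnhds).isSymmSndFDerivAt
        (by
          rw [minSmoothness_of_isRCLikeNormedField]
          exact WithTop.coe_le_coe.2 le_top)
    exact h1 b v
  -- the functional kills the derivative
  have hkill : ∀ a c : E, ℓ (fderiv ℝ (fun u => wk u a + wp u a) u c) = 0 := by
    intro a c
    have e1 : (fun x => ℓ (wk x a + wp x a)) =ᶠ[nhds u] fun _ => (0 : ℝ) := by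
      filter_upwards [hnhds] with x hx
      rw [hℓ, map_add, hk _ (h.hk x hx a), hp _ (h.hp x hx a), zero_add]
      exact h.orth x hx a
    have e2 := (ℓ.hasFDerivAt.comp u (hsm a).hasFDerivAt).fderiv
    have e3 : fderiv ℝ (fun x => ℓ (wk x a + wp x a)) u = 0 := by
      rw [e1.fderiv_eq]
      simp
    have e4 : (ℓ ∘ fun x => wk x a + wp x a) = fun x => ℓ (wk x a + wp x a) := rfl
    rw [e4, e3] at e2
    have e5 := congrArg (fun L : E →L[ℝ] ℝ => L c) e2
    simpa using e5.symm
  -- Maurer-Cartan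
  have hmc : (wk u b + wp u b) * (wk u v + wp u v) +
      fderiv ℝ (fun u => wk u v + wp u v) u b =
      (wk u v + wp u v) * (wk u b + wp u b) + fderiv ℝ (fun u => wk u b + wp u b) u v := by
    have h1 := key v b
    have h2 := key b v
    rw [hsymm, h2] at h1
    refine (h.un u hu).mul_left_cancel ?_
    calc f u * ((wk u b + wp u b) * (wk u v + wp u v) +
          fderiv ℝ (fun u => wk u v + wp u v) u b) =
        f u * (wk u b + wp u b) * (wk u v + wp u v) +
          f u * fderiv ℝ (fun u => wk u v + wp u v) u b := by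
          rw [mul_add (f u), mul_assoc (f u)]
      _ = f u * (wk u v + wp u v) * (wk u b + wp u b) +
          f u * fderiv ℝ (fun u => wk u b + wp u b) u v := h1.symm
      _ = f u * ((wk u v + wp u v) * (wk u b + wp u b) +
          fderiv ℝ (fun u => wk u b + wp u b) u v) := by
          rw [mul_assoc (f u)]
          exact (mul_add (f u) _ _).symm
  have hl := congrArg ℓ hmc
  rw [map_add, map_add, hkill, hkill, add_zero, add_zero] at hl
  have hbr : ℓ (br (wk u b + wp u b) (wk u v + wp u v)) = 0 := by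
    unfold br
    rw [map_sub, hl, sub_self]
  have hexp : br (wk u b + wp u b) (wk u v + wp u v) =
      br (wk u b) (wk u v) + br (wk u b) (wp u v) - br (wk u v) (wp u b) +
        br (wp u b) (wp u v) := by
    unfold br
    noncomm_ring
  have kb := h.hk u hu b
  have kv := h.hk u hu v
  have pb := h.hp u hu b
  have pv := h.hp u hu v
  have hπ : π (br (wk u b) (wk u v) + br (wk u b) (wp u v) - br (wk u v) (wp u b) +
      br (wp u b) (wp u v)) = br (wk u b) (wp u v) - br (wk u v) (wp u b) := by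
    rw [map_add π, map_sub π, map_add π, hk _ (M.kk_kk _ kb _ kv), hk _ (M.pp_pp _ pb _ pv),
      hp _ (M.kk_pp _ kb _ pv), hp _ (M.kk_pp _ kv _ pb), zero_add, add_zero]
  rw [hℓ, hexp, hπ, map_sub, LinearMap.sub_apply, M.inv _ kb _ pv _ hξ,
    M.inv _ kv _ pb _ hξ] at hbr
  rw [M.symm _ (M.kk_pp _ kb _ hξ) _ pv, M.symm _ (M.kk_pp _ kv _ hξ) _ pb]
  linarith

end Pool.Agent.SymS
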