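import Pool.Agent.SymS.Theta
import Pool.Agent.SymS.MC
import Pool.Agent.SymS.Diag
import Pool.Agent.CPC.Par

/-!
# Parallel hypersurfaces (helper50)

* `theta_any`: existence of `Θ` for every `H ∈ cc ξ`: `exists_basis`, `shape_exists`, `theta_exists`.
* Let `π` be the projection of `exists_proj` (a linear map of a finite-dimensional space, continuous),
  `om = wk u + wp u`, `F_t(v) = exp(-tξ) om(v) exp(tξ)`; `IsTheta` says `F_t(v) = k + wp (Θ_t v)` with
  `k ∈ kk`, so `wp (Θ_t v) = π (F_t v)`, and `F_t(v) - wp (Θ_t v) ∈ kk`.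
  `d/dt F_t(v) = -br ξ (F_t v)` (`hasDerivAt_exp_smul_const`, `hasDerivAt_exp_smul_const'`), so
  `d/dt wp (Θ_t v) = -π (br ξ (F_t v)) = -br ξ (k_t v)`, `k_t v = F_t v - wp (Θ_t v) ∈ kk` (the
  bracket of `ξ` with the `pp`-part is in `kk`, with the `kk`-part in `pp`).  As `wp` has a linear left
  inverse, `t ↦ Θ_t v` is differentiable, derivative `Θ'_t v` (linear in `v`), `wp (Θ'_t v) = -br ξ (k_t v)`.
* `deriv_theta_zero`: at `t = 0`: `Θ_0 = 1` (`theta_unique`, `exp 0 = 1`), `k_0 v = wk v`,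
  `wp (Θ'_0 v) = -br ξ (wk v) = br (wk v) ξ = -wp (S v)`, so `Θ'_0 = -S`; `CPC.hasDerivAt_det` with
  `Dinv = id`.
* `par`: put `wp' u v = wp u (Θ_t v)`, `wk' u v = F_t v - wp' u v` (both linear in `v`), for `u ∈ U`
  (outside `U` anything).  `f exp(tξ)` is smooth, a unit, its derivative is
  `(f u om v) exp(tξ) = (f u exp(tξ)) F_t(v)`.  `inj`, `codim`: `det Θ_t = exp(-t h0) ≠ 0`, so `Θ_t` is
  bijective.  `orth`: `B(wp (..), ξ) = 0`.  Shape operator: let `Θ'_t` be as above,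
  `S = -(Θ_t)⁻¹ ∘ Θ'_t`; `wp' (S v) = wp (Θ_t (S v)) = -wp (Θ'_t v) = br ξ (k_t v) = -br (wk' v) ξ`.
  `trace S = -trace ((Θ_t)⁻¹ Θ'_t) = -(d/dt det Θ_t) / det Θ_t` by `CPC.hasDerivAt_det`, and
  `det Θ_t = exp(-t h0)` for all `t`, so `trace S = h0`.
-/

set_option linter.all false

namespace Pool.Agent.SymS

open scoped ContDiff

variable {A : Type*} [NormedRing A] [NormedAlgebra ℝ A] [FiniteDimensional ℝ A]
  {E : Type*} [NormedAddCommGroup E] [NormedSpace ℝ E] [FiniteDimensional ℝ E]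

theorem theta_any (M : Sym A) {ξ : A} (hξ : ξ ∈ M.pp) (hNF : M.NoFlat ξ)
    {U : Set E} {f : E → A} {wk wp : E → E →ₗ[ℝ] A} (h : M.IsHyp ξ U f wk wp) {u : E} (hu : u ∈ U)
    {H : A} (hH : H ∈ M.cc ξ) : ∃ Θ : E →ₗ[ℝ] E, M.IsTheta (wk u) (wp u) H Θ := by
  obtain ⟨R, _, _, bas, ρ, hρ⟩ := exists_basis M hξ (wp u) (h.hp u hu) (h.inj u hu) (h.orth u hu)
    (h.codim u hu)
  obtain ⟨S, hS⟩ := shape_exists M hξ (wk u) (wp u) (h.hk u hu) (h.inj u hu) (h.codim u hu)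
  obtain ⟨Θ, hΘ, -⟩ := theta_exists M hξ hNF (wk u) (wp u) (h.hk u hu) (h.hp u hu) (h.inj u hu)
    bas ρ hρ S hS ⟨H, hH⟩
  exact ⟨Θ, hΘ⟩

private theorem par_isUnit (x : A) : IsUnit (NormedSpace.exp x) := by
  have : CompleteSpace A := FiniteDimensional.complete ℝ A
  let _ : NormedAlgebra ℚ A := NormedAlgebra.restrictScalars ℚ ℝ A
  exact NormedSpace.isUnit_exp x

private theorem par_mul (x : A) : NormedSpace.exp x * NormedSpace.exp (-x) = 1 := by
  have : CompleteSpace A := FiniteDimensional.complete ℝ A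
  let _ : NormedAlgebra ℚ A := NormedAlgebra.restrictScalars ℚ ℝ A
  rw [← NormedSpace.exp_add_of_commute (Commute.refl x).neg_right, add_neg_cancel,
    NormedSpace.exp_zero]

private theorem par_exp_zero : NormedSpace.exp (0 : A) = 1 := by
  have : CompleteSpace A := FiniteDimensional.complete ℝ A
  let _ : NormedAlgebra ℚ A := NormedAlgebra.restrictScalars ℚ ℝ A
  exact NormedSpace.exp_zero

/-- `F_t`. -/
private noncomputable def parF (wk0 wp0 : E →ₗ[ℝ] A) (ξ : A) (t : ℝ) : E →ₗ[ℝ] A :=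
  (LinearMap.mulRight ℝ (NormedSpace.exp (t • ξ))).comp
    ((LinearMap.mulLeft ℝ (NormedSpace.exp (-(t • ξ)))).comp (wk0 + wp0))

private theorem parF_apply (wk0 wp0 : E →ₗ[ℝ] A) (ξ : A) (t : ℝ) (v : E) :
    parF wk0 wp0 ξ t v =
      NormedSpace.exp (-(t • ξ)) * (wk0 v + wp0 v) * NormedSpace.exp (t • ξ) := rfl

private theorem parF_deriv (wk0 wp0 : E →ₗ[ℝ] A) (ξ : A) (t : ℝ) (v : E) :
    HasDerivAt (fun r : ℝ => parF wk0 wp0 ξ r v) (-(br ξ (parF wk0 wp0 ξ t v))) t := by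
  have : CompleteSpace A := FiniteDimensional.complete ℝ A
  simp only [parF_apply]
  have h1 : HasDerivAt (fun r : ℝ => NormedSpace.exp (r • (-ξ)))
      ((-ξ) * NormedSpace.exp (t • (-ξ))) t := hasDerivAt_exp_smul_const' (-ξ) t
  have h2 : HasDerivAt (fun r : ℝ => NormedSpace.exp (r • ξ))
      (NormedSpace.exp (t • ξ) * ξ) t := hasDerivAt_exp_smul_const ξ t
  have h3 := (h1.mul_const (wk0 v + wp0 v)).mul h2
  simp only [smul_neg] at h3
  refine h3.congr_deriv ?_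
  unfold br
  noncomm_ring

/-- the derivative of `Θ_t`. -/
private theorem par_deriv (M : Sym A) {ξ : A} (hξ : ξ ∈ M.pp)
    {U : Set E} {f : E → A} {wk wp : E → E →ₗ[ℝ] A} (h : M.IsHyp ξ U f wk wp) {u : E} (hu : u ∈ U)
    (Θ : ℝ → E →ₗ[ℝ] E) (hΘ : ∀ t : ℝ, M.IsTheta (wk u) (wp u) (t • ξ) (Θ t)) :
    ∃ Θ' : ℝ → E →ₗ[ℝ] E, (∀ t v, HasDerivAt (fun r => Θ r v) (Θ' t v) t) ∧
      ∀ t v, wp u (Θ' t v) = -br ξ (parF (wk u) (wp u) ξ t v - wp u (Θ t v)) := by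
  obtain ⟨π, hπp, hπk⟩ := exists_proj M
  obtain ⟨g, hg⟩ := LinearMap.exists_leftInverse_of_injective (wp u)
    (LinearMap.ker_eq_bot.2 (h.inj u hu))
  have hg' : ∀ v, g (wp u v) = v := fun v => LinearMap.congr_fun hg v
  have hk : ∀ t v, parF (wk u) (wp u) ξ t v - wp u (Θ t v) ∈ M.kk := by
    intro t v
    obtain ⟨k, hk, hkv⟩ := hΘ t v
    rw [parF_apply, hkv, add_sub_cancel_right]
    exact hk
  have hF : ∀ t v, Θ t v = g (π (parF (wk u) (wp u) ξ t v)) := by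
    intro t v
    have e : parF (wk u) (wp u) ξ t v =
        (parF (wk u) (wp u) ξ t v - wp u (Θ t v)) + wp u (Θ t v) := by abel
    rw [e, map_add, hπk _ (hk t v), hπp _ (h.hp u hu _), zero_add, hg']
  let L : A →ₗ[ℝ] A := LinearMap.mulLeft ℝ ξ - LinearMap.mulRight ℝ ξ
  have hL : ∀ x, L x = br ξ x := fun x => rfl
  refine ⟨fun t => -((g.comp (π.comp L)).comp (parF (wk u) (wp u) ξ t)), ?_, ?_⟩
  · intro t v
    have h1 : (fun r => Θ r v) =
        fun r => (LinearMap.toContinuousLinearMap (g.comp π)) (parF (wk u) (wp u) ξ r v) := by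
      funext r
      exact hF r v
    rw [h1]
    have h2 := (LinearMap.toContinuousLinearMap (g.comp π)).hasFDerivAt.comp_hasDerivAt t
      (parF_deriv (wk u) (wp u) ξ t v)
    refine h2.congr_deriv ?_
    show g (π (-(br ξ (parF (wk u) (wp u) ξ t v)))) = _
    rw [map_neg, map_neg]
    rfl
  · intro t v
    obtain ⟨k, hkd⟩ : ∃ k, k = parF (wk u) (wp u) ξ t v - wp u (Θ t v) := ⟨_, rfl⟩
    have hkk : k ∈ M.kk := by rw [hkd]; exact hk t v
    have e1 : br ξ (parF (wk u) (wp u) ξ t v) = br ξ k + br ξ (wp u (Θ t v)) := by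
      rw [hkd]; unfold br; noncomm_ring
    have e2 : br ξ k = -br k ξ := by unfold br; noncomm_ring
    have hp1 : br k ξ ∈ M.pp := M.kk_pp k hkk ξ hξ
    have hp2 : br ξ k ∈ M.pp := by rw [e2]; exact M.pp.neg_mem hp1
    have e3 : π (br ξ (parF (wk u) (wp u) ξ t v)) = br ξ k := by
      rw [e1, map_add, hπp _ hp2, hπk _ (M.pp_pp ξ hξ _ (h.hp u hu _)), add_zero]
    have e4 : M.B (br k ξ) ξ = 0 := by
      have h1 := M.inv k hkk ξ hξ ξ hξ
      have h2 := M.symm (br k ξ) hp1 ξ hξ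
      linarith
    have e5 : M.B (-(br ξ k)) ξ = 0 := by
      rw [e2, neg_neg, e4]
    obtain ⟨w, hw⟩ := h.codim u hu (-(br ξ k)) (M.pp.neg_mem hp2) e5
    show wp u (-(g (π (br ξ (parF (wk u) (wp u) ξ t v))))) = _
    rw [e3, ← hkd, ← map_neg g, ← hw, hg']

private theorem par_zero (M : Sym A) {ξ : A}
    {U : Set E} {f : E → A} {wk wp : E → E →ₗ[ℝ] A} (h : M.IsHyp ξ U f wk wp) {u : E} (hu : u ∈ U)
    (Θ : ℝ → E →ₗ[ℝ] E)
    (hΘ : ∀ t : ℝ, M.IsTheta (wk u) (wp u) (t • ξ) (Θ t)) : Θ 0 = LinearMap.id := by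
  apply theta_unique M (ξ := ξ) (wk u) (wp u) (h.hp u hu) (h.inj u hu) (hΘ 0)
  intro v
  refine ⟨wk u v, h.hk u hu v, ?_⟩
  simp [par_exp_zero]

theorem deriv_theta_zero (M : Sym A) {ξ : A} (hξ : ξ ∈ M.pp)
    {U : Set E} {f : E → A} {wk wp : E → E →ₗ[ℝ] A} (h : M.IsHyp ξ U f wk wp) {u : E} (hu : u ∈ U)
    (S : E →ₗ[ℝ] E) (hS : IsShape ξ (wk u) (wp u) S) (Θ : ℝ → E →ₗ[ℝ] E)
    (hΘ : ∀ t : ℝ, M.IsTheta (wk u) (wp u) (t • ξ) (Θ t)) :
    HasDerivAt (fun t => LinearMap.det (Θ t)) (-(LinearMap.trace ℝ E S)) 0 := by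
  obtain ⟨Θ', h1, h2⟩ := par_deriv M hξ h hu Θ hΘ
  have h0 : Θ 0 = LinearMap.id := par_zero M h hu Θ hΘ
  have h3 : Θ' 0 = -S := by
    ext v
    apply h.inj u hu
    rw [h2, h0]
    simp only [LinearMap.id_coe, id_eq, LinearMap.neg_apply, map_neg]
    rw [hS v, parF_apply]
    simp only [zero_smul, neg_zero, par_exp_zero, one_mul, mul_one]
    unfold br
    noncomm_ring
  have h4 := CPC.hasDerivAt_det Θ (Θ' 0) LinearMap.id 0 (h1 0) (by rw [h0]; rfl)
  refine h4.congr_deriv ?_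
  rw [h0, h3]
  simp

theorem par (M : Sym A) {ξ : A} (hξ : ξ ∈ M.pp) (hNF : M.NoFlat ξ)
    {U : Set E} {f : E → A} {wk wp : E → E →ₗ[ℝ] A} (h : M.IsHyp ξ U f wk wp) (h0 : ℝ)
    (hexp : ∀ u ∈ U, ∀ (t : ℝ) (Θ : E →ₗ[ℝ] E), M.IsTheta (wk u) (wp u) (t • ξ) Θ →
      LinearMap.det Θ = Real.exp (-(t * h0))) (t : ℝ) :
    ∃ wk' wp' : E → E →ₗ[ℝ] A,
      M.IsHyp ξ U (fun u => f u * NormedSpace.exp (t • ξ)) wk' wp' ∧
      ∀ u ∈ U, ∃ S : E →ₗ[ℝ] E, IsShape ξ (wk' u) (wp' u) S ∧ LinearMap.trace ℝ E S = h0 := by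
  classical
  have key : ∀ u : E, ∃ Θ : ℝ → E →ₗ[ℝ] E, u ∈ U →
      ∀ r : ℝ, M.IsTheta (wk u) (wp u) (r • ξ) (Θ r) := by
    intro u
    by_cases hu : u ∈ U
    · have := fun r : ℝ => theta_any M hξ hNF h hu ((M.cc ξ).smul_mem r (xi_mem_cc M hξ))
      choose Θ hΘ using this
      exact ⟨Θ, fun _ => hΘ⟩
    · exact ⟨fun _ => 0, fun hu' => absurd hu' hu⟩
  choose Θ hΘ using key
  have hdet : ∀ u ∈ U, LinearMap.det (Θ u t) ≠ 0 := by
    intro u hu
    rw [hexp u hu t _ (hΘ u hu t)]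
    exact (Real.exp_pos _).ne'
  have hinv : ∀ u ∈ U, ∃ D : E →ₗ[ℝ] E, D ∘ₗ Θ u t = LinearMap.id ∧
      Θ u t ∘ₗ D = LinearMap.id := by
    intro u hu
    obtain ⟨D, hD⟩ := (LinearMap.isUnit_iff_isUnit_det (Θ u t)).2 (hdet u hu).isUnit
    refine ⟨((D⁻¹ : (E →ₗ[ℝ] E)ˣ) : E →ₗ[ℝ] E), ?_, ?_⟩
    · rw [← hD]
      exact D.inv_mul
    · rw [← hD]
      exact D.mul_inv
  refine ⟨fun u => parF (wk u) (wp u) ξ t - (wp u).comp (Θ u t), fun u => (wp u).comp (Θ u t),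
    ?_, ?_⟩
  · constructor
    · exact h.op
    · exact h.sm.mul contDiffOn_const
    · intro u hu
      exact (h.un u hu).mul (par_isUnit _)
    · intro u hu v
      have hd : DifferentiableAt ℝ f u :=
        (h.sm.contDiffAt (h.op.mem_nhds hu)).differentiableAt (by simp)
      have e1 : fderiv ℝ (fun y => f y * NormedSpace.exp (t • ξ)) u v =
          fderiv ℝ f u v * NormedSpace.exp (t • ξ) := by
        rw [fderiv_mul_const' hd]
        rfl
      rw [e1, h.df u hu]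
      show _ = f u * NormedSpace.exp (t • ξ) *
        (parF (wk u) (wp u) ξ t v - wp u (Θ u t v) + wp u (Θ u t v))
      rw [sub_add_cancel, parF_apply]
      have e2 := par_mul (t • ξ)
      calc f u * (wk u v + wp u v) * NormedSpace.exp (t • ξ)
          = f u * 1 * (wk u v + wp u v) * NormedSpace.exp (t • ξ) := by rw [mul_one]
        _ = f u * (NormedSpace.exp (t • ξ) * NormedSpace.exp (-(t • ξ))) *
            (wk u v + wp u v) * NormedSpace.exp (t • ξ) := by rw [e2]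
        _ = _ := by simp only [mul_assoc]
    · intro u hu v
      obtain ⟨k, hk, hkv⟩ := hΘ u hu t v
      show parF (wk u) (wp u) ξ t v - wp u (Θ u t v) ∈ M.kk
      rw [parF_apply, hkv, add_sub_cancel_right]
      exact hk
    · intro u hu v
      exact h.hp u hu _
    · intro u hu
      obtain ⟨D, hD, -⟩ := hinv u hu
      have : Function.Injective (Θ u t) :=
        Function.LeftInverse.injective (g := D) (fun v => LinearMap.congr_fun hD v)
      exact (h.inj u hu).comp this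
    · intro u hu v
      exact h.orth u hu _
    · intro u hu w hw hw0
      obtain ⟨v0, hv0⟩ := h.codim u hu w hw hw0
      obtain ⟨D, -, hD⟩ := hinv u hu
      refine ⟨D v0, ?_⟩
      show wp u (Θ u t (D v0)) = w
      have : Θ u t (D v0) = v0 := LinearMap.congr_fun hD v0
      rw [this, hv0]
  · intro u hu
    obtain ⟨D, hD1, hD2⟩ := hinv u hu
    obtain ⟨Θ', h1, h2⟩ := par_deriv M hξ h hu (Θ u) (hΘ u hu)
    refine ⟨-(D ∘ₗ Θ' t), ?_, ?_⟩
    · intro v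
      show wp u (Θ u t (-(D (Θ' t v)))) =
        -br (parF (wk u) (wp u) ξ t v - wp u (Θ u t v)) ξ
      have e1 : Θ u t (D (Θ' t v)) = Θ' t v := LinearMap.congr_fun hD2 _
      rw [map_neg, e1, map_neg, h2]
      unfold br
      noncomm_ring
    · have h3 := CPC.hasDerivAt_det (Θ u) (Θ' t) D t (h1 t) hD1
      have h4 : (fun r => LinearMap.det (Θ u r)) = fun r => Real.exp (-(r * h0)) := by
        funext r
        exact hexp u hu r _ (hΘ u hu r)
      have h5 : HasDerivAt (fun r : ℝ => Real.exp (-(r * h0)))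
          (Real.exp (-(t * h0)) * (-(1 * h0))) t :=
        (((hasDerivAt_id t).mul_const h0).neg).exp
      rw [h4] at h3
      have h6 := h3.unique h5
      rw [hexp u hu t _ (hΘ u hu t)] at h6
      have h7 := mul_left_cancel₀ (Real.exp_pos _).ne' h6
      rw [map_neg, h7]
      ring

end Pool.Agent.SymS
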