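import Pool.Agent.SymS.Expand
import Pool.Agent.SymS.FlowC
import Pool.Agent.SymS.Gen
import Pool.Agent.SymS.Par

/-!
# Hypersurfaces with normal of constant generic type (helper50)
-/

namespace Pool.Agent.SymS

open scoped BigOperators ContDiff

variable {A : Type*} [NormedRing A] [NormedAlgebra ℝ A] [FiniteDimensional ℝ A]
  {E : Type*} [NormedAddCommGroup E] [NormedSpace ℝ E] [FiniteDimensional ℝ E]

/-- the exponential sum of `expand` has separated frequencies for generic `ξ`. -/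
theorem freq_dist (M : Sym A) {ξ : A} (hξ : ξ ∈ M.pp) (hG : M.Generic ξ) {J : Type*}
    (w : J → (M.cc ξ →ₗ[ℝ] ℂ))
    (hw : ∀ j, ∃ w1 ∈ AddSubgroup.closure {α : M.cc ξ →ₗ[ℝ] ℝ | M.IsRoot ξ 1 α},
        ∃ w2 ∈ AddSubgroup.closure {α : M.cc ξ →ₗ[ℝ] ℝ | M.IsRoot ξ (-1) α},
          ∀ H, w j H = (w1 H : ℂ) + Complex.I * (w2 H : ℂ)) (i j : J) (hij : w i ≠ w j) :
    w i ⟨ξ, xi_mem_cc M hξ⟩ ≠ w j ⟨ξ, xi_mem_cc M hξ⟩ ∧
      ∃ H : M.cc ξ, M.B H ξ = 0 ∧ w i H ≠ w j H := by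
  obtain ⟨a1, ha1, a2, ha2, ha⟩ := hw i
  obtain ⟨b1, hb1, b2, hb2, hb⟩ := hw j
  have hre : ∀ H, w i H = w j H → (a1 - b1) H = 0 ∧ (a2 - b2) H = 0 := by
    intro H h
    rw [ha, hb] at h
    have h1 := congrArg Complex.re h
    have h2 := congrArg Complex.im h
    simp at h1 h2
    exact ⟨by rw [LinearMap.sub_apply, h1, sub_self], by rw [LinearMap.sub_apply, h2, sub_self]⟩
  have hne : a1 - b1 ≠ 0 ∨ a2 - b2 ≠ 0 := by
    by_contra hcon
    push Not at hcon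
    obtain ⟨h1, h2⟩ := hcon
    apply hij
    ext H
    rw [ha, hb]
    rw [sub_eq_zero] at h1 h2
    rw [h1, h2]
  have hm1 := AddSubgroup.sub_mem _ ha1 hb1
  have hm2 := AddSubgroup.sub_mem _ ha2 hb2
  rcases hne with h1 | h2
  · obtain ⟨g1, H, hH, g2⟩ := hG 1 (Or.inl rfl) _ hm1 h1
    exact ⟨fun h => g1 _ rfl (hre _ h).1, H, hH, fun h => g2 (hre _ h).1⟩
  · obtain ⟨g1, H, hH, g2⟩ := hG (-1) (Or.inr rfl) _ hm2 h2
    exact ⟨fun h => g1 _ rfl (hre _ h).2, H, hH, fun h => g2 (hre _ h).2⟩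

/-- `det Θ_{tξ} = exp(-t h0)` -/
theorem det_theta (M : Sym A) {ξ : A} (hξ : ξ ∈ M.pp) (hNF : M.NoFlat ξ)
    (hG : M.Generic ξ) {U : Set E} {f : E → A} {wk wp : E → E →ₗ[ℝ] A}
    (h : M.IsHyp ξ U f wk wp) (h0 : ℝ)
    (hcmc : ∀ u ∈ U, ∃ S : E →ₗ[ℝ] E, IsShape ξ (wk u) (wp u) S ∧ LinearMap.trace ℝ E S = h0)
    (u : E) (hu : u ∈ U) (t : ℝ) (Θ : E →ₗ[ℝ] E) (hΘ : M.IsTheta (wk u) (wp u) (t • ξ) Θ) :
    LinearMap.det Θ = Real.exp (-(t * h0)) := by
  obtain ⟨J, hJ, hc, w, hw, hdet⟩ := expand M hξ hNF (wk u) (wp u) (h.hk u hu) (h.hp u hu)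
    (h.inj u hu) (h.orth u hu) (h.codim u hu)
  set ξc : M.cc ξ := ⟨ξ, xi_mem_cc M hξ⟩ with hξc
  -- Θ = 1 at H = 0
  have hid0 : M.IsTheta (wk u) (wp u) ((0 : M.cc ξ) : A) LinearMap.id := by
    intro v
    refine ⟨wk u v, h.hk u hu v, ?_⟩
    simp [NormedSpace.exp_zero]
  have hsum : ∑ j, hc j = 1 := by
    have := hdet 0 _ hid0
    simp at this
    exact this.symm
  have key := gen_exp (V := M.cc ξ)
    ((M.B.flip ξ).comp (M.cc ξ).subtype) ξc hc w h0 hsum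
    (fun i j hij => freq_dist M hξ hG w hw i j hij) ?_ t
  · have h1 := hdet (t • ξc) Θ (by simpa [hξc] using hΘ)
    have h2 : (∑ j, hc j * Complex.exp (w j (t • ξc))) = ∑ j, hc j * Complex.exp (t * w j ξc) := by
      refine Finset.sum_congr rfl fun j _ => ?_
      rw [map_smul]
      rfl
    rw [h2, key] at h1
    have h3 : Complex.exp (-((t : ℂ) * (h0 : ℂ))) = ((Real.exp (-(t * h0)) : ℝ) : ℂ) := by
      push_cast
      rfl
    rw [h3] at h1
    exact_mod_cast h1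
  · intro H hH
    have hH' : M.B (H : A) ξ = 0 := hH
    filter_upwards [cocycle M hξ hNF h hu H.2 hH'] with s hs
    obtain ⟨u', hu', hs⟩ := hs
    obtain ⟨S, hS, hSt⟩ := hcmc u' hu'
    -- the maps Θ
    have e3 : ∀ r : ℝ, ∃ Θ3 : E →ₗ[ℝ] E, M.IsTheta (wk u') (wp u') (r • ξ) Θ3 := fun r =>
      theta_any M hξ hNF h hu' ((M.cc ξ).smul_mem r (xi_mem_cc M hξ))
    choose Θ3 hΘ3 using e3
    have e1 : ∀ r : ℝ, ∃ Θ1 : E →ₗ[ℝ] E, M.IsTheta (wk u) (wp u) (s • (H : A) + r • ξ) Θ1 :=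
      fun r => theta_any M hξ hNF h hu ((M.cc ξ).add_mem ((M.cc ξ).smul_mem s H.2)
        ((M.cc ξ).smul_mem r (xi_mem_cc M hξ)))
    choose Θ1 hΘ1 using e1
    obtain ⟨Θ2, hΘ2⟩ := theta_any M hξ hNF h hu ((M.cc ξ).smul_mem s H.2)
    have hd3 := deriv_theta_zero M hξ h hu' S hS Θ3 hΘ3
    have hcoc : ∀ r : ℝ, LinearMap.det (Θ1 r) = LinearMap.det Θ2 * LinearMap.det (Θ3 r) :=
      fun r => hs (r • ξ) ((M.cc ξ).smul_mem r (xi_mem_cc M hξ)) _ _ _ (hΘ1 r) hΘ2 (hΘ3 r)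
    -- derivative at 0 of the two sides
    have hL : HasDerivAt (fun r : ℝ => ((LinearMap.det (Θ1 r) : ℝ) : ℂ))
        (((LinearMap.det Θ2 * (-(LinearMap.trace ℝ E S)) : ℝ)) : ℂ) 0 := by
      have : HasDerivAt (fun r : ℝ => LinearMap.det (Θ1 r))
          (LinearMap.det Θ2 * (-(LinearMap.trace ℝ E S))) 0 := by
        have h4 := hd3.const_mul (LinearMap.det Θ2)
        refine h4.congr_of_eventuallyEq (Filter.Eventually.of_forall fun r => ?_)
        exact hcoc r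
      exact this.ofReal_comp
    have hR : HasDerivAt (fun r : ℝ => ∑ j, hc j * Complex.exp (w j (s • H + r • ξc)))
        (∑ j, hc j * (Complex.exp (w j (s • H)) * w j ξc)) 0 := by
      refine HasDerivAt.fun_sum fun j _ => ?_
      refine HasDerivAt.const_mul _ ?_
      have h5 : HasDerivAt (fun r : ℝ => w j (s • H + r • ξc)) (w j ξc) 0 := by
        have : (fun r : ℝ => w j (s • H + r • ξc)) = fun r : ℝ => w j (s • H) + (r : ℂ) * w j ξc := by
          funext r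
          rw [map_add, map_smul (w j) r]
          rfl
        rw [this]
        have h6 : HasDerivAt (fun r : ℝ => ((r : ℝ) : ℂ)) 1 0 := by
          exact (hasDerivAt_id (0 : ℝ)).ofReal_comp
        have h7 := (h6.mul_const (w j ξc)).const_add (w j (s • H))
        simpa using h7
      have h8 := h5.cexp
      simpa using h8
    have hLR : (fun r : ℝ => ((LinearMap.det (Θ1 r) : ℝ) : ℂ)) =
        fun r : ℝ => ∑ j, hc j * Complex.exp (w j (s • H + r • ξc)) := by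
      funext r
      exact hdet (s • H + r • ξc) (Θ1 r) (by simpa [hξc] using hΘ1 r)
    rw [hLR] at hL
    have hder := hL.unique hR
    have h2 : ((LinearMap.det Θ2 : ℝ) : ℂ) = ∑ j, hc j * Complex.exp (w j (s • H)) :=
      hdet (s • H) Θ2 (by simpa using hΘ2)
    rw [hSt] at hder
    push_cast at hder
    rw [h2] at hder
    have : ∑ j, hc j * (w j ξc + h0) * Complex.exp (s * w j H) =
        (∑ j, hc j * (Complex.exp (w j (s • H)) * w j ξc)) +
          (h0 : ℂ) * ∑ j, hc j * Complex.exp (w j (s • H)) := by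
      rw [Finset.mul_sum, ← Finset.sum_add_distrib]
      refine Finset.sum_congr rfl fun j _ => ?_
      have : w j (s • H) = s * w j H := by
        rw [map_smul]; rfl
      rw [this]
      ring
    rw [this, ← hder]
    ring

/-- Constant mean curvature and normal of constant generic type imply isoparametric. -/
theorem main (M : Sym A) {ξ : A} (hξ : ξ ∈ M.pp) (hNF : M.NoFlat ξ)
    (hG : M.Generic ξ) {U : Set E} {f : E → A} {wk wp : E → E →ₗ[ℝ] A}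
    (h : M.IsHyp ξ U f wk wp) (h0 : ℝ)
    (hcmc : ∀ u ∈ U, ∃ S : E →ₗ[ℝ] E, IsShape ξ (wk u) (wp u) S ∧ LinearMap.trace ℝ E S = h0)
    (t : ℝ) :
    ∃ wk' wp' : E → E →ₗ[ℝ] A,
      M.IsHyp ξ U (fun u => f u * NormedSpace.exp (t • ξ)) wk' wp' ∧
      ∀ u ∈ U, ∃ S : E →ₗ[ℝ] E, IsShape ξ (wk' u) (wp' u) S ∧ LinearMap.trace ℝ E S = h0 :=
  par M hξ hNF h h0 (fun u hu t Θ hΘ => det_theta M hξ hNF hG h h0 hcmc u hu t Θ hΘ) t

end Pool.Agent.SymS
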